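import Pool.Agent.H63.GV.HX
import Pool.Agent.H63.VC5.SlotA
import Pool.Agent.H63.VC5.Vtx

/-! # The logarithms of a slot and the identities of a vertex -/

namespace Pool.Agent.H63.GV

open Pool.Agent.H63.VC Pool.Agent.H63.VC3 Pool.Agent.H63.VC4 Pool.Agent.H63.VC5 Complex Filter
  Topology
open scoped BigOperators

/-! ### imaginary parts of logarithms -/

private theorem Slot_re {z : ℂ} (h0 : 0 < z.re) (h1 : z.re < 1) :
    0 < Real.sin (Real.pi * z.re) ∧ 0 < (2 * sin (Real.pi * z)).re := by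
  have h4 : 0 < Real.sin (Real.pi * z.re) := by
    apply Real.sin_pos_of_pos_of_lt_pi
    · positivity
    · have := Real.pi_pos
      nlinarith
  have := Real.cosh_pos (Real.pi * z.im)
  refine ⟨h4, ?_⟩
  rw [HHx_re2]
  positivity

theorem im_hh_le (z : ℂ) (h0 : 0 < z.re) (h1 : z.re < 1) :
    |(hh z).im| ≤ |Real.cos (Real.pi * z.re)| / Real.sin (Real.pi * z.re) *
      (Real.pi * |z.im|) := by
  obtain ⟨hs, hW⟩ := Slot_re h0 h1
  have hch := Real.cosh_pos (Real.pi * z.im)
  have habs2 : |Real.pi * z.im| = Real.pi * |z.im| := by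
    rw [abs_mul, abs_of_pos Real.pi_pos]
  have hsinh : |Real.sinh (Real.pi * z.im)| ≤
      Real.pi * |z.im| * Real.cosh (Real.pi * z.im) := by
    have h3 := Clausen_norm_sinh_le ((Real.pi * z.im : ℝ) : ℂ)
    rw [← Complex.ofReal_sinh, Complex.norm_real, Complex.norm_real, Complex.ofReal_re,
      Real.norm_eq_abs, Real.norm_eq_abs, habs2] at h3
    exact h3
  have ha : |arg (2 * sin (Real.pi * z))| < Real.pi / 2 :=
    Complex.abs_arg_lt_pi_div_two_iff.2 (Or.inl hW)
  have h2 : |arg (2 * sin (Real.pi * z))| ≤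
      |(2 * sin (Real.pi * z)).im| / (2 * sin (Real.pi * z)).re := by
    have h3 := Real.le_tan (abs_nonneg (arg (2 * sin (Real.pi * z)))) ha
    have h4 : Real.tan |arg (2 * sin (Real.pi * z))| =
        |(2 * sin (Real.pi * z)).im| / (2 * sin (Real.pi * z)).re := by
      rcases le_total 0 (arg (2 * sin (Real.pi * z))) with h | h
      · have h5 : 0 ≤ (2 * sin (Real.pi * z)).im := Complex.arg_nonneg_iff.1 h
        rw [abs_of_nonneg h, Complex.tan_arg, abs_of_nonneg h5]
      · have h5 : (2 * sin (Real.pi * z)).im ≤ 0 := by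
          rcases h.lt_or_eq with h6 | h6
          · exact (Complex.arg_neg_iff.1 h6).le
          · have h7 := Complex.tan_arg (2 * sin (Real.pi * z))
            rw [h6, Real.tan_zero] at h7
            rcases div_eq_zero_iff.1 h7.symm with h8 | h8
            · exact h8.le
            · exact absurd h8 hW.ne'
        rw [abs_of_nonpos h, Real.tan_neg, Complex.tan_arg, abs_of_nonpos h5, neg_div]
    rw [← h4]
    exact h3
  unfold hh
  rw [Complex.log_im]
  refine h2.trans ?_
  rw [HHx_re2, HHx_im2, abs_mul, abs_mul, abs_two, mul_div_mul_left _ _ (two_ne_zero),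
    div_mul_eq_mul_div, div_le_div_iff₀ (by positivity) hs]
  calc |Real.cos (Real.pi * z.re)| * |Real.sinh (Real.pi * z.im)| * Real.sin (Real.pi * z.re)
      ≤ |Real.cos (Real.pi * z.re)| * (Real.pi * |z.im| * Real.cosh (Real.pi * z.im)) *
        Real.sin (Real.pi * z.re) := by
        refine mul_le_mul_of_nonneg_right ?_ hs.le
        exact mul_le_mul_of_nonneg_left hsinh (abs_nonneg _)
    _ = |Real.cos (Real.pi * z.re)| * (Real.pi * |z.im|) *
        (Real.sin (Real.pi * z.re) * Real.cosh (Real.pi * z.im)) := by ring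

private theorem Slot_im_half {z : ℂ} (h0 : 0 < z.re) (h1 : z.re < 1) : |(hh z).im| ≤ Real.pi / 2 := by
  obtain ⟨-, hW⟩ := Slot_re h0 h1
  unfold hh
  rw [Complex.log_im]
  exact (Complex.abs_arg_lt_pi_div_two_iff.2 (Or.inl hW)).le

/-- a bound for `|im hh z|` from a bound of the cotangent -/
private theorem Slot_cot {z : ℂ} {k t : ℝ} (h0 : 0 < z.re) (h1 : z.re < 1)
    (hk : |Real.cos (Real.pi * z.re)| ≤ k * Real.sin (Real.pi * z.re)) (ht : |z.im| ≤ t)
    (hk0 : 0 ≤ k) : |(hh z).im| ≤ k * t * Real.pi := by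
  obtain ⟨hs, -⟩ := Slot_re h0 h1
  refine (im_hh_le z h0 h1).trans ?_
  have h2 : |Real.cos (Real.pi * z.re)| / Real.sin (Real.pi * z.re) ≤ k := by
    rw [div_le_iff₀ hs]
    exact hk
  have hp := Real.pi_pos
  calc |Real.cos (Real.pi * z.re)| / Real.sin (Real.pi * z.re) * (Real.pi * |z.im|)
      ≤ k * (Real.pi * t) :=
        mul_le_mul h2 (mul_le_mul_of_nonneg_left ht hp.le) (by positivity) hk0
    _ = k * t * Real.pi := by ring

/-- `|c| ≤ k s` if `s ≥ a > 0`, `s ^ 2 + c ^ 2 = 1` and `1 ≤ (1 + k ^ 2) a ^ 2` -/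
private theorem Slot_alg {s c a k : ℝ} (hs : a ≤ s) (ha : 0 ≤ a) (h : s ^ 2 + c ^ 2 = 1)
    (hk : 0 ≤ k) (h2 : 1 ≤ (1 + k ^ 2) * a ^ 2) : |c| ≤ k * s := by
  apply abs_le_of_sq_le_sq' _ (mul_nonneg hk (ha.trans hs)) |> abs_le.2
  have h3 : a ^ 2 ≤ s ^ 2 := pow_le_pow_left₀ ha hs 2
  have h4 : (1 + k ^ 2) * a ^ 2 ≤ (1 + k ^ 2) * s ^ 2 := mul_le_mul_of_nonneg_left h3 (by positivity)
  nlinarith

private theorem Slot_pts {v y : ℂ} (h : Sl v y) :
    (0 < (y + v).re ∧ (y + v).re < 1) ∧ (0 < (y - v).re ∧ (y - v).re < 1) ∧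
    (0 < (y + 1 / 2).re ∧ (y + 1 / 2).re < 1) ∧ (0 < (v + 1 / 2).re ∧ (v + 1 / 2).re < 1) := by
  obtain ⟨v1, v2, y1, y2, y3, vy⟩ := h
  have a2 : ((1 : ℂ) / 2).re = 1 / 2 := by norm_num
  have b1 := le_abs_self v.re
  have b2 := neg_abs_le v.re
  simp only [add_re, sub_re, a2]
  refine ⟨⟨?_, ?_⟩, ⟨?_, ?_⟩, ⟨?_, ?_⟩, ⟨?_, ?_⟩⟩ <;> linarith

theorem sl_y {v y : ℂ} (h : Sl v y) : |(hh (y + 1 / 2)).im| ≤ 7 / 100 * Real.pi := by
  obtain ⟨-, -, ⟨h0, h1⟩, -⟩ := Slot_pts h
  obtain ⟨v1, v2, y1, y2, y3, vy⟩ := h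
  have hpi1 := Real.pi_gt_d4
  have hpi2 := Real.pi_lt_d4
  have a2 : ((1 : ℂ) / 2).re = 1 / 2 := by norm_num
  have a3 : ((1 : ℂ) / 2).im = 0 := by norm_num
  have e1 : (y + 1 / 2).re = y.re + 1 / 2 := by rw [add_re, a2]
  have e2 : (y + 1 / 2).im = y.im := by rw [add_im, a3, add_zero]
  have h5 := Slot_cot (z := y + 1 / 2) (k := 2) (t := 35 / 1000) h0 h1 ?_ (by rw [e2]; exact y3)
    (by norm_num)
  · calc _ ≤ _ := h5
      _ = _ := by ring
  · refine Slot_alg (a := 45 / 100) ?_ (by norm_num) (Real.sin_sq_add_cos_sq _) (by norm_num)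
      (by norm_num)
    have e3 : Real.sin (Real.pi * (y + 1 / 2).re) = Real.sin (Real.pi * (1 / 2 - y.re)) := by
      rw [e1, show Real.pi * (y.re + 1 / 2) = Real.pi - Real.pi * (1 / 2 - y.re) by ring,
        Real.sin_pi_sub]
    rw [e3]
    have h6 : Real.sin (Real.pi * (16 / 100)) ≤ Real.sin (Real.pi * (1 / 2 - y.re)) := by
      apply Real.sin_le_sin_of_le_of_le_pi_div_two
      · have : 0 < Real.pi * (16 / 100) := by positivity
        linarith
      · nlinarith
      · exact mul_le_mul_of_nonneg_left (by linarith) (by linarith)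
    have h7 := Real.sin_gt_sub_cube (x := Real.pi * (16 / 100)) (by positivity)
    have h8 : (Real.pi * (16 / 100)) ^ 3 ≤ (503 / 1000) ^ 3 :=
      pow_le_pow_left₀ (by positivity) (by linarith) 3
    norm_num at h8
    linarith

theorem sl_v {v y : ℂ} (h : Sl v y) : |(hh (v + 1 / 2)).im| ≤ 9 / 100 * Real.pi := by
  obtain ⟨-, -, -, h0, h1⟩ := Slot_pts h
  obtain ⟨v1, v2, y1, y2, y3, vy⟩ := h
  have hpi1 := Real.pi_gt_d4
  have hpi2 := Real.pi_lt_d4
  have a2 : ((1 : ℂ) / 2).re = 1 / 2 := by norm_num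
  have a3 : ((1 : ℂ) / 2).im = 0 := by norm_num
  have e1 : (v + 1 / 2).re = v.re + 1 / 2 := by rw [add_re, a2]
  have e2 : (v + 1 / 2).im = v.im := by rw [add_im, a3, add_zero]
  have h5 := Slot_cot (z := v + 1 / 2) (k := 9 / 7) (t := 7 / 100) h0 h1 ?_ (by rw [e2]; exact v2)
    (by norm_num)
  · calc _ ≤ _ := h5
      _ = _ := by ring
  · refine Slot_alg (a := 615 / 1000) ?_ (by norm_num) (Real.sin_sq_add_cos_sq _) (by norm_num)
      (by norm_num)
    have e3 : Real.sin (Real.pi * (v + 1 / 2).re) = 2 * Real.cos (Real.pi * v.re / 2) ^ 2 - 1 := by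
      rw [e1, show Real.pi * (v.re + 1 / 2) = 2 * (Real.pi * v.re / 2) + Real.pi / 2 by ring,
        Real.sin_add_pi_div_two, Real.cos_two_mul]
    rw [e3]
    have h6 := Real.one_sub_sq_div_two_le_cos (x := Real.pi * v.re / 2)
    have h7 : (Real.pi * v.re / 2) ^ 2 ≤ (4489 / 10000) ^ 2 := by
      rw [← sq_abs]
      refine pow_le_pow_left₀ (abs_nonneg _) ?_ 2
      rw [abs_div, abs_mul, abs_of_pos Real.pi_pos, abs_two]
      have : Real.pi * |v.re| ≤ Real.pi * (2 / 7) := mul_le_mul_of_nonneg_left v1.le (by linarith)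
      linarith
    have h8 : 899 / 1000 ≤ Real.cos (Real.pi * v.re / 2) := by
      norm_num at h7
      linarith
    nlinarith

theorem sl_mm {v y : ℂ} (h : Sl v y) : |(mm v y).im| ≤ 31 / 100 * Real.pi := by
  obtain ⟨⟨p0, p1⟩, ⟨q0, q1⟩, -, -⟩ := Slot_pts h
  obtain ⟨v1, v2, y1, y2, y3, vy⟩ := h
  have hpi1 := Real.pi_gt_d4
  have hpi2 := Real.pi_lt_d4
  have e : (mm v y).im = ((hh (y - v)).im + (hh (y + v)).im) / 2 := by
    unfold mm
    rw [show (hh (y - v) + hh (y + v)) / 2 = (hh (y - v) + hh (y + v)) * ((1 / 2 : ℝ) : ℂ) by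
      push_cast; ring, Complex.im_mul_ofReal, add_im]
    ring
  -- the point with the larger real part
  have key : ∀ z : ℂ, 24 / 100 ≤ z.re → z.re ≤ 626 / 1000 → |z.im| ≤ 105 / 1000 →
      |(hh z).im| ≤ 12 / 100 * Real.pi := by
    intro z h1 h2 h3
    have h5 := Slot_cot (z := z) (k := 8 / 7) (t := 105 / 1000) (by linarith) (by linarith) ?_ h3
      (by norm_num)
    · calc _ ≤ _ := h5
        _ = _ := by ring
    · refine Slot_alg (a := 66 / 100) ?_ (by norm_num) (Real.sin_sq_add_cos_sq _) (by norm_num)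
        (by norm_num)
      have e3 : Real.sin (Real.pi * z.re) = Real.cos (Real.pi * (z.re - 1 / 2)) := by
        rw [show Real.pi * z.re = Real.pi * (z.re - 1 / 2) + Real.pi / 2 by ring,
          Real.sin_add_pi_div_two]
      rw [e3]
      have h6 := Real.one_sub_sq_div_two_le_cos (x := Real.pi * (z.re - 1 / 2))
      have h7 : (Real.pi * (z.re - 1 / 2)) ^ 2 ≤ (8169 / 10000) ^ 2 := by
        rw [← sq_abs]
        refine pow_le_pow_left₀ (abs_nonneg _) ?_ 2
        rw [abs_mul, abs_of_pos Real.pi_pos]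
        have h8 : |z.re - 1 / 2| ≤ 26 / 100 := by
          rw [abs_le]
          constructor <;> linarith
        have : Real.pi * |z.re - 1 / 2| ≤ Real.pi * (26 / 100) :=
          mul_le_mul_of_nonneg_left h8 (by linarith)
        linarith
      norm_num at h7
      linarith
  have b1 := abs_lt.1 v1
  rw [abs_le] at v2 y3
  have hp := Slot_im_half p0 p1
  have hq := Slot_im_half q0 q1
  rw [e]
  rcases le_total 0 v.re with hv | hv
  · have h1 := key (y + v) (by rw [add_re]; linarith) (by rw [add_re]; linarith)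
      (by rw [add_im, abs_le]; constructor <;> linarith)
    rw [abs_le] at h1 hq ⊢
    constructor <;> linarith
  · have h1 := key (y - v) (by rw [sub_re]; linarith) (by rw [sub_re]; linarith)
      (by rw [sub_im, abs_le]; constructor <;> linarith)
    rw [abs_le] at h1 hp ⊢
    constructor <;> linarith

/-! ### the logarithms of a slot -/

/-- `e^{i π b}` times `e^m` and `e^{-i π b}` times `e^m` -/
private theorem Slot_eb {v y b : ℂ} (h : Sl v y) (hb : b = bet v (some y) / (2 * Real.pi)) :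
    exp (Real.pi * b * I) * exp (mm v y) = 2 * sin (Real.pi * (y + v)) ∧
    exp (-(Real.pi * b) * I) * exp (mm v y) = 2 * sin (Real.pi * (y - v)) := by
  obtain ⟨⟨p0, p1⟩, ⟨q0, q1⟩, -, -⟩ := Slot_pts h
  have hpi0 : (Real.pi : ℂ) ≠ 0 := by exact_mod_cast Real.pi_ne_zero
  have e1 : (Real.pi : ℂ) * b * I = (hh (y + v) - hh (y - v)) / 2 := by
    rw [hb]
    simp only [bet]
    field_simp
    linear_combination (-(hh (y + v) - hh (y - v))) * I_sq
  constructor
  · rw [e1, ← Complex.exp_add, ← hh_exp (y + v) p0 p1]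
    congr 1
    unfold mm
    ring
  · rw [show -((Real.pi : ℂ) * b) * I = -((Real.pi : ℂ) * b * I) by ring, e1, ← Complex.exp_add,
      ← hh_exp (y - v) q0 q1]
    congr 1
    unfold mm
    ring

theorem slot_h0 (s : ℝ) (v y b : ℂ) (h : Sl v y) (hb : b = bet v (some y) / (2 * Real.pi))
    (hd : Dm s (s * v) b) :
    hh b - hh (s * v) = hh (y + 1 / 2) - mm v y - s * Real.pi * I / 2 := by
  obtain ⟨hs, w1, w2, b1, b2, b3, b4⟩ := hd
  obtain ⟨E1, E2⟩ := Slot_eb h hb
  obtain ⟨-, -, ⟨r1, r2⟩, -⟩ := Slot_pts h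
  have hw := HS_w s hs (s * v) w1
  have hb1 : HS s (1 - b) := by
    have := HS_add s _ _ b2 hw
    rwa [show 1 - (s : ℂ) * v - b + s * v = 1 - b by ring] at this
  have hw1 : HS s (1 - s * v) := by
    have := HS_add s _ _ b2 b1
    rwa [show 1 - (s : ℂ) * v - b + b = 1 - s * v by ring] at this
  have hwim : |((s : ℂ) * v).im| < 3 / 10 := by linarith
  have X1 := hhx_exp s hs b b1 hb1 b3
  have X2 := hhx_exp s hs (s * v) hw hw1 hwim
  have X3 := hh_exp (y + 1 / 2) r1 r2
  have I1 := hhx_im s hs b b1 hb1 b3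
  have I2 := hhw_im (s * v) w1 w2
  have I3 := sl_y h
  have I4 := sl_mm h
  have hX3 : 2 * sin (Real.pi * (y + 1 / 2)) = 2 * cos (Real.pi * y) := by
    rw [show (Real.pi : ℂ) * (y + 1 / 2) = Real.pi * y + Real.pi / 2 by ring, Complex.sin_add_pi_div_two]
  rw [hX3] at X3
  have key : hh b = hh (s * v) + hh (y + 1 / 2) - mm v y - s * Real.pi * I / 2 := by
    apply SlotA_uniq
    · have hm : exp (mm v y) ≠ 0 := Complex.exp_ne_zero _
      have hsv : (s : ℂ) * sin (Real.pi * (s * v)) = sin (Real.pi * v) := by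
        rcases hs with rfl | rfl
        · simp
        · push_cast
          rw [show (Real.pi : ℂ) * (-1 * v) = -(Real.pi * v) by ring, Complex.sin_neg]
          ring
      have hR : exp (hh (s * v) + hh (y + 1 / 2) - mm v y - s * Real.pi * I / 2) * exp (mm v y) =
          exp (hh (s * v)) * exp (hh (y + 1 / 2)) * exp (-(s * Real.pi * I / 2)) := by
        rw [← Complex.exp_add, ← Complex.exp_add, ← Complex.exp_add]
        congr 1
        ring
      apply mul_right_cancel₀ hm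
      rw [hR, X1, X2, X3, SlotA_sI hs]
      have hL : 2 * sin (Real.pi * b) * exp (mm v y) =
          (exp (-(Real.pi * b) * I) * exp (mm v y) - exp (Real.pi * b * I) * exp (mm v y)) * I := by
        rw [Complex.sin]
        ring
      rw [hL, E1, E2, show (Real.pi : ℂ) * (y - v) = Real.pi * y - Real.pi * v by ring,
        show (Real.pi : ℂ) * (y + v) = Real.pi * y + Real.pi * v by ring, Complex.sin_sub, Complex.sin_add]
      linear_combination (-4 * cos (Real.pi * y) * I) * (-hsv)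
    · have hsi : (s * Real.pi * I / 2 : ℂ).im = s * Real.pi / 2 := by
        rw [show (s * Real.pi * I / 2 : ℂ) = ((s * Real.pi / 2 : ℝ) : ℂ) * I by push_cast; ring]
        simp
      have hI : (hh (s * v) + hh (y + 1 / 2) - mm v y - s * Real.pi * I / 2).im =
          (hh (s * v)).im + (hh (y + 1 / 2)).im - (mm v y).im - s * Real.pi / 2 := by
        rw [sub_im, sub_im, add_im, hsi]
      rw [hI]
      have hpi := Real.pi_pos
      rw [abs_le] at I1 I2 I3 I4
      rw [abs_lt]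
      rcases hs with rfl | rfl <;> constructor <;> linarith
  rw [key]
  ring

theorem slot_h1 (s : ℝ) (v y b : ℂ) (h : Sl v y) (hb : b = bet v (some y) / (2 * Real.pi))
    (hd : Dm s (s * v) b) :
    hh (s * v + b) - hh (s * v) =
      hh (v + 1 / 2) - mm v y - s * Real.pi * I / 2 + s * Real.pi * I * y := by
  obtain ⟨hs, w1, w2, b1, b2, b3, b4⟩ := hd
  obtain ⟨E1, E2⟩ := Slot_eb h hb
  obtain ⟨-, -, -, ⟨r1, r2⟩⟩ := Slot_pts h
  have hw := HS_w s hs (s * v) w1
  have hw1 : HS s (1 - s * v) := by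
    have := HS_add s _ _ b2 b1
    rwa [show 1 - (s : ℂ) * v - b + b = 1 - s * v by ring] at this
  have hwb := HS_add s _ _ hw b1
  have hwb1 : HS s (1 - (s * v + b)) := by
    rwa [show 1 - ((s : ℂ) * v + b) = 1 - s * v - b by ring]
  have hwim : |((s : ℂ) * v).im| < 3 / 10 := by linarith
  have X1 := hhx_exp s hs (s * v + b) hwb hwb1 b4
  have X2 := hhx_exp s hs (s * v) hw hw1 hwim
  have X3 := hh_exp (v + 1 / 2) r1 r2
  have I1 := hhx_im s hs (s * v + b) hwb hwb1 b4
  have I2 := hhw_im (s * v) w1 w2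
  have I3 := sl_v h
  have I4 := sl_mm h
  have hX3 : 2 * sin (Real.pi * (v + 1 / 2)) = 2 * cos (Real.pi * v) := by
    rw [show (Real.pi : ℂ) * (v + 1 / 2) = Real.pi * v + Real.pi / 2 by ring, Complex.sin_add_pi_div_two]
  rw [hX3] at X3
  have key : hh (s * v + b) = hh (s * v) + hh (v + 1 / 2) - mm v y - s * Real.pi * I / 2 +
      s * Real.pi * I * y := by
    apply SlotA_uniq
    · have hm : exp (mm v y) ≠ 0 := Complex.exp_ne_zero _
      have hR : exp (hh (s * v) + hh (v + 1 / 2) - mm v y - s * Real.pi * I / 2 + s * Real.pi * I * y) *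
          exp (mm v y) = exp (hh (s * v)) * exp (hh (v + 1 / 2)) * exp (-(s * Real.pi * I / 2)) *
            exp (s * Real.pi * y * I) := by
        rw [← Complex.exp_add, ← Complex.exp_add, ← Complex.exp_add, ← Complex.exp_add]
        congr 1
        ring
      apply mul_right_cancel₀ hm
      rw [hR, X1, X2, X3, SlotA_sI hs]
      have hL : 2 * sin (Real.pi * (s * v + b)) * exp (mm v y) =
          (exp (-(Real.pi * (s * v)) * I) * (exp (-(Real.pi * b) * I) * exp (mm v y)) -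
            exp (Real.pi * (s * v) * I) * (exp (Real.pi * b * I) * exp (mm v y))) * I := by
        have k1 : exp (-(Real.pi * (s * v + b)) * I) = exp (-(Real.pi * (s * v)) * I) * exp (-(Real.pi * b) * I) := by
          rw [← Complex.exp_add]
          congr 1
          ring
        have k2 : exp (Real.pi * (s * v + b) * I) = exp (Real.pi * (s * v) * I) * exp (Real.pi * b * I) := by
          rw [← Complex.exp_add]
          congr 1
          ring
        rw [Complex.sin, k1, k2]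
        ring
      rw [hL, E1, E2, show (Real.pi : ℂ) * (y - v) = Real.pi * y - Real.pi * v by ring,
        show (Real.pi : ℂ) * (y + v) = Real.pi * y + Real.pi * v by ring, Complex.sin_sub, Complex.sin_add,
        Complex.exp_mul_I, Complex.exp_mul_I, Complex.exp_mul_I, Complex.cos_neg, Complex.sin_neg]
      rcases hs with rfl | rfl
      · push_cast
        simp only [one_mul]
        ring
      · push_cast
        rw [show (Real.pi : ℂ) * (-1 * v) = -(Real.pi * v) by ring,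
          show (-1 : ℂ) * Real.pi * y = -(Real.pi * y) by ring, Complex.cos_neg, Complex.sin_neg,
          Complex.cos_neg, Complex.sin_neg]
        ring
    · have hsi : (s * Real.pi * I / 2 : ℂ).im = s * Real.pi / 2 := by
        rw [show (s * Real.pi * I / 2 : ℂ) = ((s * Real.pi / 2 : ℝ) : ℂ) * I by push_cast; ring]
        simp
      have hsy : (s * Real.pi * I * y : ℂ).im = s * Real.pi * y.re := by
        rw [show (s * Real.pi * I * y : ℂ) = ((s * Real.pi : ℝ) : ℂ) * (I * y) by push_cast; ring,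
          Complex.im_ofReal_mul]
        simp
      have hI : (hh (s * v) + hh (v + 1 / 2) - mm v y - s * Real.pi * I / 2 + s * Real.pi * I * y).im =
          (hh (s * v)).im + (hh (v + 1 / 2)).im - (mm v y).im - s * Real.pi / 2 + s * Real.pi * y.re := by
        rw [add_im, sub_im, sub_im, add_im, hsi, hsy]
      rw [hI]
      have hpi := Real.pi_pos
      have hpy1 : Real.pi * y.re ≤ Real.pi * (34 / 100) :=
        mul_le_mul_of_nonneg_left h.y2 hpi.le
      have hpy2 : Real.pi * (24 / 100) ≤ Real.pi * y.re :=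
        mul_le_mul_of_nonneg_left h.y1 hpi.le
      rw [abs_le] at I1 I2 I3 I4
      rw [abs_lt]
      rcases hs with rfl | rfl <;> constructor <;> linarith
  rw [key]
  ring

/-! ### the identities of a vertex -/

private theorem Slot_exp_m {v y : ℂ} (h : Sl v y) :
    exp (2 * mm v y) = 2 * (cos (2 * Real.pi * v) - cos (2 * Real.pi * y)) := by
  obtain ⟨⟨p0, p1⟩, ⟨q0, q1⟩, -, -⟩ := Slot_pts h
  have e : 2 * mm v y = hh (y - v) + hh (y + v) := by
    rw [mm]
    ring
  rw [e, Complex.exp_add, hh_exp _ q0 q1, hh_exp _ p0 p1]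
  have e1 : (2 * Real.pi * v : ℂ) = Real.pi * (y + v) - Real.pi * (y - v) := by ring
  have e2 : (2 * Real.pi * y : ℂ) = Real.pi * (y + v) + Real.pi * (y - v) := by ring
  rw [e1, e2, Complex.cos_sub, Complex.cos_add]
  ring

theorem vertex_small (v y : ℂ) (h : Sl v y) :
    |(2 * (mm v y - hh (y + 1 / 2))).im| ≤ 4 / 5 * Real.pi ∧
    |(2 * (hh (v + 1 / 2) - hh (y + 1 / 2))).im| ≤ 1 / 3 * Real.pi ∧
    1 - -exp (2 * (mm v y - hh (y + 1 / 2))) =
      exp (2 * (hh (v + 1 / 2) - hh (y + 1 / 2))) := by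
  obtain ⟨-, -, hyr, hvr⟩ := Slot_pts h
  have hm := Slot_exp_m h
  have he := Vtx_exp_half hyr.1 hyr.2
  have hd := Vtx_exp_half hvr.1 hvr.2
  have im1 := sl_mm h
  have im3 := sl_y h
  have im4 := sl_v h
  have hpi := Real.pi_pos
  have hmm : (2 * (mm v y - hh (y + 1 / 2))).im = 2 * (mm v y).im - 2 * (hh (y + 1 / 2)).im := by
    have e : 2 * (mm v y - hh (y + 1 / 2)) = ((2 : ℝ) : ℂ) * mm v y -
        ((2 : ℝ) : ℂ) * hh (y + 1 / 2) := by
      push_cast
      ring
    rw [e, Complex.sub_im, Complex.im_ofReal_mul, Complex.im_ofReal_mul]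
  have hdd : (2 * (hh (v + 1 / 2) - hh (y + 1 / 2))).im =
      2 * (hh (v + 1 / 2)).im - 2 * (hh (y + 1 / 2)).im := by
    have e : 2 * (hh (v + 1 / 2) - hh (y + 1 / 2)) = ((2 : ℝ) : ℂ) * hh (v + 1 / 2) -
        ((2 : ℝ) : ℂ) * hh (y + 1 / 2) := by
      push_cast
      ring
    rw [e, Complex.sub_im, Complex.im_ofReal_mul, Complex.im_ofReal_mul]
  rw [abs_le] at im1 im3 im4
  refine ⟨?_, ?_, ?_⟩
  · rw [abs_le, hmm]
    constructor <;> linarith
  · rw [abs_le, hdd]
    constructor <;> linarith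
  · have h0 : exp (2 * hh (y + 1 / 2)) ≠ 0 := Complex.exp_ne_zero _
    rw [mul_sub, mul_sub, Complex.exp_sub, Complex.exp_sub, sub_neg_eq_add, eq_div_iff h0, add_mul,
      div_mul_cancel₀ _ h0, hm, he, hd]
    ring

theorem vertex_d (v v' y : ℂ) (h1 : Sl v y) (h2 : Sl v' y)
    (h : 2 * hh (y + 1 / 2) = mm v y + mm v' y) :
    hh (v' + 1 / 2) = hh (v + 1 / 2) + hh (y + 1 / 2) - mm v y := by
  obtain ⟨h1, h2', h3⟩ := vertex_small v y h1
  obtain ⟨-, h2'', h3'⟩ := vertex_small v' y h2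
  obtain ⟨M, hM⟩ : ∃ M, M = 2 * (mm v y - hh (y + 1 / 2)) := ⟨_, rfl⟩
  obtain ⟨D, hD⟩ : ∃ D, D = 2 * (hh (v + 1 / 2) - hh (y + 1 / 2)) := ⟨_, rfl⟩
  obtain ⟨D', hD'⟩ : ∃ D', D' = 2 * (hh (v' + 1 / 2) - hh (y + 1 / 2)) := ⟨_, rfl⟩
  have hM' : 2 * (mm v' y - hh (y + 1 / 2)) = -M := by
    rw [hM]
    linear_combination (-2) * h
  rw [hM', ← hD'] at h3'
  rw [← hM, ← hD] at h3
  rw [← hM] at h1
  rw [← hD] at h2'
  rw [← hD'] at h2''
  have h4 : exp D' = exp (D - M) := by
    rw [Complex.exp_sub, ← h3, ← h3', Complex.exp_neg]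
    have := Complex.exp_ne_zero M
    field_simp
    ring
  have hpi := Real.pi_pos
  have h5 : D' = D - M := by
    apply SlotA_uniq h4
    rw [Complex.sub_im]
    rw [abs_le] at h1 h2' h2''
    rw [abs_lt]
    constructor <;> linarith
  rw [hD', hD, hM] at h5
  linear_combination h5 / 2

theorem vertex_XX (v v' y : ℂ) (h1 : Sl v y) (h2 : Sl v' y)
    (h : 2 * hh (y + 1 / 2) = mm v y + mm v' y) :
    XX v y + XX v' y = -((Real.pi : ℂ) ^ 2 / 6) := by
  have hd := vertex_d v v' y h1 h2 h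
  obtain ⟨h1, -, -⟩ := vertex_small v y h1
  have hM' : 2 * (mm v' y - hh (y + 1 / 2)) = -(2 * (mm v y - hh (y + 1 / 2))) := by
    linear_combination (-2) * h
  obtain ⟨M, hM⟩ : ∃ M, M = 2 * (mm v y - hh (y + 1 / 2)) := ⟨_, rfl⟩
  have hpi := Real.pi_pos
  rw [← hM, abs_le] at h1
  have hlog : Complex.log (exp M) = M :=
    Complex.log_exp (by linarith) (by linarith)
  have h2 : - -exp M ∈ slitPlane := by
    rw [neg_neg, Complex.mem_slitPlane_iff_arg]
    refine ⟨?_, Complex.exp_ne_zero M⟩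
    rw [← Complex.log_im, hlog]
    intro h3
    rw [h3] at h1
    linarith [h1.2]
  have h3 := dilog_inv (-exp M) h2
  rw [neg_neg, hlog] at h3
  have h4 : (-exp M)⁻¹ = -exp (-M) := by
    rw [Complex.exp_neg, inv_neg]
  rw [h4] at h3
  rw [XX, XX, hM', ← hM, hd]
  rw [hM] at h3 ⊢
  linear_combination h3

theorem vertex_hinge (v y z : ℂ) (h : Sl v y)
    (hz : z = -exp (2 * (mm v y - hh (y + 1 / 2)))) (P Q : ℤ)
    (hP : Complex.log z + P * (Real.pi * I) = 2 * (mm v y - hh (y + 1 / 2)))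
    (hQ : -Complex.log (1 - z) + Q * (Real.pi * I) =
      -(2 * (hh (v + 1 / 2) - hh (y + 1 / 2)))) :
    rogers z P Q = XX v y - (Real.pi : ℂ) ^ 2 / 6 := by
  obtain ⟨-, h2, h3⟩ := vertex_small v y h
  have hpi := Real.pi_pos
  rw [abs_le] at h2
  have hlog : Complex.log (1 - z) = 2 * (hh (v + 1 / 2) - hh (y + 1 / 2)) := by
    rw [hz, h3]
    exact Complex.log_exp (by linarith) (by linarith)
  rw [rogers_logs z P Q _ _ hP hQ, hlog, XX, ← hz]
  ring

end Pool.Agent.H63.GV
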