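import Pool.Agent.H63.GO.GGeo
import Pool.Agent.H63.VC4.GeoDefs

/-! # Complex conjugation of the critical point -/

namespace Pool.Agent.H63.GV

open Pool.Agent.H63.VC Pool.Agent.H63.VC3 Pool.Agent.H63.VC4 Pool.Agent.H63.GO Complex Filter
  Topology

theorem hh_conj (z : ℂ) (h0 : 0 < z.re) (h1 : z.re < 1) :
    hh ((starRingEnd ℂ) z) = (starRingEnd ℂ) (hh z) :=
  VC3.hh_conj z h0 h1

theorem ff_conj (z : ℂ) : ff ((starRingEnd ℂ) z) = (starRingEnd ℂ) (ff z) :=
  VC3.ff_conj z

private theorem Conj_cos (v : ℂ) : cos (Real.pi * (-(starRingEnd ℂ) v)) =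
    (starRingEnd ℂ) (cos (Real.pi * v)) := by
  rw [mul_neg, Complex.cos_neg, ← Complex.cos_conj, map_mul, Complex.conj_ofReal]

private theorem Conj_sub (y v : ℂ) : (starRingEnd ℂ) y - -(starRingEnd ℂ) v =
    (starRingEnd ℂ) (y + v) := by
  rw [map_add]; ring

private theorem Conj_add (y v : ℂ) : (starRingEnd ℂ) y + -(starRingEnd ℂ) v =
    (starRingEnd ℂ) (y - v) := by
  rw [map_sub]; ring

private theorem Conj_half (y : ℂ) : (starRingEnd ℂ) y + 1 / 2 = (starRingEnd ℂ) (y + 1 / 2) := by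
  rw [map_add, map_div₀, map_one, map_ofNat]

/-- The equation of a block. -/
private theorem Conj_ev (r : ℤ) (y v : ℂ) (h1 : 0 < (y + v).re) (h2 : (y + v).re < 1)
    (h3 : 0 < (y - v).re) (h4 : (y - v).re < 1)
    (h : 2 * Real.pi * I * (2 * r * v + 1) + hh (y - v) - hh (y + v) = 0) :
    2 * Real.pi * I * (2 * ((-r : ℤ) : ℂ) * (-(starRingEnd ℂ) v) + 1) +
      hh ((starRingEnd ℂ) y - -(starRingEnd ℂ) v) -
      hh ((starRingEnd ℂ) y + -(starRingEnd ℂ) v) = 0 := by
  have h5 := congrArg (starRingEnd ℂ) h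
  simp only [map_add, map_sub, map_mul, map_one, map_zero, map_ofNat, Complex.conj_ofReal,
    Complex.conj_I, map_intCast] at h5
  rw [Conj_sub, Conj_add, hh_conj _ h1 h2, hh_conj _ h3 h4]
  push_cast
  linear_combination -h5

private theorem Conj_v7 (r : ℤ) (v w : ℂ)
    (h : |r| = 2 → (4 * cos (Real.pi * v) ^ 2 - 1) ^ 2 = 1 + r * I * cos (Real.pi * w))
    (h2 : |(-r)| = 2) :
    (4 * cos (Real.pi * (-(starRingEnd ℂ) v)) ^ 2 - 1) ^ 2 =
      1 + ((-r : ℤ) : ℂ) * I * cos (Real.pi * (-(starRingEnd ℂ) w)) := by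
  rw [abs_neg] at h2
  have h5 := congrArg (starRingEnd ℂ) (h h2)
  simp only [map_add, map_sub, map_mul, map_pow, map_one, map_ofNat, Complex.conj_I,
    map_intCast] at h5
  rw [Conj_cos, Conj_cos, h5]
  push_cast
  ring

private theorem Conj_v8 (v : ℂ) : (4 * cos (Real.pi * (-(starRingEnd ℂ) v)) ^ 2 - 1).re =
    (4 * cos (Real.pi * v) ^ 2 - 1).re := by
  have h1 : 4 * cos (Real.pi * (-(starRingEnd ℂ) v)) ^ 2 - 1 =
      (starRingEnd ℂ) (4 * cos (Real.pi * v) ^ 2 - 1) := by
    rw [Conj_cos]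
    simp only [map_sub, map_mul, map_pow, map_one, map_ofNat]
  rw [h1, Complex.conj_re]

private theorem Conj_abs (r : ℤ) : |((-r : ℤ) : ℝ)| = |(r : ℝ)| := by
  rw [Int.cast_neg, abs_neg]

private theorem Conj_re (v : ℂ) : (-(starRingEnd ℂ) v).re = -v.re := by
  rw [Complex.neg_re, Complex.conj_re]

private theorem Conj_im (v : ℂ) : (-(starRingEnd ℂ) v).im = v.im := by
  rw [Complex.neg_im, Complex.conj_im, neg_neg]

theorem critG_conj (r1 r2 : ℤ) (y v w : ℂ) (hc : CritG r1 r2 y v w) :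
    CritG (-r1) (-r2) ((starRingEnd ℂ) y) (-(starRingEnd ℂ) v) (-(starRingEnd ℂ) w) := by
  have hy1 := hc.y1
  have hy2 := hc.y2
  have hv := abs_le.1 (by linarith [hc.v3] : |v.re| ≤ y.re - 1 / 100)
  have hw := abs_le.1 (by linarith [hc.w3] : |w.re| ≤ y.re - 1 / 100)
  have a1 : 0 < (y + v).re := by rw [Complex.add_re]; linarith [hv.1]
  have a2 : (y + v).re < 1 := by rw [Complex.add_re]; linarith [hv.2]
  have a3 : 0 < (y - v).re := by rw [Complex.sub_re]; linarith [hv.2]
  have a4 : (y - v).re < 1 := by rw [Complex.sub_re]; linarith [hv.1]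
  have b1 : 0 < (y + w).re := by rw [Complex.add_re]; linarith [hw.1]
  have b2 : (y + w).re < 1 := by rw [Complex.add_re]; linarith [hw.2]
  have b3 : 0 < (y - w).re := by rw [Complex.sub_re]; linarith [hw.2]
  have b4 : (y - w).re < 1 := by rw [Complex.sub_re]; linarith [hw.1]
  have hh1 : (y + 1 / 2).re = y.re + 1 / 2 := by
    rw [Complex.add_re]
    norm_num
  exact
    { h1 := by rw [abs_neg]; exact hc.h1
      h2 := by rw [abs_neg]; exact hc.h2
      ey := by
        have h5 := congrArg (starRingEnd ℂ) hc.ey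
        simp only [map_add, map_mul, map_ofNat] at h5
        rw [Conj_half, Conj_sub, Conj_add, Conj_sub, Conj_add,
          hh_conj _ (by rw [hh1]; linarith) (by rw [hh1]; linarith), hh_conj _ a1 a2,
          hh_conj _ a3 a4, hh_conj _ b1 b2, hh_conj _ b3 b4]
        linear_combination h5
      ev := Conj_ev r1 y v a1 a2 a3 a4 hc.ev
      ew := Conj_ev r2 y w b1 b2 b3 b4 hc.ew
      y1 := by rw [Complex.conj_re]; exact hy1
      y2 := by rw [Complex.conj_re]; exact hy2
      yi := by rw [Complex.conj_im, abs_neg]; exact hc.yi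
      v1 := by
        have := hc.v1
        rw [Conj_re]
        push_cast
        linarith
      w1 := by
        have := hc.w1
        rw [Conj_re]
        push_cast
        linarith
      v2 := by rw [Conj_re, abs_neg, Conj_abs]; exact hc.v2
      w2 := by rw [Conj_re, abs_neg, Conj_abs]; exact hc.w2
      v3 := by rw [Conj_re, abs_neg, Complex.conj_re]; exact hc.v3
      w3 := by rw [Conj_re, abs_neg, Complex.conj_re]; exact hc.w3
      v4 := by rw [Conj_im]; exact hc.v4
      w4 := by rw [Conj_im]; exact hc.w4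
      v5 := by rw [Conj_im]; exact hc.v5
      w5 := by rw [Conj_im]; exact hc.w5
      v6 := by rw [Conj_cos, Complex.conj_im, abs_neg, Complex.conj_re]; exact hc.v6
      w6 := by rw [Conj_cos, Complex.conj_im, abs_neg, Complex.conj_re]; exact hc.w6
      v7 := Conj_v7 r1 v w hc.v7
      w7 := Conj_v7 r2 w v hc.w7
      v8 := by rw [Conj_v8]; exact hc.v8
      w8 := by rw [Conj_v8]; exact hc.w8 }

theorem Vf_conj (r1 r2 : ℤ) (y v w : ℂ) :
    Vf (-r1) (-r2) ((starRingEnd ℂ) y) (-(starRingEnd ℂ) v) (-(starRingEnd ℂ) w) =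
      (starRingEnd ℂ) (Vf r1 r2 y v w) := by
  unfold Vf
  rw [Conj_half, Conj_sub, Conj_add, Conj_sub, Conj_add, ff_conj, ff_conj, ff_conj, ff_conj,
    ff_conj]
  simp only [map_add, map_sub, map_mul, map_pow, map_ofNat, Complex.conj_ofReal,
    Complex.conj_I, map_intCast]
  push_cast
  ring

/-- The case `r1 > 0`. -/
private theorem Conj_geo (r1 r2 : ℤ) (y v w : ℂ) (h1 : 0 < r1) (hc : CritG r1 r2 y v w) :
    IsGreatest (structureVolumes (conway [r1, r2])) (2 * Real.pi * (Vf r1 r2 y v w).re) := by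
  obtain ⟨p, rfl⟩ := Int.eq_ofNat_of_zero_le h1.le
  have h2 := hc.h2
  rcases le_or_gt 0 r2 with h | h
  · obtain ⟨q, rfl⟩ := Int.eq_ofNat_of_zero_le h
    have hq : 0 < (q : ℤ) := by
      rw [abs_of_nonneg h] at h2
      omega
    have e : conway [(p : ℤ), (q : ℤ)] = [2 * p - 1, 1, 2 * q - 1] := by
      unfold conway conwayAux
      rw [if_pos (mul_pos h1 hq)]
      simp [conwayAux]
    rw [e]
    exact ggeo_same p q y v w hc
  · obtain ⟨q, hq⟩ := Int.eq_ofNat_of_zero_le (by omega : 0 ≤ -r2)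
    obtain rfl : r2 = -(q : ℤ) := by omega
    have e : conway [(p : ℤ), -(q : ℤ)] = [2 * p, 2 * q] := by
      unfold conway conwayAux
      rw [if_neg (not_lt.2 (mul_neg_of_pos_of_neg h1 h).le)]
      simp [conwayAux]
    rw [e]
    exact ggeo_opp p q y v w hc

private theorem Conj_conway (r1 r2 : ℤ) : conway [-r1, -r2] = conway [r1, r2] := by
  unfold conway conwayAux
  rw [neg_mul_neg, Int.natAbs_neg]
  simp only [conwayAux, Int.natAbs_neg]

/-- The critical value is the volume, for all signs. -/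
theorem geo_all (r1 r2 : ℤ) (y v w : ℂ) (hc : CritG r1 r2 y v w) :
    IsGreatest (structureVolumes (conway [r1, r2])) (2 * Real.pi * (Vf r1 r2 y v w).re) := by
  rcases lt_trichotomy r1 0 with h | h | h
  · have h1 := Conj_geo (-r1) (-r2) _ _ _ (by omega) (critG_conj r1 r2 y v w hc)
    rw [Conj_conway, Vf_conj, Complex.conj_re] at h1
    exact h1
  · have h1 := hc.h1
    rw [h] at h1
    norm_num at h1
  · exact Conj_geo r1 r2 y v w h hc

end Pool.Agent.H63.GV
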