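import Pool.Agent.H63.VC5.Defs

/-! # The complex volume of the two-bridge knots of genus one: definitions -/

namespace Pool.Agent.H63.GV

open Pool.Agent.H63.VC Pool.Agent.H63.VC3 Pool.Agent.H63.VC4 Pool.Agent.H63.VC5 Complex
open scoped BigOperators

/-- A half plane. -/
def HS (s : ℝ) (b : ℂ) : Prop := 0 < b.re - s / 3 * b.im

/-- The domain of `Lam`. -/
structure Dm (s : ℝ) (w b : ℂ) : Prop where
  hs : s = 1 ∨ s = -1
  w1 : |w.im| < w.re / 2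
  w2 : w.re < 1 / 2
  b1 : HS s b
  b2 : HS s (1 - w - b)
  b3 : |b.im| < 3 / 10
  b4 : |(w + b).im| < 3 / 10

/-- The region of a slot. -/
structure Sl (v y : ℂ) : Prop where
  v1 : |v.re| < 2 / 7
  v2 : |v.im| ≤ 7 / 100
  y1 : 24 / 100 ≤ y.re
  y2 : y.re ≤ 34 / 100
  y3 : |y.im| ≤ 35 / 1000
  vy : |v.re| + 1 / 100 ≤ y.re

/-- The critical point. -/
structure CritJ (R : ℕ) (r : ℕ → ℤ) (y v : ℕ → ℂ) : Prop where
  hR : 1 ≤ R
  hr : ∀ i ≤ R, 2 ≤ |r i|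
  sl : ∀ j < R, Sl (v j) (y j)
  sr : ∀ j < R, Sl (v (j + 1)) (y j)
  wim : ∀ i ≤ R, |(wI r v i).im| < (wI r v i).re / 2
  wre : ∀ i ≤ R, (wI r v i).re < 1 / 2
  hL : ∀ i ≤ R, 1 ≤ i → HS (sgr (r i)) (bL y v i)
  hR' : ∀ i < R, HS (sgr (r i)) (bR R y v i)
  kim : ∀ i ≤ R, ∀ k ≤ 2 * (r i).natAbs, |((k : ℂ) * wI r v i + bL y v i).im| < 3 / 10
  ey : ∀ j < R, 2 * hh (y j + 1 / 2) = mm (v j) (y j) + mm (v (j + 1)) (y j)
  ev : ∀ i ≤ R, 2 * (r i).natAbs * wI r v i + bL y v i + bR R y v i = 1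
  pos : ∀ i ≤ R, ∀ k ∈ lay R r i, 0 < (zI r y v i k).im

/-- The sequence of a pair. -/
def sq {α : Type} (a b : α) (i : ℕ) : α := if i = 0 then a else b

end Pool.Agent.H63.GV
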