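import Pool.Agent.H63.GV.Slot
import Pool.Agent.H63.VC5.SlotC

/-! # The contribution of a slot -/

namespace Pool.Agent.H63.GV

open Pool.Agent.H63.VC Pool.Agent.H63.VC3 Pool.Agent.H63.VC4 Pool.Agent.H63.VC5 Complex Filter
  Topology
open scoped BigOperators

/-! ### The region -/

private structure SlotL_P (w y : ℂ) : Prop where
  a1 : |w.re| < y.re
  a2 : |w.re| < 3 / 10
  a3 : |w.im| < 8 / 100
  a4 : 23 / 100 < y.re
  a5 : y.re < 35 / 100
  a6 : |y.im| < 4 / 100

private theorem SlotL_half : ((1 : ℂ) / 2).re = 1 / 2 ∧ ((1 : ℂ) / 2).im = 0 := by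
  have e : ((1 : ℂ) / 2) = ((1 / 2 : ℝ) : ℂ) := by push_cast; ring
  rw [e]
  exact ⟨Complex.ofReal_re _, Complex.ofReal_im _⟩

private theorem SlotL_re (w y : ℂ) (hP : SlotL_P w y) :
    (0 < (y - w).re ∧ (y - w).re < 1) ∧ (0 < (y + w).re ∧ (y + w).re < 1) ∧
    (0 < (y + 1 / 2).re ∧ (y + 1 / 2).re < 1) ∧ (0 < (w + 1 / 2).re ∧ (w + 1 / 2).re < 1) ∧
    |w.re| < 3 / 10 ∧ |w.im| < 8 / 100 ∧ |y.im| < 4 / 100 ∧ True := by
  have h1 := abs_lt.1 hP.a1
  have h2 := abs_lt.1 hP.a2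
  have h4 := hP.a4
  have h5 := hP.a5
  simp only [Complex.sub_re, Complex.add_re, SlotL_half.1]
  refine ⟨⟨?_, ?_⟩, ⟨?_, ?_⟩, ⟨?_, ?_⟩, ⟨?_, ?_⟩, hP.a2, hP.a3, hP.a6, trivial⟩
  all_goals linarith [h1.1, h1.2, h2.1, h2.2]

private theorem SlotL_nb (W Y : ℂ → ℂ) (t : ℂ) (hW : ContinuousAt W t) (hY : ContinuousAt Y t)
    (hP : SlotL_P (W t) (Y t)) : ∀ᶠ u in 𝓝 t, SlotL_P (W u) (Y u) := by
  have c1 : ContinuousAt (fun u => (W u).re) t := Complex.continuous_re.continuousAt.comp hW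
  have c2 : ContinuousAt (fun u => (W u).im) t := Complex.continuous_im.continuousAt.comp hW
  have c3 : ContinuousAt (fun u => (Y u).re) t := Complex.continuous_re.continuousAt.comp hY
  have c4 : ContinuousAt (fun u => (Y u).im) t := Complex.continuous_im.continuousAt.comp hY
  have b1 : ∀ᶠ u in 𝓝 t, |(W u).re| < (Y u).re := by
    have := (c3.sub c1.abs).eventually (lt_mem_nhds (sub_pos.2 hP.a1))
    exact this.mono fun u hu => sub_pos.1 hu
  filter_upwards [b1, c1.abs.eventually (gt_mem_nhds hP.a2), c2.abs.eventually (gt_mem_nhds hP.a3),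
    c3.eventually (lt_mem_nhds hP.a4), c3.eventually (gt_mem_nhds hP.a5),
    c4.abs.eventually (gt_mem_nhds hP.a6)] with u u1 u2 u3 u4 u5 u6
  exact ⟨u1, u2, u3, u4, u5, u6⟩

/-- a crude bound -/
private theorem SlotL_crude (z : ℂ) (δ : ℝ) (hδ : 0 < δ) (h0 : δ ≤ z.re) (h1 : z.re ≤ 1 - δ) :
    |(hh z).im| ≤ 1 / (2 * δ) * (Real.pi * |z.im|) := by
  have hpi := Real.pi_pos
  refine (im_hh_le z (hδ.trans_le h0) (by linarith)).trans ?_
  refine mul_le_mul_of_nonneg_right ?_ (by positivity)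
  have hs : 2 * δ ≤ Real.sin (Real.pi * z.re) := by
    rcases le_total z.re (1 / 2) with h | h
    · have := Real.mul_le_sin (x := Real.pi * z.re) (by have := hδ.trans_le h0; positivity) (by nlinarith)
      have e : 2 / Real.pi * (Real.pi * z.re) = 2 * z.re := by field_simp
      rw [e] at this
      linarith
    · have := Real.mul_le_sin (x := Real.pi * (1 - z.re)) (by nlinarith) (by nlinarith)
      have e : 2 / Real.pi * (Real.pi * (1 - z.re)) = 2 * (1 - z.re) := by field_simp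
      have e2 : Real.sin (Real.pi * (1 - z.re)) = Real.sin (Real.pi * z.re) := by
        rw [mul_sub, mul_one, Real.sin_pi_sub]
      rw [e, e2] at this
      linarith
  have hc := Real.abs_cos_le_one (Real.pi * z.re)
  exact div_le_div₀ zero_le_one hc (by positivity) hs

private theorem SlotL_imw (w y : ℂ) (hP : SlotL_P w y) :
    |(2 * hh (w + 1 / 2)).im| ≤ 2 / 5 * Real.pi := by
  have h2 := abs_lt.1 hP.a2
  have h := SlotL_crude (w + 1 / 2) (1 / 5) (by norm_num)
    (by rw [Complex.add_re, SlotL_half.1]; linarith [h2.1])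
    (by rw [Complex.add_re, SlotL_half.1]; linarith [h2.2])
  rw [Complex.add_im, SlotL_half.2, add_zero] at h
  have e : (2 * hh (w + 1 / 2)).im = 2 * (hh (w + 1 / 2)).im := by simp
  rw [e, abs_mul, abs_two]
  have h3 := hP.a3
  nlinarith [Real.pi_pos, abs_nonneg w.im]

private theorem SlotL_imy (w y : ℂ) (hP : SlotL_P w y) :
    |(2 * hh (y + 1 / 2)).im| ≤ 3 / 10 * Real.pi := by
  have h := SlotL_crude (y + 1 / 2) (3 / 20) (by norm_num)
    (by rw [Complex.add_re, SlotL_half.1]; linarith [hP.a4])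
    (by rw [Complex.add_re, SlotL_half.1]; linarith [hP.a5])
  rw [Complex.add_im, SlotL_half.2, add_zero] at h
  have e : (2 * hh (y + 1 / 2)).im = 2 * (hh (y + 1 / 2)).im := by simp
  rw [e, abs_mul, abs_two]
  have h3 := hP.a6
  nlinarith [Real.pi_pos, abs_nonneg y.im]

private theorem SlotL_rel1 (s : ℝ) (hs : s = 1 ∨ s = -1) (w y : ℂ) (hP : SlotL_P w y) :
    exp (hh (w + 1 / 2) - mm w y - s * Real.pi * I / 2 + s * Real.pi * I * y + s * dl w y) +
      exp (-(-(hh (y + 1 / 2) - mm w y - s * Real.pi * I / 2) - Real.pi * I * w - s * dl w y +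
          Real.pi * I)) = 1 := by
  obtain ⟨⟨n0, n1⟩, ⟨p0, p1⟩, ⟨e0, e1⟩, ⟨d0, d1⟩, -⟩ := SlotL_re w y hP
  have hn := hh_exp (y - w) n0 n1
  have hp := hh_exp (y + w) p0 p1
  have he := SlotB_cos y e0 e1
  have hd := SlotB_cos w d0 d1
  rw [mul_sub, Complex.sin_sub] at hn
  rw [mul_add, Complex.sin_add] at hp
  have n3 : exp (hh (y - w)) ≠ 0 := Complex.exp_ne_zero _
  have p3 : exp (hh (y + w)) ≠ 0 := Complex.exp_ne_zero _
  unfold mm dl
  rcases hs with rfl | rfl
  · have x1 : hh (w + 1 / 2) - (hh (y - w) + hh (y + w)) / 2 - (1 : ℝ) * Real.pi * I / 2 +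
        (1 : ℝ) * Real.pi * I * y + (1 : ℝ) * ((hh (y + w) - hh (y - w)) / 2) =
        hh (w + 1 / 2) + (-(Real.pi / 2) * I) + (Real.pi * y) * I - hh (y - w) := by
      push_cast; ring
    have x2 : -(-(hh (y + 1 / 2) - (hh (y - w) + hh (y + w)) / 2 - (1 : ℝ) * Real.pi * I / 2) -
        Real.pi * I * w - (1 : ℝ) * ((hh (y + w) - hh (y - w)) / 2) + Real.pi * I) =
        hh (y + 1 / 2) + (-(Real.pi / 2) * I) + (Real.pi * w) * I + (-(Real.pi * I)) - hh (y - w) := by
      push_cast; ring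
    rw [x1, x2]
    simp only [Complex.exp_sub, Complex.exp_add]
    rw [SlotB_exp_half, SlotB_exp_pi, Complex.exp_mul_I, Complex.exp_mul_I, he, hd]
    rw [← add_div, div_eq_one_iff_eq n3, hn]
    linear_combination (2 * sin (Real.pi * w) * cos (Real.pi * y) -
      2 * cos (Real.pi * w) * sin (Real.pi * y)) * I_sq
  · have x1 : hh (w + 1 / 2) - (hh (y - w) + hh (y + w)) / 2 - (-1 : ℝ) * Real.pi * I / 2 +
        (-1 : ℝ) * Real.pi * I * y + (-1 : ℝ) * ((hh (y + w) - hh (y - w)) / 2) =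
        hh (w + 1 / 2) + ((Real.pi / 2) * I) + -(Real.pi * y) * I - hh (y + w) := by
      push_cast; ring
    have x2 : -(-(hh (y + 1 / 2) - (hh (y - w) + hh (y + w)) / 2 - (-1 : ℝ) * Real.pi * I / 2) -
        Real.pi * I * w - (-1 : ℝ) * ((hh (y + w) - hh (y - w)) / 2) + Real.pi * I) =
        hh (y + 1 / 2) + ((Real.pi / 2) * I) + (Real.pi * w) * I + (-(Real.pi * I)) - hh (y + w) := by
      push_cast; ring
    rw [x1, x2]
    simp only [Complex.exp_sub, Complex.exp_add]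
    rw [SlotB_exp_half', SlotB_exp_pi, Complex.exp_mul_I, Complex.exp_mul_I, he, hd, Complex.cos_neg,
      Complex.sin_neg]
    rw [← add_div, div_eq_one_iff_eq p3, hp]
    linear_combination (-2 * sin (Real.pi * w) * cos (Real.pi * y) -
      2 * cos (Real.pi * w) * sin (Real.pi * y)) * I_sq

private theorem SlotL_rel2 (s : ℝ) (hs : s = 1 ∨ s = -1) (w y : ℂ) (hP : SlotL_P w y) :
    exp (hh (w + 1 / 2) - hh (y + 1 / 2) + s * Real.pi * I * y + Real.pi * I * w) +
      exp (-(hh (y + 1 / 2) - mm w y - s * Real.pi * I / 2 - Real.pi * I * w - s * dl w y +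
          Real.pi * I)) = 1 := by
  obtain ⟨⟨n0, n1⟩, ⟨p0, p1⟩, ⟨e0, e1⟩, ⟨d0, d1⟩, -⟩ := SlotL_re w y hP
  have hn := hh_exp (y - w) n0 n1
  have hp := hh_exp (y + w) p0 p1
  have he := SlotB_cos y e0 e1
  have hd := SlotB_cos w d0 d1
  rw [mul_sub, Complex.sin_sub] at hn
  rw [mul_add, Complex.sin_add] at hp
  have e3 : exp (hh (y + 1 / 2)) ≠ 0 := Complex.exp_ne_zero _
  have hcs := Complex.sin_sq_add_cos_sq (Real.pi * w)
  unfold mm dl
  rcases hs with rfl | rfl
  · have x1 : hh (w + 1 / 2) - hh (y + 1 / 2) + (1 : ℝ) * Real.pi * I * y + Real.pi * I * w =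
        hh (w + 1 / 2) + (Real.pi * y) * I + (Real.pi * w) * I - hh (y + 1 / 2) := by
      push_cast; ring
    have x2 : -(hh (y + 1 / 2) - (hh (y - w) + hh (y + w)) / 2 - (1 : ℝ) * Real.pi * I / 2 -
        Real.pi * I * w - (1 : ℝ) * ((hh (y + w) - hh (y - w)) / 2) + Real.pi * I) =
        hh (y + w) + ((Real.pi / 2) * I) + (Real.pi * w) * I + (-(Real.pi * I)) - hh (y + 1 / 2) := by
      push_cast; ring
    rw [x1, x2]
    simp only [Complex.exp_sub, Complex.exp_add]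
    rw [SlotB_exp_half', SlotB_exp_pi, Complex.exp_mul_I, Complex.exp_mul_I]
    rw [← add_div, div_eq_one_iff_eq e3, he, hp, hd]
    linear_combination (2 * cos (Real.pi * y)) * hcs - (2 * cos (Real.pi * y) * sin (Real.pi * w) ^ 2) * I_sq
  · have x1 : hh (w + 1 / 2) - hh (y + 1 / 2) + (-1 : ℝ) * Real.pi * I * y + Real.pi * I * w =
        hh (w + 1 / 2) + -(Real.pi * y) * I + (Real.pi * w) * I - hh (y + 1 / 2) := by
      push_cast; ring
    have x2 : -(hh (y + 1 / 2) - (hh (y - w) + hh (y + w)) / 2 - (-1 : ℝ) * Real.pi * I / 2 -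
        Real.pi * I * w - (-1 : ℝ) * ((hh (y + w) - hh (y - w)) / 2) + Real.pi * I) =
        hh (y - w) + (-(Real.pi / 2) * I) + (Real.pi * w) * I + (-(Real.pi * I)) - hh (y + 1 / 2) := by
      push_cast; ring
    rw [x1, x2]
    simp only [Complex.exp_sub, Complex.exp_add]
    rw [SlotB_exp_half, SlotB_exp_pi, Complex.exp_mul_I, Complex.exp_mul_I, Complex.cos_neg,
      Complex.sin_neg]
    rw [← add_div, div_eq_one_iff_eq e3, he, hn, hd]
    linear_combination (2 * cos (Real.pi * y)) * hcs - (2 * cos (Real.pi * y) * sin (Real.pi * w) ^ 2) * I_sq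

private theorem SlotL_U (w y : ℂ) (hP : SlotL_P w y) :
    1 - -exp (2 * (mm w y - hh (y + 1 / 2))) = exp (2 * (hh (w + 1 / 2) - hh (y + 1 / 2))) ∧
    1 - -exp (2 * (mm w y - hh (y + 1 / 2))) ∈ slitPlane ∧
    Complex.log (1 - -exp (2 * (mm w y - hh (y + 1 / 2)))) = 2 * (hh (w + 1 / 2) - hh (y + 1 / 2)) := by
  obtain ⟨⟨n0, n1⟩, ⟨p0, p1⟩, ⟨e0, e1⟩, ⟨d0, d1⟩, wr, yr, wi, yi⟩ := SlotL_re w y hP
  have hn := hh_exp (y - w) n0 n1
  have hp := hh_exp (y + w) p0 p1
  have he := SlotB_cos y e0 e1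
  have hd := SlotB_cos w d0 d1
  rw [mul_sub, Complex.sin_sub] at hn
  rw [mul_add, Complex.sin_add] at hp
  have e3 : exp (hh (y + 1 / 2)) ≠ 0 := Complex.exp_ne_zero _
  have main : 1 - -exp (2 * (mm w y - hh (y + 1 / 2))) =
      exp (2 * (hh (w + 1 / 2) - hh (y + 1 / 2))) := by
    have x1 : 2 * (mm w y - hh (y + 1 / 2)) =
        hh (y - w) + hh (y + w) - (hh (y + 1 / 2) + hh (y + 1 / 2)) := by
      unfold mm; ring
    have x2 : 2 * (hh (w + 1 / 2) - hh (y + 1 / 2)) =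
        hh (w + 1 / 2) + hh (w + 1 / 2) - (hh (y + 1 / 2) + hh (y + 1 / 2)) := by ring
    rw [x1, x2]
    simp only [Complex.exp_sub, Complex.exp_add]
    rw [sub_neg_eq_add, eq_div_iff (mul_ne_zero e3 e3), add_mul, one_mul,
      div_mul_cancel₀ _ (mul_ne_zero e3 e3), he, hp, hn, hd]
    have s1 := Complex.sin_sq_add_cos_sq (Real.pi * w)
    have s2 := Complex.sin_sq_add_cos_sq (Real.pi * y)
    linear_combination (4 * cos (Real.pi * w) ^ 2) * s2 - (4 * cos (Real.pi * y) ^ 2) * s1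
  have i1 := SlotL_imw w y hP
  have i2 := SlotL_imy w y hP
  have i3 : |(2 * (hh (w + 1 / 2) - hh (y + 1 / 2))).im| < Real.pi := by
    rw [mul_sub, Complex.sub_im]
    refine (abs_sub _ _).trans_lt ?_
    linarith [Real.pi_pos]
  rw [abs_lt] at i3
  refine ⟨main, ?_, ?_⟩
  · rw [main, Complex.mem_slitPlane_iff_arg]
    refine ⟨?_, Complex.exp_ne_zero _⟩
    have hl := Complex.log_exp i3.1 i3.2.le
    have h9 : (exp (2 * (hh (w + 1 / 2) - hh (y + 1 / 2)))).arg =
        (2 * (hh (w + 1 / 2) - hh (y + 1 / 2))).im := by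
      rw [← Complex.log_im, hl]
    rw [h9]
    exact i3.2.ne
  · rw [main, Complex.log_exp i3.1 i3.2.le]

private theorem SlotL_im (w y : ℂ) (hP : SlotL_P w y) (s : ℝ)
    (hs : s = 1 ∨ s = -1) :
    |(hh (w + 1 / 2) - mm w y - s * Real.pi * I / 2 + s * Real.pi * I * y + s * dl w y).im| <
        2 * Real.pi ∧
    |(hh (w + 1 / 2) - hh (y + 1 / 2) + s * Real.pi * I * y + Real.pi * I * w).im| <
        2 * Real.pi := by
  obtain ⟨⟨n0, n1⟩, ⟨p0, p1⟩, ⟨e0, e1⟩, ⟨d0, d1⟩, wr, yr, wi, yi⟩ := SlotL_re w y hP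
  have key : ∀ z : ℂ, 0 < z.re → z.re < 1 → |(hh z).im| < Real.pi / 2 := by
    intro z h0 h1
    unfold hh
    rw [Complex.log_im]
    exact Complex.abs_arg_lt_pi_div_two_iff.2 (Or.inl (Clausen_sin_re z h0 h1))
  have kn := abs_lt.1 (key _ n0 n1)
  have kp := abs_lt.1 (key _ p0 p1)
  have ke := abs_lt.1 (key _ e0 e1)
  have kd := abs_lt.1 (key _ d0 d1)
  have hwr := abs_lt.1 hP.a2
  have hyr : 23 / 100 < y.re ∧ y.re < 35 / 100 := ⟨hP.a4, hP.a5⟩
  have hpi0 := Real.pi_pos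
  have q1 : ∀ (c : ℝ) (z : ℂ), (c * Real.pi * I * z).im = c * Real.pi * z.re := by
    intro c z
    simp
  have q2 : (Real.pi * I * w).im = Real.pi * w.re := by simp
  have q3 : ∀ c : ℝ, (c * Real.pi * I / 2).im = c * Real.pi / 2 := by
    intro c
    have : (c * Real.pi * I / 2 : ℂ) = ((c * Real.pi / 2 : ℝ) : ℂ) * I := by push_cast; ring
    rw [this]; simp
  constructor
  · rcases hs with rfl | rfl
    · have x1 : hh (w + 1 / 2) - mm w y - (1 : ℝ) * Real.pi * I / 2 + (1 : ℝ) * Real.pi * I * y +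
          (1 : ℝ) * dl w y = hh (w + 1 / 2) - hh (y - w) - (1 : ℝ) * Real.pi * I / 2 +
            (1 : ℝ) * Real.pi * I * y := by
        unfold mm dl; push_cast; ring
      rw [x1, Complex.add_im, Complex.sub_im, Complex.sub_im, q1, q3, abs_lt]
      constructor <;> nlinarith [kn.1, kn.2, kd.1, kd.2, hyr.1, hyr.2]
    · have x1 : hh (w + 1 / 2) - mm w y - (-1 : ℝ) * Real.pi * I / 2 + (-1 : ℝ) * Real.pi * I * y +
          (-1 : ℝ) * dl w y = hh (w + 1 / 2) - hh (y + w) - (-1 : ℝ) * Real.pi * I / 2 +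
            (-1 : ℝ) * Real.pi * I * y := by
        unfold mm dl; push_cast; ring
      rw [x1, Complex.add_im, Complex.sub_im, Complex.sub_im, q1, q3, abs_lt]
      constructor <;> nlinarith [kp.1, kp.2, kd.1, kd.2, hyr.1, hyr.2]
  · rw [Complex.add_im, Complex.add_im, Complex.sub_im, q1, q2, abs_lt]
    rcases hs with rfl | rfl
    · constructor <;> nlinarith [ke.1, ke.2, kd.1, kd.2, hyr.1, hyr.2, hwr.1, hwr.2]
    · constructor <;> nlinarith [ke.1, ke.2, kd.1, kd.2, hyr.1, hyr.2, hwr.1, hwr.2]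

private theorem SlotL_deriv (s : ℝ) (hs : s = 1 ∨ s = -1) (W Y : ℂ → ℂ) (W' Y' t : ℂ)
    (hW : HasDerivAt W W' t) (hY : HasDerivAt Y Y' t) (hP : SlotL_P (W t) (Y t)) :
    HasDerivAt (fun u => SlotB_F s (W u) (Y u)) 0 t := by
  obtain ⟨⟨n0, n1⟩, ⟨p0, p1⟩, ⟨e0, e1⟩, ⟨d0, d1⟩, -⟩ := SlotL_re (W t) (Y t) hP
  have nb : ∀ᶠ u in 𝓝 t, SlotL_P (W u) (Y u) := SlotL_nb W Y t hW.continuousAt hY.continuousAt hP
  obtain ⟨n', hn⟩ : ∃ n', HasDerivAt (fun u => hh (Y u - W u)) n' t :=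
    SlotB_hh (fun u => Y u - W u) _ t (hY.sub hW) n0 n1
  obtain ⟨p', hp⟩ : ∃ p', HasDerivAt (fun u => hh (Y u + W u)) p' t :=
    SlotB_hh (fun u => Y u + W u) _ t (hY.add hW) p0 p1
  obtain ⟨e', he⟩ : ∃ e', HasDerivAt (fun u => hh (Y u + 1 / 2)) e' t :=
    SlotB_hh (fun u => Y u + 1 / 2) _ t (hY.add_const _) e0 e1
  obtain ⟨d', hd⟩ : ∃ d', HasDerivAt (fun u => hh (W u + 1 / 2)) d' t :=
    SlotB_hh (fun u => W u + 1 / 2) _ t (hW.add_const _) d0 d1
  have fn : HasDerivAt (fun u => ff (Y u - W u)) (hh (Y t - W t) * (Y' - W')) t :=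
    SlotB_ff (fun u => Y u - W u) _ t (hY.sub hW) n0 n1
  have fp : HasDerivAt (fun u => ff (Y u + W u)) (hh (Y t + W t) * (Y' + W')) t :=
    SlotB_ff (fun u => Y u + W u) _ t (hY.add hW) p0 p1
  have fe : HasDerivAt (fun u => ff (Y u + 1 / 2)) (hh (Y t + 1 / 2) * Y') t :=
    SlotB_ff (fun u => Y u + 1 / 2) _ t (hY.add_const _) e0 e1
  have hm : HasDerivAt (fun u => mm (W u) (Y u)) ((n' + p') / 2) t := (hn.add hp).div_const 2
  have hδ : HasDerivAt (fun u => dl (W u) (Y u)) ((p' - n') / 2) t := (hp.sub hn).div_const 2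
  -- the Rogers pairs
  have hA : HasDerivAt (fun u => hh (W u + 1 / 2) - mm (W u) (Y u) - s * Real.pi * I / 2 +
      s * Real.pi * I * Y u + s * dl (W u) (Y u))
      (d' - (n' + p') / 2 + s * Real.pi * I * Y' + s * ((p' - n') / 2)) t :=
    (((hd.sub hm).sub_const _).add (hY.const_mul _)).add (hδ.const_mul _)
  have hB : HasDerivAt (fun u => -(hh (Y u + 1 / 2) - mm (W u) (Y u) - s * Real.pi * I / 2) -
      Real.pi * I * W u - s * dl (W u) (Y u) + Real.pi * I)
      (-(e' - (n' + p') / 2) - Real.pi * I * W' - s * ((p' - n') / 2)) t :=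
    ((((he.sub hm).sub_const _).neg.sub (hW.const_mul _)).sub (hδ.const_mul _)).add_const _
  have hC : HasDerivAt (fun u => hh (W u + 1 / 2) - hh (Y u + 1 / 2) + s * Real.pi * I * Y u +
      Real.pi * I * W u) (d' - e' + s * Real.pi * I * Y' + Real.pi * I * W') t :=
    ((hd.sub he).add (hY.const_mul _)).add (hW.const_mul _)
  have hD : HasDerivAt (fun u => hh (Y u + 1 / 2) - mm (W u) (Y u) - s * Real.pi * I / 2 -
      Real.pi * I * W u - s * dl (W u) (Y u) + Real.pi * I)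
      (e' - (n' + p') / 2 - Real.pi * I * W' - s * ((p' - n') / 2)) t :=
    ((((he.sub hm).sub_const _).sub (hW.const_mul _)).sub (hδ.const_mul _)).add_const _
  have im := SlotL_im (W t) (Y t) hP s hs
  have R1 := RG_hasDerivAt _ _ _ _ t hA hB
    (nb.mono fun u hu => SlotL_rel1 s hs (W u) (Y u) hu) im.1
  have R2 := RG_hasDerivAt _ _ _ _ t hC hD
    (nb.mono fun u hu => SlotL_rel2 s hs (W u) (Y u) hu) im.2
  -- the dilogarithm
  have hme : HasDerivAt (fun u => 2 * (mm (W u) (Y u) - hh (Y u + 1 / 2)))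
      (2 * ((n' + p') / 2 - e')) t := (hm.sub he).const_mul 2
  have hU : HasDerivAt (fun u => -exp (2 * (mm (W u) (Y u) - hh (Y u + 1 / 2))))
      (-(exp (2 * (mm (W t) (Y t) - hh (Y t + 1 / 2))) * (2 * ((n' + p') / 2 - e')))) t :=
    hme.cexp.neg
  obtain ⟨u1, u2, u3⟩ := SlotL_U (W t) (Y t) hP
  have hne : exp (2 * (mm (W t) (Y t) - hh (Y t + 1 / 2))) ≠ 0 := Complex.exp_ne_zero _
  have hdil : HasDerivAt (fun u => dilog (-exp (2 * (mm (W u) (Y u) - hh (Y u + 1 / 2)))))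
      (-(2 * (hh (W t + 1 / 2) - hh (Y t + 1 / 2))) * (2 * ((n' + p') / 2 - e'))) t := by
    have h1 := (dilog_hasDerivAt (-exp (2 * (mm (W t) (Y t) - hh (Y t + 1 / 2))))
      (neg_ne_zero.2 hne) u2).comp t hU
    rw [u3] at h1
    refine h1.congr_deriv ?_
    field_simp
  have hXX : HasDerivAt (fun u => XX (W u) (Y u))
      (-(2 * (hh (W t + 1 / 2) - hh (Y t + 1 / 2))) * (2 * ((n' + p') / 2 - e')) +
        (2 * ((n' + p') / 2 - e') * (hh (W t + 1 / 2) - hh (Y t + 1 / 2)) +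
          2 * (mm (W t) (Y t) - hh (Y t + 1 / 2)) * (d' - e'))) t :=
    hdil.add (hme.mul (hd.sub he))
  -- assembly
  have hL : HasDerivAt (fun u => LamT s (W u) (Y u)) _ t :=
    (((R1.neg.add R2).add ((hW.const_mul ((Real.pi : ℂ) ^ 2 / 2)).add
      (hδ.const_mul (Real.pi * I / 2 * s)))).add
      (((he.sub hm).sub_const (s * Real.pi * I / 2)).const_mul (Real.pi * I / 2))).add_const
      ((Real.pi : ℂ) ^ 2 / 6)
  have hR := ((((((fn.add fp).const_mul (2 * Real.pi * I)).neg.add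
    (fe.const_mul (4 * Real.pi * I))).add
    (((((hY.const_mul 2).mul (hm.sub he)).add ((hW.const_mul 2).mul hδ)).sub hd).add he |>.const_mul
      (Real.pi * I))).const_mul (s : ℂ)).add (hY.const_mul ((Real.pi : ℂ) ^ 2))).sub hXX
  have hF := (hL.const_mul 2).sub hR
  refine HasDerivAt.congr_deriv (f := fun u => SlotB_F s (W u) (Y u)) hF ?_
  have z1 : mm (W t) (Y t) = (hh (Y t - W t) + hh (Y t + W t)) / 2 := rfl
  have z2 : dl (W t) (Y t) = (hh (Y t + W t) - hh (Y t - W t)) / 2 := rfl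
  simp only [Pi.sub_apply, z1, z2]
  generalize hh (Y t - W t) = n
  generalize hh (Y t + W t) = p
  generalize hh (Y t + 1 / 2) = e
  generalize hh (W t + 1 / 2) = d
  rcases hs with rfl | rfl
  · push_cast
    ring_nf
    simp only [I_sq]
    ring
  · push_cast
    ring_nf
    simp only [I_sq]
    ring

theorem slot_comp (s : ℝ) (hs : s = 1 ∨ s = -1) (w y : ℂ) (h : Sl w y) :
    2 * LamT s w y =
      s * (-(2 * Real.pi * I * (ff (y - w) + ff (y + w))) + 4 * Real.pi * I * ff (y + 1 / 2) +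
        Real.pi * I * (2 * y * (mm w y - hh (y + 1 / 2)) + 2 * w * dl w y - hh (w + 1 / 2) +
          hh (y + 1 / 2))) + (Real.pi : ℂ) ^ 2 * y - XX w y := by
  have hq : ((1 : ℂ) / 4).re = 1 / 4 ∧ ((1 : ℂ) / 4).im = 0 := by
    have e : ((1 : ℂ) / 4) = ((1 / 4 : ℝ) : ℂ) := by push_cast; ring
    rw [e]
    exact ⟨Complex.ofReal_re _, Complex.ofReal_im _⟩
  have key : ∀ t ∈ (fun b : ℝ => (b : ℂ)) '' Set.Icc (0 : ℝ) 1,
      HasDerivAt (fun u => SlotB_F s (u * w) (1 / 4 + u * (y - 1 / 4))) 0 t := by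
    rintro t ⟨b, ⟨hb0, hb1⟩, rfl⟩
    refine SlotL_deriv s hs (fun u => u * w) (fun u => 1 / 4 + u * (y - 1 / 4)) w (y - 1 / 4) b
      ?_ ?_ ?_
    · simpa using (hasDerivAt_id (b : ℂ)).mul_const w
    · simpa using ((hasDerivAt_id (b : ℂ)).mul_const (y - 1 / 4)).const_add (1 / 4)
    · have e1 : ((b : ℂ) * w).re = b * w.re := by simp
      have e2 : ((b : ℂ) * w).im = b * w.im := by simp
      have e3 : (1 / 4 + (b : ℂ) * (y - 1 / 4)).re = 1 / 4 + b * (y.re - 1 / 4) := by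
        rw [Complex.add_re, Complex.re_ofReal_mul, Complex.sub_re, hq.1]
      have e4 : (1 / 4 + (b : ℂ) * (y - 1 / 4)).im = b * y.im := by
        rw [Complex.add_im, Complex.im_ofReal_mul, Complex.sub_im, hq.2]
        ring
      have g1 := h.v1
      have g2 := h.v2
      have g3 := h.y1
      have g4 := h.y2
      have g5 := h.y3
      have g6 := h.vy
      have m1 : b * |w.re| ≤ b * (y.re - 1 / 100) := mul_le_mul_of_nonneg_left (by linarith) hb0
      have m2 : b * |w.re| ≤ |w.re| := mul_le_of_le_one_left (abs_nonneg _) hb1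
      have m3 : b * |w.im| ≤ |w.im| := mul_le_of_le_one_left (abs_nonneg _) hb1
      have m4 : b * |y.im| ≤ |y.im| := mul_le_of_le_one_left (abs_nonneg _) hb1
      refine ⟨?_, ?_, ?_, ?_, ?_, ?_⟩
      · simp only [e1, e3, abs_mul, abs_of_nonneg hb0]
        nlinarith
      · simp only [e1, abs_mul, abs_of_nonneg hb0]
        linarith
      · simp only [e2, abs_mul, abs_of_nonneg hb0]
        linarith
      · simp only [e3]
        nlinarith
      · simp only [e3]
        nlinarith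
      · simp only [e4, abs_mul, abs_of_nonneg hb0]
        linarith
  have hconv : Convex ℝ ((fun b : ℝ => (b : ℂ)) '' Set.Icc (0 : ℝ) 1) := by
    have := (convex_Icc (0 : ℝ) 1).linear_image Complex.ofRealCLM.toLinearMap
    exact this
  have h0 := hconv.norm_image_sub_le_of_norm_hasDerivWithin_le
    (f := fun u => SlotB_F s (u * w) (1 / 4 + u * (y - 1 / 4))) (f' := fun _ => 0) (C := 0)
    (fun t ht => (key t ht).hasDerivWithinAt) (fun _ _ => by simp)
    (x := 0) (y := 1) ⟨0, ⟨le_refl _, zero_le_one⟩, Complex.ofReal_zero⟩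
    ⟨1, ⟨zero_le_one, le_refl _⟩, Complex.ofReal_one⟩
  simp only [zero_mul, add_zero, one_mul, add_sub_cancel] at h0
  rw [SlotB_const s hs, sub_zero] at h0
  have h2 : SlotB_F s w y = 0 := norm_le_zero_iff.1 h0
  unfold SlotB_F at h2
  exact sub_eq_zero.1 h2

theorem slot_lam (s : ℝ) (v y b : ℂ) (h : Sl v y)
    (hb : b = bet v (some y) / (2 * Real.pi)) (hd : Dm s (s * v) b) :
    s * (2 * Lam (s * v) b) + Real.pi * I * (hh (s * v + b) - hh (s * v)) =
      SlotT s v y - Real.pi * v * bet v (some y) := by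
  have h0 := slot_h0 s v y b h hb hd
  have h1 := slot_h1 s v y b h hb hd
  have hpb := SlotC_bet v y b hb
  have hbet : Real.pi * v * bet v (some y) = -(2 * Real.pi * I * v * dl v y) := by
    unfold bet dl
    ring
  have hI : I * I = -1 := Complex.I_mul_I
  have hds : (s : ℂ) * dl (s * v) y = dl v y := by
    rcases hd.hs with rfl | rfl
    · simp
    · push_cast
      rw [neg_one_mul, neg_one_mul, SlotC_dl, neg_neg]
  have hms : mm (s * v) y = mm v y := by
    rcases hd.hs with rfl | rfl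
    · simp
    · push_cast
      rw [neg_one_mul, SlotC_mm]
  have hhs : hh (s * v + 1 / 2) = hh (v + 1 / 2) := by
    rcases hd.hs with rfl | rfl
    · simp
    · push_cast
      rw [neg_one_mul, SlotC_hh]
  have hss : (s : ℂ) * s = 1 := by
    rcases hd.hs with rfl | rfl
    · simp
    · push_cast; ring
  have hsv : Sl ((s : ℂ) * v) y := by
    rcases hd.hs with rfl | rfl
    · simpa using h
    · have e1 : (((-1 : ℝ) : ℂ) * v).re = -v.re := by simp
      have e2 : (((-1 : ℝ) : ℂ) * v).im = -v.im := by simp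
      exact ⟨by rw [e1, abs_neg]; exact h.v1, by rw [e2, abs_neg]; exact h.v2, h.y1, h.y2, h.y3, by rw [e1, abs_neg]; exact h.vy⟩
  have hXX : XX (s * v) y = XX v y := by
    unfold XX
    rw [hms, hhs]
  have hLT : Lam (s * v) b = LamT s (s * v) y := by
    unfold Lam LamT
    have e1 : hh (s * v + b) - hh (s * v) + Real.pi * I * b =
        hh (s * v + 1 / 2) - mm (s * v) y - s * Real.pi * I / 2 + s * Real.pi * I * y +
          s * dl (s * v) y := by
      rw [h1, hpb, hds, hms, hhs]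
    have e2 : hh (s * v + b) - hh b + Real.pi * I * (s * v) =
        hh (s * v + 1 / 2) - hh (y + 1 / 2) + s * Real.pi * I * y + Real.pi * I * (s * v) := by
      rw [hhs]
      linear_combination h1 - h0
    rw [e1, e2]
    have e3 : hh b - hh (s * v) = hh (y + 1 / 2) - mm (s * v) y - s * Real.pi * I / 2 := by
      rw [hms]; exact h0
    rw [e3]
    have e4 : (Real.pi : ℂ) * I * b = s * dl (s * v) y := by rw [hds, hpb]
    have e5 : (Real.pi : ℂ) ^ 2 / 2 * (s * v - b) =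
        (Real.pi : ℂ) ^ 2 / 2 * (s * v) + Real.pi * I / 2 * s * dl (s * v) y := by
      linear_combination (Real.pi * I / 2) * e4 - ((Real.pi : ℂ) ^ 2 / 2 * b) * hI
    rw [e5]
    have e6 : -(hh (y + 1 / 2) - mm (s * v) y - s * Real.pi * I / 2) -
        Real.pi * I * (s * v + b) + Real.pi * I =
        -(hh (y + 1 / 2) - mm (s * v) y - s * Real.pi * I / 2) -
        Real.pi * I * (s * v) - s * dl (s * v) y + Real.pi * I := by
      linear_combination -e4
    have e7 : hh (y + 1 / 2) - mm (s * v) y - s * Real.pi * I / 2 -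
        Real.pi * I * (s * v + b) + Real.pi * I =
        hh (y + 1 / 2) - mm (s * v) y - s * Real.pi * I / 2 -
        Real.pi * I * (s * v) - s * dl (s * v) y + Real.pi * I := by
      linear_combination -e4
    rw [e6, e7]
  have hc := slot_comp s hd.hs (s * v) y hsv
  have hff : ff (y - s * v) + ff (y + s * v) = ff (y - v) + ff (y + v) := by
    rcases hd.hs with rfl | rfl
    · simp
    · push_cast
      rw [neg_one_mul, sub_neg_eq_add, ← sub_eq_add_neg, add_comm]
  have hvd : s * v * dl (s * v) y = v * dl v y := by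
    linear_combination v * hds
  rw [hff, hms, hhs, hXX] at hc
  rw [hLT, hbet, h1, hc]
  unfold SlotT
  linear_combination (-(2 * Real.pi * I * (ff (y - v) + ff (y + v))) +
    4 * Real.pi * I * ff (y + 1 / 2) + Real.pi * I * (2 * y * (mm v y - hh (y + 1 / 2)) +
      2 * (v * dl v y) - hh (v + 1 / 2) + hh (y + 1 / 2))) * hss +
    (s * s * (Real.pi * I) * 2) * hvd + (s * (Real.pi : ℂ) ^ 2 * (y - 1 / 2)) * hI

end Pool.Agent.H63.GV
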