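import Pool.Agent.H63.GV.Compat

/-! # The shapes -/

namespace Pool.Agent.H63.GV

open Pool.Agent.H63.VC Pool.Agent.H63.VC3 Pool.Agent.H63.VC4 Pool.Agent.H63.VC5 Complex Filter
  Topology
open scoped BigOperators

/-- The shapes in terms of the logarithms. -/
theorem shape_eq (r : ℕ → ℤ) (y v : ℕ → ℂ) (i k : ℕ) :
    zI r y v i k = (-1) ^ (k + 1) *
      exp (2 * lgL r (LP y v) (lam r y v) i k - 2 * lgR r (LP y v) (lam r y v) i k) := by
  unfold zI lgL lgR lam sgr
  by_cases hr : r i < 0
  · rw [if_pos hr, if_pos hr, if_pos hr]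
    by_cases hk : Even k
    · rw [if_pos hk, if_pos hr, (Even.add_one hk).neg_one_pow]
      have h1 : 2 * LP y v i - 2 * (LP y v i + hkI r y v i k - hh (wI r v i) +
          ((1 : ℝ) : ℂ) * (Real.pi * I) / 2) =
          2 * (hh (wI r v i) - hkI r y v i k) - Real.pi * I := by push_cast; ring
      rw [h1, Complex.exp_sub, Complex.exp_pi_mul_I]
      ring
    · rw [if_neg hk, (Nat.not_even_iff_odd.mp hk).add_one.neg_one_pow]
      rw [one_mul]
      congr 1
      ring
  · rw [if_neg hr, if_neg hr, if_neg hr]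
    by_cases hk : Even k
    · rw [if_pos hk, if_neg hr, (Even.add_one hk).neg_one_pow]
      have h1 : 2 * (LP y v i + hkI r y v i k - hh (wI r v i) +
          ((-1 : ℝ) : ℂ) * (Real.pi * I) / 2) - 2 * LP y v i =
          -(2 * (hh (wI r v i) - hkI r y v i k)) - Real.pi * I := by push_cast; ring
      rw [h1, Complex.exp_sub, Complex.exp_pi_mul_I]
      ring
    · rw [if_neg hk, if_neg hr, (Nat.not_even_iff_odd.mp hk).add_one.neg_one_pow]
      rw [one_mul]
      congr 1
      ring

theorem Shapes_w (R : ℕ) (r : ℕ → ℤ) (y v : ℕ → ℂ) (hc : CritJ R r y v) (i : ℕ)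
    (hi : i ≤ R) : exp (hh (wI r v i)) = 2 * sin (Real.pi * wI r v i) := by
  have h10 : 2 ≤ (r i).natAbs := by
    have := hc.hr i hi
    rw [Int.abs_eq_natAbs] at this
    omega
  have hd := loc_Dm R r y v hc i 1 hi (by omega) (by intro; omega) (by intro; omega)
  have hs := hd.hs
  have w1 := hd.w1
  have w2 := hd.w2
  have hw := HS_w _ hs _ w1
  refine hhx_exp _ hs _ hw ?_ ?_
  · unfold HS
    simp only [Complex.sub_re, Complex.one_re, Complex.sub_im, Complex.one_im]
    have h1 := abs_lt.mp w1
    rcases hs with hs | hs <;> rw [hs] <;> nlinarith [h1.1, h1.2]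
  · linarith [hd.w2]

theorem Shapes_sin (A a : ℂ) : sin A ^ 2 - sin (A - a) * sin (A + a) = sin a ^ 2 := by
  rw [Complex.sin_sub, Complex.sin_add]
  have h1 := Complex.sin_sq_add_cos_sq A
  have h2 := Complex.sin_sq_add_cos_sq a
  linear_combination (sin a ^ 2) * h1 + (-sin A ^ 2) * h2

theorem Shapes_fan (R : ℕ) (r : ℕ → ℤ) (y v : ℕ → ℂ) (hc : CritJ R r y v) (i k : ℕ)
    (hi : i ≤ R) (hk1 : 1 ≤ k) (hk : k + 1 ≤ 2 * (r i).natAbs) (h0 : i = 0 → 2 ≤ k)
    (h1 : i = R → k + 2 ≤ 2 * (r i).natAbs) :
    exp (hkI r y v i (k - 1) + hkI r y v i (k + 1) - 2 * hkI r y v i k) =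
      1 - exp (2 * (hh (wI r v i) - hkI r y v i k)) := by
  obtain ⟨m, rfl⟩ : ∃ m, k = m + 1 := ⟨k - 1, by omega⟩
  rw [Nat.add_sub_cancel]
  obtain ⟨a1, a2, a3⟩ := loc_k R r y v hc i m hi (by omega) (by intro h; have := h0 h; omega)
    (by intro h; have := h1 h; omega)
  obtain ⟨b1, b2, b3⟩ := loc_k R r y v hc i (m + 1) hi (by omega) (by intro h; omega)
    (by intro h; have := h1 h; omega)
  obtain ⟨c1, c2, c3⟩ := loc_k R r y v hc i (m + 1 + 1) hi (by omega) (by intro h; omega)
    (by intro h; have := h1 h; omega)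
  have e1 := hhx_exp _ (loc_sgr (r i)) _ a1 a2 a3
  have e2 := hhx_exp _ (loc_sgr (r i)) _ b1 b2 b3
  have e3 := hhx_exp _ (loc_sgr (r i)) _ c1 c2 c3
  have e4 := Shapes_w R r y v hc i hi
  unfold hkI
  have hne : exp (hh (((m + 1 : ℕ) : ℂ) * wI r v i + bL y v i)) ≠ 0 := Complex.exp_ne_zero _
  have hne2 : sin (Real.pi * (((m + 1 : ℕ) : ℂ) * wI r v i + bL y v i)) ≠ 0 := by
    intro h
    rw [e2, h] at hne
    simp at hne
  have hA := Shapes_sin (Real.pi * (((m + 1 : ℕ) : ℂ) * wI r v i + bL y v i))
    (Real.pi * wI r v i)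
  have hm : (Real.pi : ℂ) * (((m + 1 : ℕ) : ℂ) * wI r v i + bL y v i) - Real.pi * wI r v i =
      Real.pi * ((m : ℂ) * wI r v i + bL y v i) := by push_cast; ring
  have hp : (Real.pi : ℂ) * (((m + 1 : ℕ) : ℂ) * wI r v i + bL y v i) + Real.pi * wI r v i =
      Real.pi * (((m + 1 + 1 : ℕ) : ℂ) * wI r v i + bL y v i) := by push_cast; ring
  rw [hm, hp] at hA
  rw [Complex.exp_sub, Complex.exp_add, e1, e3]
  rw [show (2 : ℂ) * (hh (wI r v i) - hh (((m + 1 : ℕ) : ℂ) * wI r v i + bL y v i)) =
    2 * hh (wI r v i) - 2 * hh (((m + 1 : ℕ) : ℂ) * wI r v i + bL y v i) by ring]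
  rw [Complex.exp_sub]
  rw [show (2 : ℂ) * hh (wI r v i) = hh (wI r v i) + hh (wI r v i) by ring,
    show (2 : ℂ) * hh (((m + 1 : ℕ) : ℂ) * wI r v i + bL y v i) =
      hh (((m + 1 : ℕ) : ℂ) * wI r v i + bL y v i) +
        hh (((m + 1 : ℕ) : ℂ) * wI r v i + bL y v i) by ring]
  rw [Complex.exp_add, Complex.exp_add, e2, e4]
  generalize sin (Real.pi * (((m + 1 : ℕ) : ℂ) * wI r v i + bL y v i)) = S1 at hA hne2 ⊢
  generalize sin (Real.pi * ((m : ℂ) * wI r v i + bL y v i)) = S0 at hA ⊢
  generalize sin (Real.pi * (((m + 1 + 1 : ℕ) : ℂ) * wI r v i + bL y v i)) = S2 at hA ⊢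
  generalize sin (Real.pi * wI r v i) = S at hA ⊢
  field_simp
  linear_combination (-1 : ℂ) * hA

/-- The Ptolemy relations. -/
theorem ptolemy_eq (R : ℕ) (r : ℕ → ℤ) (y v : ℕ → ℂ) (hc : CritJ R r y v) (i k : ℕ)
    (hi : i ≤ R) (hk : k ∈ lay R r i) :
    exp (-(2 * lgR r (LP y v) (lam r y v) i k - lam r y v i (k - 1) - lgN r (lam r y v) i k)) =
      1 - zI r y v i k ∨
    exp (-(2 * lgR r (LP y v) (lam r y v) i k - lam r y v i (k - 1) - lgN r (lam r y v) i k)) =
      -(1 - zI r y v i k) := by
  have h10 : 2 ≤ (r i).natAbs := by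
    have := hc.hr i hi
    rw [Int.abs_eq_natAbs] at this
    omega
  unfold lay at hk
  rw [Finset.mem_Icc] at hk
  obtain ⟨hk1, hk2⟩ := hk
  have hkpos : 1 ≤ k := by
    split_ifs at hk1 <;> omega
  by_cases hk3 : k = 2 * (r i).natAbs
  · -- the hinge
    have hiR : i ≠ R := by
      intro h
      rw [if_pos h] at hk2
      omega
    rw [if_neg hiR] at hk2
    have hopp : r i * r (i + 1) < 0 := by
      by_contra h
      rw [if_neg h] at hk2
      omega
    have hiR' : i < R := lt_of_le_of_ne hi hiR
    have h10' : 2 ≤ (r (i + 1)).natAbs := by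
      have := hc.hr (i + 1) hiR'
      rw [Int.abs_eq_natAbs] at this
      omega
    have hodd : ¬ Even (k - 1) := by
      rw [hk3]
      intro h
      obtain ⟨c, hcc⟩ := h
      omega
    have hev : Even k := ⟨(r i).natAbs, by omega⟩
    -- the right slot
    have hDR := loc_DmR R r y v hc i hiR'
    have hbR : bR R y v i = bet (v i) (some (y i)) / (2 * Real.pi) := by
      unfold bR
      rw [if_neg hiR]
    have hSl := hc.sl i hiR'
    have hSr := hc.sr i hiR'
    have h1R := slot_h1 (sgr (r i)) (v i) (y i) (bR R y v i) hSl hbR hDR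
    have h0R := slot_h0 (sgr (r i)) (v i) (y i) (bR R y v i) hSl hbR hDR
    -- the left slot of the next region
    have hDL := loc_Dm R r y v hc (i + 1) 0 hiR' (by omega) (by intro h; omega)
      (by intro h; omega)
    rw [Nat.cast_zero, zero_mul, zero_add] at hDL
    have hbL : bL y v (i + 1) = bet (v (i + 1)) (some (y i)) / (2 * Real.pi) := by
      unfold bL
      rw [if_neg (Nat.succ_ne_zero i), Nat.add_sub_cancel]
    have h1L := slot_h1 (sgr (r (i + 1))) (v (i + 1)) (y i) (bL y v (i + 1)) hSr hbL hDL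
    have hev0 := hc.ev i hi
    have hw2 : hkI r y v i k = hh (bR R y v i) := by
      unfold hkI
      rw [← hhx_refl (bR R y v i)]
      congr 1
      rw [hk3]
      push_cast
      linear_combination hev0
    have hw1 : hkI r y v i (k - 1) = hh (sgr (r i) * v i + bR R y v i) := by
      unfold hkI
      rw [← hhx_refl (sgr (r i) * v i + bR R y v i)]
      congr 1
      rw [hk3, Nat.cast_sub (by omega)]
      push_cast
      unfold wI at hev0 ⊢
      linear_combination hev0
    have hw3 : hkI r y v (i + 1) 1 = hh (sgr (r (i + 1)) * v (i + 1) + bL y v (i + 1)) := by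
      unfold hkI wI
      rw [Nat.cast_one, one_mul]
    have hey := hc.ey i hiR'
    have hvd := vertex_d (v i) (v (i + 1)) (y i) hSl hSr hey
    obtain ⟨-, -, hvs⟩ := vertex_small (v i) (y i) hSl
    have hLP : LP y v (i + 1) = LP y v i + (hh (y i + 1 / 2) - mm (v i) (y i)) := rfl
    have hN : lgN r (lam r y v) i k = lam r y v (i + 1) 1 := by
      unfold lgN
      rw [if_pos hk3]
    have hl1 : lam r y v i (k - 1) = LP y v i + (hh (v i + 1 / 2) - mm (v i) (y i) -
        sgr (r i) * Real.pi * I / 2 + sgr (r i) * Real.pi * I * y i) := by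
      unfold lam
      rw [if_neg hodd, hw1]
      unfold wI
      linear_combination h1R
    have hl2 : lam r y v (i + 1) 1 = LP y v (i + 1) + (hh (v (i + 1) + 1 / 2) -
        mm (v (i + 1)) (y i) - sgr (r (i + 1)) * Real.pi * I / 2 +
        sgr (r (i + 1)) * Real.pi * I * y i) := by
      unfold lam
      rw [if_neg (by decide), hw3]
      unfold wI
      linear_combination h1L
    have hhk : hkI r y v i k - hh (wI r v i) = hh (y i + 1 / 2) - mm (v i) (y i) -
        sgr (r i) * Real.pi * I / 2 := by
      rw [hw2]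
      unfold wI
      exact h0R
    left
    rw [hN, hl1, hl2]
    by_cases hr : r i < 0
    · have hr' : ¬ r (i + 1) < 0 := by
        intro h
        nlinarith
      have hs : sgr (r i) = 1 := by unfold sgr; rw [if_pos hr]
      have hs' : sgr (r (i + 1)) = -1 := by unfold sgr; rw [if_neg hr']
      have hR1 : lgR r (LP y v) (lam r y v) i k = LP y v (i + 1) := by
        unfold lgR
        rw [if_pos hr, hk3]
        exact compat_right R r y v hc i hiR'
      have hz : zI r y v i k = -exp (2 * (mm (v i) (y i) - hh (y i + 1 / 2))) := by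
        unfold zI
        rw [if_pos hr]
        rw [hs] at hhk
        rw [show 2 * (hh (wI r v i) - hkI r y v i k) =
          2 * (mm (v i) (y i) - hh (y i + 1 / 2)) + Real.pi * I by
            push_cast at hhk
            linear_combination (-2 : ℂ) * hhk]
        rw [Complex.exp_add, Complex.exp_pi_mul_I]
        ring
      rw [hR1, hz, hvs, hs, hs']
      congr 1
      push_cast
      rw [hvd, hLP]
      linear_combination hey
    · have hr' : r (i + 1) < 0 := by
        by_contra h
        push Not at h hr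
        nlinarith
      have hs : sgr (r i) = -1 := by unfold sgr; rw [if_neg hr]
      have hs' : sgr (r (i + 1)) = 1 := by unfold sgr; rw [if_pos hr']
      have hR1 : lgR r (LP y v) (lam r y v) i k = LP y v i := by
        unfold lgR
        rw [if_neg hr]
      have hz : zI r y v i k = -exp (2 * (hh (y i + 1 / 2) - mm (v i) (y i))) := by
        unfold zI
        rw [if_neg hr]
        rw [hs] at hhk
        rw [show -(2 * (hh (wI r v i) - hkI r y v i k)) =
          2 * (hh (y i + 1 / 2) - mm (v i) (y i)) + Real.pi * I by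
            push_cast at hhk
            linear_combination (2 : ℂ) * hhk]
        rw [Complex.exp_add, Complex.exp_pi_mul_I]
        ring
      have hkey : 1 - -exp (2 * (hh (y i + 1 / 2) - mm (v i) (y i))) =
          exp (2 * (hh (v i + 1 / 2) - mm (v i) (y i))) := by
        have e1 : exp (2 * (hh (v i + 1 / 2) - mm (v i) (y i))) =
            exp (2 * (hh (v i + 1 / 2) - hh (y i + 1 / 2))) *
              exp (2 * (hh (y i + 1 / 2) - mm (v i) (y i))) := by
          rw [← Complex.exp_add]
          congr 1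
          ring
        rw [e1, ← hvs]
        have e2 : exp (2 * (mm (v i) (y i) - hh (y i + 1 / 2))) *
            exp (2 * (hh (y i + 1 / 2) - mm (v i) (y i))) = 1 := by
          rw [← Complex.exp_add, ← Complex.exp_zero]
          congr 1
          ring
        linear_combination (-1 : ℂ) * e2
      rw [hR1, hz, hkey, hs, hs']
      congr 1
      push_cast
      rw [hvd, hLP]
      linear_combination hey
  · -- inside the fan
    have hkle : k + 1 ≤ 2 * (r i).natAbs := by
      split_ifs at hk2 <;> omega
    have h0 : i = 0 → 2 ≤ k := by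
      intro h
      rw [if_pos h] at hk1
      exact hk1
    have h1 : i = R → k + 2 ≤ 2 * (r i).natAbs := by
      intro h
      rw [if_pos h] at hk2
      omega
    have hf := Shapes_fan R r y v hc i k hi hkpos hkle h0 h1
    have hN : lgN r (lam r y v) i k = lam r y v i (k + 1) := by
      unfold lgN
      rw [if_neg hk3]
    rw [hN]
    obtain ⟨m, rfl⟩ : ∃ m, k = m + 1 := ⟨k - 1, by omega⟩
    rw [Nat.add_sub_cancel] at hf ⊢
    have hpi : ∀ s : ℝ, s = 1 ∨ s = -1 → exp ((s : ℂ) * (Real.pi * I)) = -1 := by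
      intro s hs
      rcases hs with hs | hs
      · rw [hs, Complex.ofReal_one, one_mul, Complex.exp_pi_mul_I]
      · rw [hs, Complex.ofReal_neg, Complex.ofReal_one, neg_one_mul, Complex.exp_neg,
          Complex.exp_pi_mul_I]
        norm_num
    have hpi' := hpi _ (loc_sgr (r i))
    have hpi2 : exp (-((sgr (r i) : ℂ) * (Real.pi * I))) = -1 := by
      rw [Complex.exp_neg, hpi']
      norm_num
    by_cases hr : r i < 0
    · right
      have hz : zI r y v i (m + 1) = exp (2 * (hh (wI r v i) - hkI r y v i (m + 1))) := by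
        unfold zI
        rw [if_pos hr]
      have hR1 : lgR r (LP y v) (lam r y v) i (m + 1) = lam r y v i (m + 1) := by
        unfold lgR
        rw [if_pos hr]
      rw [hR1, hz, ← hf]
      unfold lam
      by_cases he : Even m
      · have he1 : ¬ Even (m + 1) := by
          rw [Nat.even_add_one]; exact not_not.mpr he
        have he2 : Even (m + 1 + 1) := by
          rw [Nat.even_add_one]; exact he1
        rw [if_pos he, if_neg he1, if_pos he2]
        rw [show -(2 * (LP y v i + hkI r y v i (m + 1) - hh (wI r v i) + 0) -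
            (LP y v i + hkI r y v i m - hh (wI r v i) + (sgr (r i) : ℂ) * (Real.pi * I) / 2) -
            (LP y v i + hkI r y v i (m + 1 + 1) - hh (wI r v i) +
              (sgr (r i) : ℂ) * (Real.pi * I) / 2)) =
            (hkI r y v i m + hkI r y v i (m + 1 + 1) - 2 * hkI r y v i (m + 1)) +
              (sgr (r i) : ℂ) * (Real.pi * I) by ring]
        rw [Complex.exp_add, hpi']
        ring
      · have he1 : Even (m + 1) := by
          rw [Nat.even_add_one]; exact he
        have he2 : ¬ Even (m + 1 + 1) := by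
          rw [Nat.even_add_one]; exact not_not.mpr he1
        rw [if_neg he, if_pos he1, if_neg he2]
        rw [show -(2 * (LP y v i + hkI r y v i (m + 1) - hh (wI r v i) +
              (sgr (r i) : ℂ) * (Real.pi * I) / 2) -
            (LP y v i + hkI r y v i m - hh (wI r v i) + 0) -
            (LP y v i + hkI r y v i (m + 1 + 1) - hh (wI r v i) + 0)) =
            (hkI r y v i m + hkI r y v i (m + 1 + 1) - 2 * hkI r y v i (m + 1)) +
              -((sgr (r i) : ℂ) * (Real.pi * I)) by ring]
        rw [Complex.exp_add, hpi2]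
        ring
    · have hz : zI r y v i (m + 1) = exp (-(2 * (hh (wI r v i) - hkI r y v i (m + 1)))) := by
        unfold zI
        rw [if_neg hr]
      have hR1 : lgR r (LP y v) (lam r y v) i (m + 1) = LP y v i := by
        unfold lgR
        rw [if_neg hr]
      have hg : exp (hkI r y v i m + hkI r y v i (m + 1 + 1) - 2 * hh (wI r v i)) =
          -(1 - exp (-(2 * (hh (wI r v i) - hkI r y v i (m + 1))))) := by
        have e1 : exp (hkI r y v i m + hkI r y v i (m + 1 + 1) - 2 * hh (wI r v i)) =
            exp (hkI r y v i m + hkI r y v i (m + 1 + 1) - 2 * hkI r y v i (m + 1)) *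
              exp (-(2 * (hh (wI r v i) - hkI r y v i (m + 1)))) := by
          rw [← Complex.exp_add]
          congr 1
          ring
        have e2 : exp (2 * (hh (wI r v i) - hkI r y v i (m + 1))) *
            exp (-(2 * (hh (wI r v i) - hkI r y v i (m + 1)))) = 1 := by
          rw [← Complex.exp_add, ← Complex.exp_zero]
          congr 1
          ring
        rw [e1, hf]
        linear_combination (-1 : ℂ) * e2
      rw [hR1, hz]
      unfold lam
      by_cases he : Even m
      · left
        have he1 : ¬ Even (m + 1) := by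
          rw [Nat.even_add_one]; exact not_not.mpr he
        have he2 : Even (m + 1 + 1) := by
          rw [Nat.even_add_one]; exact he1
        rw [if_pos he, if_pos he2]
        rw [show -(2 * LP y v i -
            (LP y v i + hkI r y v i m - hh (wI r v i) + (sgr (r i) : ℂ) * (Real.pi * I) / 2) -
            (LP y v i + hkI r y v i (m + 1 + 1) - hh (wI r v i) +
              (sgr (r i) : ℂ) * (Real.pi * I) / 2)) =
            (hkI r y v i m + hkI r y v i (m + 1 + 1) - 2 * hh (wI r v i)) +
              (sgr (r i) : ℂ) * (Real.pi * I) by ring]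
        rw [Complex.exp_add, hpi', hg]
        ring
      · right
        have he1 : Even (m + 1) := by
          rw [Nat.even_add_one]; exact he
        have he2 : ¬ Even (m + 1 + 1) := by
          rw [Nat.even_add_one]; exact not_not.mpr he1
        rw [if_neg he, if_neg he2]
        rw [show -(2 * LP y v i -
            (LP y v i + hkI r y v i m - hh (wI r v i) + 0) -
            (LP y v i + hkI r y v i (m + 1 + 1) - hh (wI r v i) + 0)) =
            hkI r y v i m + hkI r y v i (m + 1 + 1) - 2 * hh (wI r v i) by ring]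
        rw [hg]

/-- The flattenings of the layers. -/
theorem flat_exists (R : ℕ) (r : ℕ → ℤ) (y v : ℕ → ℂ) (hc : CritJ R r y v) (i k : ℕ)
    (hi : i ≤ R) (hk : k ∈ lay R r i) : ∃ P Q : ℤ,
    Complex.log (zI r y v i k) + P * (Real.pi * I) =
      2 * lgL r (LP y v) (lam r y v) i k - 2 * lgR r (LP y v) (lam r y v) i k ∧
    -Complex.log (1 - zI r y v i k) + Q * (Real.pi * I) =
      2 * lgR r (LP y v) (lam r y v) i k - lam r y v i (k - 1) - lgN r (lam r y v) i k := by
  have hpos := hc.pos i hi k hk
  have hz0 : zI r y v i k ≠ 0 := by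
    intro h
    rw [h] at hpos
    simp at hpos
  have hz1 : 1 - zI r y v i k ≠ 0 := by
    intro h
    have h2 : zI r y v i k = 1 := (sub_eq_zero.mp h).symm
    rw [h2] at hpos
    simp at hpos
  have hs := shape_eq r y v i k
  have hP : exp (2 * lgL r (LP y v) (lam r y v) i k - 2 * lgR r (LP y v) (lam r y v) i k) =
      zI r y v i k ∨
      exp (2 * lgL r (LP y v) (lam r y v) i k - 2 * lgR r (LP y v) (lam r y v) i k) =
      -zI r y v i k := by
    rcases neg_one_pow_eq_or ℂ (k + 1) with h | h
    · left
      rw [hs, h, one_mul]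
    · right
      rw [hs, h]
      ring
  obtain ⟨P, hP'⟩ := exists_flat _ _ hz0 hP
  obtain ⟨Q, hQ'⟩ := exists_flat _ _ hz1 (ptolemy_eq R r y v hc i k hi hk)
  refine ⟨P, -Q, hP', ?_⟩
  push_cast
  linear_combination (-1 : ℂ) * hQ'

end Pool.Agent.H63.GV
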