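import Pool.Agent.H63.GV.LocG
import Pool.Agent.H63.GV.SumCV
import Pool.Agent.H63.VC5.ChainCV
import Pool.Agent.H63.VC5.ConstCV

/-! # The complex volume of the two-bridge knots of genus one -/

namespace Pool.Agent.H63.GV

open Pool.Agent.H63.VC Pool.Agent.H63.VC3 Pool.Agent.H63.VC4 Pool.Agent.H63.VC5 Pool.Agent.H63.GO
  Complex Filter Topology
open scoped BigOperators

/-- The complex volume is the critical value of the potential function. -/
theorem cv_critJ (G : ℕ) (r : ℕ → ℤ) (y v : ℕ → ℂ) (hc : CritJ (2 * G + 1) r y v) :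
    ∃ Z : ℂ, IsComplexVolume (conway ((List.range (2 * G + 2)).map r)) (decide (r 0 < 0)) Z ∧
      Cg Z (2 * Real.pi * I * VI (2 * G + 1) r y v) := by
  have hr : ∀ i, i < 2 * G + 2 → 2 ≤ (r i).natAbs := fun i hi => by
    have := hc.hr i (by omega)
    rw [Int.abs_eq_natAbs] at this
    omega
  -- the flattenings
  have hflat : ∀ i k, ∃ P Q : ℤ, i ≤ 2 * G + 1 → k ∈ lay (2 * G + 1) r i →
      Complex.log (zI r y v i k) + P * (Real.pi * I) =
        2 * lgL r (LP y v) (lam r y v) i k - 2 * lgR r (LP y v) (lam r y v) i k ∧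
      -Complex.log (1 - zI r y v i k) + Q * (Real.pi * I) =
        2 * lgR r (LP y v) (lam r y v) i k - lam r y v i (k - 1) -
          lgN r (lam r y v) i k := by
    intro i k
    by_cases h : i ≤ 2 * G + 1 ∧ k ∈ lay (2 * G + 1) r i
    · obtain ⟨P, Q, h1, h2⟩ := flat_exists (2 * G + 1) r y v hc i k h.1 h.2
      exact ⟨P, Q, fun _ _ => ⟨h1, h2⟩⟩
    · exact ⟨0, 0, fun h1 h2 => absurd ⟨h1, h2⟩ h⟩
  choose P Q hPQ using hflat
  obtain ⟨Z, hZ, hZ'⟩ := chain_cv r G hr (LP y v) (lam r y v) (zI r y v) P Q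
    (compat_first (2 * G + 1) r y v) (compat_last (2 * G + 1) r y v hc)
    (fun i hi => compat_left (2 * G + 1) r y v hc i hi)
    (fun i hi => compat_right (2 * G + 1) r y v hc i hi)
    (fun i hi hs => compat_same (2 * G + 1) r y v hc i hi hs)
    (fun i k hi hk => ⟨hc.pos i hi k hk, shape_eq r y v i k⟩)
    (fun i k hi hk => (hPQ i k hi hk).1) (fun i k hi hk => (hPQ i k hi hk).2)
  refine ⟨Z, hZ, hZ'.trans ?_⟩
  have hs := sum_cv (2 * G + 1) r y v hc P Q (fun i hi k hk => (hPQ i k hi hk).1)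
    (fun i hi k hk => (hPQ i k hi hk).2)
  obtain ⟨n, hn⟩ := const_int G r (fun i hi => hr i (by omega))
  have e : (∑ i ∈ Finset.range (2 * G + 2), ∑ k ∈ lay (2 * G + 1) r i,
      (2 * rogers (zI r y v i k) (P i k) (Q i k) + (Real.pi : ℂ) ^ 2 * tt r i k)) =
      (∑ i ∈ Finset.range (2 * G + 2), ∑ k ∈ lay (2 * G + 1) r i,
        2 * rogers (zI r y v i k) (P i k) (Q i k)) +
      (Real.pi : ℂ) ^ 2 * ∑ i ∈ Finset.range (2 * G + 2), ∑ k ∈ lay (2 * G + 1) r i,
        tt r i k := by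
    rw [Finset.mul_sum, ← Finset.sum_add_distrib]
    refine Finset.sum_congr rfl fun i _ => ?_
    rw [Finset.mul_sum, ← Finset.sum_add_distrib]
  rw [e]
  have h1 := hs.add (Cg.refl ((Real.pi : ℂ) ^ 2 * ∑ i ∈ Finset.range (2 * G + 2),
    ∑ k ∈ lay (2 * G + 1) r i, tt r i k))
  refine h1.trans ⟨n, ?_⟩
  rw [← hn]
  ring

/-- The complex volume at the critical point `CritG`. -/
theorem cv_critG (r1 r2 : ℤ) (y v w : ℂ) (hc : CritG r1 r2 y v w)
    (hv : Blk r1 v (cos (Real.pi * w))) (hw : Blk r2 w (cos (Real.pi * v))) :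
    ∃ Z : ℂ, IsComplexVolume (conway [r1, r2]) (decide (r1 < 0)) Z ∧
      Cg Z (2 * Real.pi * I * Vf r1 r2 y v w) := by
  obtain ⟨Z, hZ, hZ'⟩ := cv_critJ 0 (sq r1 r2) (fun _ => y) (sq v w)
    (critJ_of r1 r2 y v w hc hv hw)
  have e : (List.range (2 * 0 + 2)).map (sq r1 r2) = [r1, r2] := by
    simp [List.range_succ, sq]
  rw [e] at hZ
  rw [show (2 * 0 + 1 : ℕ) = 1 from rfl, VI_sq] at hZ'
  exact ⟨Z, hZ, hZ'⟩

end Pool.Agent.H63.GV
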