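import Pool.Agent.H63.GV.Defs
import Pool.Agent.H63.VC3.Clausen

/-! # The logarithm of the sine on the extended strip -/

namespace Pool.Agent.H63.GV

open Pool.Agent.H63.VC Pool.Agent.H63.VC3 Pool.Agent.H63.VC4 Pool.Agent.H63.VC5 Complex Filter
  Topology
open scoped BigOperators

lemma HHx_re (z : ℂ) : (sin (Real.pi * z)).re =
    Real.sin (Real.pi * z.re) * Real.cosh (Real.pi * z.im) := by
  rw [Complex.sin_eq]
  have h1 : ((Real.pi : ℂ) * z).re = Real.pi * z.re := by simp
  have h2 : ((Real.pi : ℂ) * z).im = Real.pi * z.im := by simp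
  rw [h1, h2]
  rw [← Complex.ofReal_sin, ← Complex.ofReal_cos, ← Complex.ofReal_sinh, ← Complex.ofReal_cosh]
  simp only [Complex.add_re, Complex.add_im, Complex.mul_re, Complex.mul_im, Complex.ofReal_re,
    Complex.ofReal_im, Complex.I_re, Complex.I_im]
  ring

lemma HHx_im (z : ℂ) : (sin (Real.pi * z)).im =
    Real.cos (Real.pi * z.re) * Real.sinh (Real.pi * z.im) := by
  rw [Complex.sin_eq]
  have h1 : ((Real.pi : ℂ) * z).re = Real.pi * z.re := by simp
  have h2 : ((Real.pi : ℂ) * z).im = Real.pi * z.im := by simp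
  rw [h1, h2]
  rw [← Complex.ofReal_sin, ← Complex.ofReal_cos, ← Complex.ofReal_sinh, ← Complex.ofReal_cosh]
  simp only [Complex.add_re, Complex.add_im, Complex.mul_re, Complex.mul_im, Complex.ofReal_re,
    Complex.ofReal_im, Complex.I_re, Complex.I_im]
  ring

lemma HHx_re2 (z : ℂ) : (2 * sin (Real.pi * z)).re =
    2 * (Real.sin (Real.pi * z.re) * Real.cosh (Real.pi * z.im)) := by
  rw [← HHx_re]
  simp

lemma HHx_im2 (z : ℂ) : (2 * sin (Real.pi * z)).im =
    2 * (Real.cos (Real.pi * z.re) * Real.sinh (Real.pi * z.im)) := by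
  rw [← HHx_im]
  simp

lemma HHx_sin_refl (z : ℂ) : sin (Real.pi * (1 - z)) = sin (Real.pi * z) := by
  rw [mul_sub, mul_one, Complex.sin_pi_sub]

/-- A number with small real part has an argument close to `π/2`. -/
lemma HHx_arg (Z : ℂ) (hZ : Z ≠ 0) (h : -(Z.re) ≤ 55 / 100 * |Z.im|) :
    |arg Z| ≤ 69 / 100 * Real.pi := by
  have hpi := Real.pi_gt_d2
  have hpi2 := Real.pi_lt_d2
  have hn : 0 < ‖Z‖ := norm_pos_iff.mpr hZ
  have hcos : -(55 / 100 : ℝ) ≤ Real.cos |arg Z| := by
    rw [Real.cos_abs, Complex.cos_arg hZ, le_div_iff₀ hn]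
    have h1 : |Z.im| ≤ ‖Z‖ := Complex.abs_im_le_norm Z
    linarith
  by_contra hc
  push Not at hc
  have h1 : Real.cos |arg Z| < Real.cos (69 / 100 * Real.pi) :=
    Real.strictAntiOn_cos ⟨by positivity, by nlinarith⟩
      ⟨abs_nonneg _, Complex.abs_arg_le_pi Z⟩ hc
  have h2 : Real.cos (69 / 100 * Real.pi) = - Real.sin (19 / 100 * Real.pi) := by
    rw [← Real.cos_add_pi_div_two]
    congr 1
    ring
  have h3 := Real.sin_gt_sub_cube (x := 19 / 100 * Real.pi) (by positivity)
  have h4 : (19 / 100 * Real.pi) ^ 3 / 6 ≤ 4 / 100 := by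
    have h5 : (19 / 100 * Real.pi) ^ 3 ≤ (6 / 10) ^ 3 :=
      pow_le_pow_left₀ (by positivity) (by linarith) 3
    norm_num at h5 ⊢
    linarith
  linarith

/-- The hyperbolic estimate. -/
lemma HHx_cosh (t : ℝ) (h0 : 0 ≤ t) (h1 : t ≤ 9425 / 10000) :
    t * Real.cosh t ≤ 156 / 100 * Real.sinh t := by
  have h2 := Real.self_le_sinh_iff.2 h0
  have h3 := Real.cosh_le_exp_half_sq t
  have h4 : Real.exp (t ^ 2 / 2) ≤ 156 / 100 := by
    have h5 : t ^ 2 / 2 ≤ 4442 / 10000 := by nlinarith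
    have h6 : Real.exp (t ^ 2 / 2) ≤ Real.exp (4442 / 10000) := Real.exp_le_exp.2 h5
    have h7 : Real.exp (4442 / 10000 : ℝ) ≤ 156 / 100 := by
      have h8 := Real.exp_bound' (x := 4442 / 10000) (by norm_num) (by norm_num) (n := 5)
        (by norm_num)
      refine h8.trans ?_
      norm_num [Finset.sum_range_succ, Nat.factorial]
    linarith
  have h5 : 0 < Real.cosh t := Real.cosh_pos t
  calc t * Real.cosh t ≤ Real.sinh t * Real.cosh t := mul_le_mul_of_nonneg_right h2 h5.le
    _ ≤ Real.sinh t * (156 / 100) :=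
      mul_le_mul_of_nonneg_left (h3.trans h4) (Real.sinh_nonneg_iff.2 h0)
    _ = 156 / 100 * Real.sinh t := by ring

/-- Left part of the extended strip. -/
lemma HHx_left (s : ℝ) (hs : s = 1 ∨ s = -1) (z : ℂ) (h1 : HS s z)
    (h3 : |z.im| < 3 / 10) (hx : z.re ≤ 0) : (2 * sin (Real.pi * z)).im ≠ 0 ∧
      |(2 * sin (Real.pi * z)).re| ≤ 55 / 100 * |(2 * sin (Real.pi * z)).im| := by
  have hpi := Real.pi_gt_d4
  have hpi2 := Real.pi_lt_d4
  unfold HS at h1
  have hxy : |z.re| ≤ |z.im| / 3 ∧ 0 < |z.im| := by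
    have h4 : |z.re| = - z.re := abs_of_nonpos hx
    rw [h4]
    rcases hs with rfl | rfl
    · have h5 : z.im < 0 := by linarith
      rw [abs_of_neg h5]
      constructor <;> linarith
    · have h5 : 0 < z.im := by linarith
      rw [abs_of_pos h5]
      constructor <;> linarith
  obtain ⟨hxy, hy⟩ := hxy
  have hx2 : |z.re| ≤ 1 / 10 := by linarith
  have habs1 : |Real.pi * z.re| = Real.pi * |z.re| := by
    rw [abs_mul, abs_of_pos Real.pi_pos]
  have habs2 : |Real.pi * z.im| = Real.pi * |z.im| := by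
    rw [abs_mul, abs_of_pos Real.pi_pos]
  have hcos : 95 / 100 ≤ Real.cos (Real.pi * z.re) := by
    have h5 := Real.one_sub_sq_div_two_le_cos (x := Real.pi * z.re)
    have h6 : (Real.pi * z.re) ^ 2 ≤ (315 / 1000) ^ 2 := by
      rw [← sq_abs, habs1]
      refine pow_le_pow_left₀ (by positivity) ?_ 2
      nlinarith
    norm_num at h6
    linarith
  have hsin : |Real.sin (Real.pi * z.re)| ≤ Real.pi * |z.im| / 3 := by
    have h5 : |Real.sin (Real.pi * z.re)| ≤ |Real.pi * z.re| := Real.abs_sin_le_abs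
    rw [habs1] at h5
    have h6 : Real.pi * |z.re| ≤ Real.pi * (|z.im| / 3) :=
      mul_le_mul_of_nonneg_left hxy Real.pi_pos.le
    linarith
  have hsinh : |Real.sinh (Real.pi * z.im)| = Real.sinh (Real.pi * |z.im|) := by
    rw [← habs2, Real.abs_sinh]
  have hcosh : Real.cosh (Real.pi * z.im) = Real.cosh (Real.pi * |z.im|) := by
    rw [← habs2, Real.cosh_abs]
  have ht : 0 < Real.pi * |z.im| := by positivity
  have hst : 0 < Real.sinh (Real.pi * |z.im|) := Real.sinh_pos_iff.2 ht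
  have hbd := HHx_cosh (Real.pi * |z.im|) ht.le (by nlinarith)
  have hch := Real.cosh_pos (Real.pi * |z.im|)
  rw [HHx_re2, HHx_im2]
  constructor
  · intro h0
    have h5 : Real.cos (Real.pi * z.re) * Real.sinh (Real.pi * z.im) = 0 := by linarith
    rcases mul_eq_zero.mp h5 with h6 | h6
    · linarith
    · rw [h6, abs_zero] at hsinh
      linarith
  · rw [abs_mul, abs_mul, abs_mul, abs_mul, hsinh, abs_of_pos (Real.cosh_pos _), hcosh,
      abs_of_pos (by linarith : 0 < Real.cos (Real.pi * z.re)), abs_two]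
    have h5 : |Real.sin (Real.pi * z.re)| * Real.cosh (Real.pi * |z.im|) ≤
        Real.pi * |z.im| / 3 * Real.cosh (Real.pi * |z.im|) :=
      mul_le_mul_of_nonneg_right hsin hch.le
    have h6 : 95 / 100 * Real.sinh (Real.pi * |z.im|) ≤
        Real.cos (Real.pi * z.re) * Real.sinh (Real.pi * |z.im|) :=
      mul_le_mul_of_nonneg_right hcos hst.le
    linarith

theorem hhx_slit (s : ℝ) (hs : s = 1 ∨ s = -1) (z : ℂ) (h1 : HS s z) (h2 : HS s (1 - z))
    (h3 : |z.im| < 3 / 10) : 2 * sin (Real.pi * z) ∈ slitPlane := by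
  rw [Complex.mem_slitPlane_iff]
  rcases le_or_gt z.re 0 with hx | hx
  · right
    exact (HHx_left s hs z h1 h3 hx).1
  rcases le_or_gt 1 z.re with hx1 | hx1
  · right
    have h4 := (HHx_left s hs (1 - z) h2 (by simpa using h3) (by simp; linarith)).1
    rwa [HHx_sin_refl] at h4
  · left
    rw [HHx_re2]
    have h4 : 0 < Real.sin (Real.pi * z.re) := by
      apply Real.sin_pos_of_pos_of_lt_pi
      · positivity
      · have := Real.pi_pos
        nlinarith
    have := Real.cosh_pos (Real.pi * z.im)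
    positivity

theorem hhx_exp (s : ℝ) (hs : s = 1 ∨ s = -1) (z : ℂ) (h1 : HS s z) (h2 : HS s (1 - z))
    (h3 : |z.im| < 3 / 10) : exp (hh z) = 2 * sin (Real.pi * z) := by
  unfold hh
  exact Complex.exp_log (Complex.slitPlane_ne_zero (hhx_slit s hs z h1 h2 h3))

theorem hhx_deriv (s : ℝ) (hs : s = 1 ∨ s = -1) (z : ℂ) (h1 : HS s z) (h2 : HS s (1 - z))
    (h3 : |z.im| < 3 / 10) : HasDerivAt hh (Real.pi * Complex.cot (Real.pi * z)) z := by
  have hsl := hhx_slit s hs z h1 h2 h3
  have h4 : HasDerivAt (fun w : ℂ => 2 * sin (Real.pi * w)) (2 * (cos (Real.pi * z) * Real.pi)) z := by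
    have h5 : HasDerivAt (fun w : ℂ => (Real.pi : ℂ) * w) Real.pi z := by
      simpa using (hasDerivAt_id z).const_mul (Real.pi : ℂ)
    exact (h5.csin).const_mul 2
  have h5 := h4.clog hsl
  have h6 : sin (Real.pi * z) ≠ 0 := by
    intro h0
    rw [h0, mul_zero] at hsl
    exact Complex.slitPlane_ne_zero hsl rfl
  unfold hh
  convert h5 using 1
  rw [Complex.cot]
  field_simp

theorem hhx_im (s : ℝ) (hs : s = 1 ∨ s = -1) (z : ℂ) (h1 : HS s z) (h2 : HS s (1 - z))
    (h3 : |z.im| < 3 / 10) : |(hh z).im| ≤ 69 / 100 * Real.pi := by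
  have hsl := Complex.slitPlane_ne_zero (hhx_slit s hs z h1 h2 h3)
  unfold hh
  rw [Complex.log_im]
  apply HHx_arg _ hsl
  rcases le_or_gt z.re 0 with hx | hx
  · have h4 := (HHx_left s hs z h1 h3 hx).2
    exact (neg_le_abs _).trans h4
  rcases le_or_gt 1 z.re with hx1 | hx1
  · have h4 := (HHx_left s hs (1 - z) h2 (by simpa using h3) (by simp; linarith)).2
    rw [HHx_sin_refl] at h4
    exact (neg_le_abs _).trans h4
  · rw [HHx_re2]
    have h4 : 0 < Real.sin (Real.pi * z.re) := by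
      apply Real.sin_pos_of_pos_of_lt_pi
      · positivity
      · have := Real.pi_pos
        nlinarith
    have := Real.cosh_pos (Real.pi * z.im)
    have h5 : 0 < 2 * (Real.sin (Real.pi * z.re) * Real.cosh (Real.pi * z.im)) := by positivity
    have h6 := abs_nonneg (2 * sin (Real.pi * z)).im
    linarith

theorem hhx_refl (z : ℂ) : hh (1 - z) = hh z := by
  unfold hh
  rw [HHx_sin_refl]

theorem hhw_im (w : ℂ) (h1 : |w.im| < w.re / 2) (h2 : w.re < 1 / 2) :
    |(hh w).im| ≤ 15 / 100 * Real.pi := by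
  have hpi := Real.pi_gt_d4
  have hpi2 := Real.pi_lt_d4
  have hre : 0 < w.re := by
    have := abs_nonneg w.im
    linarith
  have hx0 : 0 < Real.pi * w.re := by positivity
  have hx1 : Real.pi * w.re < Real.pi / 2 := by nlinarith
  have hcos : 0 < Real.cos (Real.pi * w.re) :=
    Real.cos_pos_of_mem_Ioo ⟨by linarith, hx1⟩
  have hsin : 0 < Real.sin (Real.pi * w.re) :=
    Real.sin_pos_of_pos_of_lt_pi hx0 (by linarith)
  have htan : Real.pi * w.re * Real.cos (Real.pi * w.re) ≤ Real.sin (Real.pi * w.re) := by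
    have h3 := Real.le_tan hx0.le hx1
    rw [Real.tan_eq_sin_div_cos, le_div_iff₀ hcos] at h3
    exact h3
  have habs2 : |Real.pi * w.im| = Real.pi * |w.im| := by
    rw [abs_mul, abs_of_pos Real.pi_pos]
  have hsinh : |Real.sinh (Real.pi * w.im)| ≤
      Real.pi * |w.im| * Real.cosh (Real.pi * w.im) := by
    have h3 := Clausen_norm_sinh_le ((Real.pi * w.im : ℝ) : ℂ)
    rw [← Complex.ofReal_sinh, Complex.norm_real, Complex.norm_real, Complex.ofReal_re,
      Real.norm_eq_abs, Real.norm_eq_abs, habs2] at h3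
    exact h3
  have hch := Real.cosh_pos (Real.pi * w.im)
  set Z := 2 * sin (Real.pi * w) with hZ
  have hZre : Z.re = 2 * (Real.sin (Real.pi * w.re) * Real.cosh (Real.pi * w.im)) := HHx_re2 w
  have hZim : Z.im = 2 * (Real.cos (Real.pi * w.re) * Real.sinh (Real.pi * w.im)) := HHx_im2 w
  have hZre0 : 0 < Z.re := by rw [hZre]; positivity
  have hZ0 : Z ≠ 0 := by
    intro h0
    rw [h0] at hZre0
    simp at hZre0
  have him : |Z.im| ≤ 1 / 2 * Z.re := by
    rw [hZim, hZre, abs_mul, abs_mul, abs_two, abs_of_pos hcos]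
    have h3 : Real.cos (Real.pi * w.re) * |Real.sinh (Real.pi * w.im)| ≤
        Real.cos (Real.pi * w.re) * (Real.pi * |w.im| * Real.cosh (Real.pi * w.im)) :=
      mul_le_mul_of_nonneg_left hsinh hcos.le
    have h4 : Real.pi * |w.im| * (Real.cos (Real.pi * w.re) * Real.cosh (Real.pi * w.im)) ≤
        Real.pi * (w.re / 2) * (Real.cos (Real.pi * w.re) * Real.cosh (Real.pi * w.im)) :=
      mul_le_mul_of_nonneg_right (mul_le_mul_of_nonneg_left h1.le Real.pi_pos.le) (by positivity)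
    have h5 : Real.pi * w.re * Real.cos (Real.pi * w.re) * Real.cosh (Real.pi * w.im) ≤
        Real.sin (Real.pi * w.re) * Real.cosh (Real.pi * w.im) :=
      mul_le_mul_of_nonneg_right htan hch.le
    nlinarith
  have hn : 0 < ‖Z‖ := norm_pos_iff.mpr hZ0
  have hnorm : 894 / 1000 * ‖Z‖ ≤ Z.re := by
    have h3 : ‖Z‖ ^ 2 = Z.re ^ 2 + Z.im ^ 2 := by
      rw [Complex.sq_norm, Complex.normSq_apply]
      ring
    have h4 : Z.im ^ 2 ≤ (1 / 2 * Z.re) ^ 2 := by
      rw [← sq_abs Z.im]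
      exact pow_le_pow_left₀ (abs_nonneg _) him 2
    refine le_of_sq_le_sq ?_ hZre0.le
    nlinarith
  have hcosarg : 894 / 1000 ≤ Real.cos |arg Z| := by
    rw [Real.cos_abs, Complex.cos_arg hZ0, le_div_iff₀ hn]
    exact hnorm
  unfold hh
  rw [Complex.log_im, ← hZ]
  by_contra hc
  push Not at hc
  have h3 : Real.cos |arg Z| < Real.cos (15 / 100 * Real.pi) :=
    Real.strictAntiOn_cos ⟨by positivity, by linarith⟩
      ⟨abs_nonneg _, Complex.abs_arg_le_pi Z⟩ hc
  have h4 := Real.cos_bound (x := 15 / 100 * Real.pi) (by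
    rw [abs_of_pos (by positivity)]
    linarith)
  have h5 : |15 / 100 * Real.pi| ^ 4 ≤ (48 / 100) ^ 4 := by
    rw [abs_of_pos (by positivity)]
    exact pow_le_pow_left₀ (by positivity) (by linarith) 4
  have h6 := (abs_le.mp h4).2
  have h7 : (47 / 100 : ℝ) ^ 2 ≤ (15 / 100 * Real.pi) ^ 2 :=
    pow_le_pow_left₀ (by norm_num) (by linarith) 2
  norm_num at h5 h6 h7
  linarith

theorem HS_w (s : ℝ) (hs : s = 1 ∨ s = -1) (w : ℂ) (h1 : |w.im| < w.re / 2) : HS s w := by
  unfold HS
  have h2 := abs_lt.mp h1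
  have h3 := abs_nonneg w.im
  rcases hs with rfl | rfl <;> linarith [h2.1, h2.2]

theorem HS_add (s : ℝ) (a b : ℂ) (ha : HS s a) (hb : HS s b) : HS s (a + b) := by
  unfold HS at *
  rw [Complex.add_re, Complex.add_im]
  linarith

theorem Dm_refl (s : ℝ) (w b : ℂ) (h : Dm s w b) : Dm s w (1 - w - b) := by
  refine ⟨h.hs, h.w1, h.w2, h.b2, ?_, ?_, ?_⟩
  · have : 1 - w - (1 - w - b) = b := by ring
    rw [this]
    exact h.b1
  · have h1 := h.b4
    have : (1 - w - b).im = -(w + b).im := by simp; ring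
    rw [this, abs_neg]
    exact h1
  · have h1 := h.b3
    have : (w + (1 - w - b)).im = -b.im := by
      have e : w + (1 - w - b) = 1 - b := by ring
      rw [e]
      simp
    rw [this, abs_neg]
    exact h1

lemma HHx_const (U : Set ℂ) (hU : Convex ℝ U) (f : ℂ → ℂ) (hf : ∀ x ∈ U, HasDerivAt f 0 x)
    (x y : ℂ) (hx : x ∈ U) (hy : y ∈ U) : f x = f y := by
  have h := hU.norm_image_sub_le_of_norm_hasDerivWithin_le (f := f) (f' := fun _ => 0) (C := 0)
    (fun x hx => (hf x hx).hasDerivWithinAt) (fun x _ => by simp) hx hy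
  rw [zero_mul] at h
  have h2 : f y - f x = 0 := norm_le_zero_iff.mp h
  exact (sub_eq_zero.mp h2).symm

lemma HHx_conv {a c u v : ℝ} (ha : 0 ≤ a) (hc : 0 ≤ c) (hac : a + c = 1) (hu : 0 < u)
    (hv : 0 < v) : 0 < a * u + c * v := by
  rcases ha.eq_or_lt with h | h
  · rw [← h] at hac ⊢
    have : c = 1 := by linarith
    rw [this]
    linarith
  · have h1 : 0 < a * u := mul_pos h hu
    have h2 : 0 ≤ c * v := mul_nonneg hc hv.le
    linarith

lemma HHx_Dm_iff (s : ℝ) (hs : s = 1 ∨ s = -1) (w b : ℂ) : Dm s w b ↔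
    (0 < w.re / 2 - w.im ∧ 0 < w.re / 2 + w.im ∧ 0 < 1 / 2 - w.re ∧
      0 < b.re - s / 3 * b.im ∧ 0 < 1 - w.re - b.re + s / 3 * (w.im + b.im) ∧
      0 < 3 / 10 - b.im ∧ 0 < 3 / 10 + b.im ∧ 0 < 3 / 10 - (w.im + b.im) ∧
      0 < 3 / 10 + (w.im + b.im)) := by
  constructor
  · intro h
    have h1 := abs_lt.mp h.w1
    have h2 := h.w2
    have h3 := h.b1
    have h4 := h.b2
    have h5 := abs_lt.mp h.b3
    have h6 := abs_lt.mp h.b4
    unfold HS at h3 h4
    simp only [Complex.sub_re, Complex.sub_im, Complex.one_re, Complex.one_im,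
      Complex.add_im] at h4 h6
    refine ⟨by linarith [h1.2], by linarith [h1.1], by linarith, h3, by linarith,
      by linarith [h5.2], by linarith [h5.1], by linarith [h6.2], by linarith [h6.1]⟩
  · rintro ⟨h1, h2, h3, h4, h5, h6, h7, h8, h9⟩
    refine ⟨hs, abs_lt.mpr ⟨by linarith, by linarith⟩, by linarith, h4, ?_,
      abs_lt.mpr ⟨by linarith, by linarith⟩, ?_⟩
    · unfold HS
      simp only [Complex.sub_re, Complex.sub_im, Complex.one_re, Complex.one_im]
      linarith
    · rw [Complex.add_im]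
      exact abs_lt.mpr ⟨by linarith, by linarith⟩

/-- The domain is convex. -/
lemma HHx_Dm_convex (s : ℝ) (w b w' b' : ℂ) (h : Dm s w b) (h' : Dm s w' b') (a c : ℝ)
    (ha : 0 ≤ a) (hc : 0 ≤ c) (hac : a + c = 1) : Dm s (a • w + c • w') (a • b + c • b') := by
  have hs := h.hs
  rw [HHx_Dm_iff s hs] at *
  obtain ⟨h1, h2, h3, h4, h5, h6, h7, h8, h9⟩ := h
  obtain ⟨g1, g2, g3, g4, g5, g6, g7, g8, g9⟩ := h'
  have k1 := HHx_conv ha hc hac h1 g1
  have k2 := HHx_conv ha hc hac h2 g2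
  have k3 := HHx_conv ha hc hac h3 g3
  have k4 := HHx_conv ha hc hac h4 g4
  have k5 := HHx_conv ha hc hac h5 g5
  have k6 := HHx_conv ha hc hac h6 g6
  have k7 := HHx_conv ha hc hac h7 g7
  have k8 := HHx_conv ha hc hac h8 g8
  have k9 := HHx_conv ha hc hac h9 g9
  have hc' : c = 1 - a := by linarith
  simp only [Complex.add_re, Complex.add_im, Complex.smul_re, Complex.smul_im, smul_eq_mul]
  subst hc'
  refine ⟨by linarith, by linarith, by linarith, by linarith, by linarith,
    by linarith, by linarith, by linarith, by linarith⟩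

/-- A function with vanishing partial derivatives is constant. -/
theorem Dm_const (s : ℝ) (F : ℂ → ℂ → ℂ)
    (hw : ∀ w b, Dm s w b → HasDerivAt (fun w => F w b) 0 w)
    (hb : ∀ w b, Dm s w b → HasDerivAt (fun b => F w b) 0 b) (w b : ℂ) (h : Dm s w b) :
    F w b = F (1 / 3) (1 / 3) := by
  have hs := h.hs
  have hcw : ∀ b : ℂ, Convex ℝ {w : ℂ | Dm s w b} := by
    intro b x hx y hy a c ha hc hac
    have := HHx_Dm_convex s x b y b hx hy a c ha hc hac
    rwa [← add_smul, hac, one_smul] at this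
  have hcb : ∀ w : ℂ, Convex ℝ {b : ℂ | Dm s w b} := by
    intro w x hx y hy a c ha hc hac
    have := HHx_Dm_convex s w x w y hx hy a c ha hc hac
    rwa [← add_smul, hac, one_smul] at this
  have hd := (HHx_Dm_iff s hs w b).mp h
  obtain ⟨h1, h2, h3, h4, h5, h6, h7, h8, h9⟩ := hd
  -- the small real number
  have hval : 0 < 1 - b.re + s / 3 * b.im := by
    have h10 := HS_w s hs w h.w1
    unfold HS at h10
    linarith
  set t : ℝ := min (1 / 3) ((1 - b.re + s / 3 * b.im) / 2) with ht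
  have ht0 : 0 < t := lt_min (by norm_num) (by linarith)
  have ht1 : t ≤ 1 / 3 := min_le_left _ _
  have ht2 : t ≤ (1 - b.re + s / 3 * b.im) / 2 := min_le_right _ _
  have hA : Dm s (t : ℂ) b := by
    rw [HHx_Dm_iff s hs]
    simp only [Complex.ofReal_re, Complex.ofReal_im]
    refine ⟨by linarith, by linarith, by linarith, h4, by linarith,
      h6, h7, by linarith, by linarith⟩
  have h13 : (1 / 3 : ℂ) = ((1 / 3 : ℝ) : ℂ) := by push_cast; ring
  have hB : Dm s (t : ℂ) (1 / 3) := by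
    rw [HHx_Dm_iff s hs, h13]
    simp only [Complex.ofReal_re, Complex.ofReal_im]
    refine ⟨by linarith, by linarith, by linarith, by norm_num, by linarith,
      by norm_num, by norm_num, by norm_num, by norm_num⟩
  have hC : Dm s (1 / 3) (1 / 3) := by
    rw [HHx_Dm_iff s hs, h13]
    simp only [Complex.ofReal_re, Complex.ofReal_im]
    norm_num
  calc F w b = F t b := HHx_const _ (hcw b) (fun w => F w b) (fun x hx => hw x b hx) w t h hA
    _ = F t (1 / 3) := HHx_const _ (hcb t) (fun b => F t b) (fun x hx => hb t x hx) b _ hA hB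
    _ = F (1 / 3) (1 / 3) :=
      HHx_const _ (hcw (1 / 3)) (fun w => F w (1 / 3)) (fun x hx => hw x _ hx) t _ hB hC

/-- The same on the smaller domain of `Rr`. -/
theorem Dm_const' (s : ℝ) (F : ℂ → ℂ → ℂ)
    (hw : ∀ w b, Dm s w b → Dm s w (w + b) → HasDerivAt (fun w => F w b) 0 w)
    (hb : ∀ w b, Dm s w b → Dm s w (w + b) → HasDerivAt (fun b => F w b) 0 b) (w b : ℂ)
    (h : Dm s w b) (h' : Dm s w (w + b)) : F w b = F (1 / 4) (1 / 4) := by
  have hs := h.hs
  have hcw : ∀ b : ℂ, Convex ℝ {w : ℂ | Dm s w b ∧ Dm s w (w + b)} := by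
    intro b x hx y hy a c ha hc hac
    have e1 := HHx_Dm_convex s x b y b hx.1 hy.1 a c ha hc hac
    have e2 := HHx_Dm_convex s x (x + b) y (y + b) hx.2 hy.2 a c ha hc hac
    rw [← add_smul, hac, one_smul] at e1
    have e3 : a • (x + b) + c • (y + b) = (a • x + c • y) + b := by
      have : b = (a + c) • b := by rw [hac, one_smul]
      conv_rhs => rw [this]
      rw [add_smul, smul_add, smul_add]
      abel
    rw [e3] at e2
    exact ⟨e1, e2⟩
  have hcb : ∀ w : ℂ, Convex ℝ {b : ℂ | Dm s w b ∧ Dm s w (w + b)} := by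
    intro w x hx y hy a c ha hc hac
    have e1 := HHx_Dm_convex s w x w y hx.1 hy.1 a c ha hc hac
    have e2 := HHx_Dm_convex s w (w + x) w (w + y) hx.2 hy.2 a c ha hc hac
    rw [← add_smul, hac, one_smul] at e1 e2
    have e3 : a • (w + x) + c • (w + y) = w + (a • x + c • y) := by
      have : w = (a + c) • w := by rw [hac, one_smul]
      conv_rhs => rw [this]
      rw [add_smul, smul_add, smul_add]
      abel
    rw [e3] at e2
    exact ⟨e1, e2⟩
  obtain ⟨h1, h2, h3, h4, h5, h6, h7, h8, h9⟩ := (HHx_Dm_iff s hs w b).mp h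
  have hval : 0 < 1 - b.re + s / 3 * b.im := by
    have h10 := HS_w s hs w h.w1
    unfold HS at h10
    linarith
  set t : ℝ := min (1 / 4) ((1 - b.re + s / 3 * b.im) / 4) with ht
  have ht0 : 0 < t := lt_min (by norm_num) (by linarith)
  have ht1 : t ≤ 1 / 4 := min_le_left _ _
  have ht2 : t ≤ (1 - b.re + s / 3 * b.im) / 4 := min_le_right _ _
  have hA : Dm s (t : ℂ) b ∧ Dm s (t : ℂ) (t + b) := by
    rw [HHx_Dm_iff s hs, HHx_Dm_iff s hs]
    simp only [Complex.ofReal_re, Complex.ofReal_im, Complex.add_re, Complex.add_im]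
    refine ⟨⟨by linarith, by linarith, by linarith, h4, by linarith,
      h6, h7, by linarith, by linarith⟩, ⟨by linarith, by linarith, by linarith,
      by linarith, by linarith, by linarith, by linarith, by linarith, by linarith⟩⟩
  have h14 : (1 / 4 : ℂ) = ((1 / 4 : ℝ) : ℂ) := by push_cast; ring
  have hB : Dm s (t : ℂ) (1 / 4) ∧ Dm s (t : ℂ) (t + 1 / 4) := by
    rw [HHx_Dm_iff s hs, HHx_Dm_iff s hs, h14]
    simp only [Complex.ofReal_re, Complex.ofReal_im, Complex.add_re, Complex.add_im]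
    refine ⟨⟨by linarith, by linarith, by linarith, by norm_num, by linarith,
      by norm_num, by norm_num, by norm_num, by norm_num⟩, ⟨by linarith, by linarith, by linarith,
      by linarith, by linarith, by norm_num, by norm_num, by norm_num, by norm_num⟩⟩
  have hC : Dm s (1 / 4) (1 / 4) ∧ Dm s (1 / 4) (1 / 4 + 1 / 4) := by
    rw [HHx_Dm_iff s hs, HHx_Dm_iff s hs, h14]
    simp only [Complex.ofReal_re, Complex.ofReal_im, Complex.add_re, Complex.add_im]
    norm_num
  calc F w b = F t b :=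
        HHx_const _ (hcw b) (fun w => F w b) (fun x hx => hw x b hx.1 hx.2) w t ⟨h, h'⟩ hA
    _ = F t (1 / 4) :=
        HHx_const _ (hcb t) (fun b => F t b) (fun x hx => hb t x hx.1 hx.2) b _ hA hB
    _ = F (1 / 4) (1 / 4) :=
      HHx_const _ (hcw (1 / 4)) (fun w => F w (1 / 4)) (fun x hx => hw x _ hx.1 hx.2) t _ hB hC

end Pool.Agent.H63.GV
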