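import Pool.Agent.H63.VC5.GGa
import Pool.Agent.H63.GV.HX

/-! # The derivatives of Lam -/

namespace Pool.Agent.H63.GV

open Pool.Agent.H63.VC Pool.Agent.H63.VC3 Pool.Agent.H63.VC4 Pool.Agent.H63.VC5 Complex Filter
  Topology
open scoped BigOperators

/-! ### The three points `w`, `b`, `w + b` -/

theorem LamA_HSw {s : ℝ} {w b : ℂ} (h : Dm s w b) : HS s w := HS_w s h.hs w h.w1

theorem LamA_imw {s : ℝ} {w b : ℂ} (h : Dm s w b) : |w.im| < 3 / 10 := by
  have := h.w1
  have := h.w2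
  linarith

theorem LamA_rew {s : ℝ} {w b : ℂ} (h : Dm s w b) : 0 < w.re := by
  have := h.w1
  have := abs_nonneg w.im
  linarith

theorem LamA_HSw' {s : ℝ} {w b : ℂ} (h : Dm s w b) : HS s (1 - w) := by
  have := HS_add s (1 - w - b) b h.b2 h.b1
  have e : 1 - w - b + b = 1 - w := by ring
  rwa [e] at this

theorem LamA_HSb' {s : ℝ} {w b : ℂ} (h : Dm s w b) : HS s (1 - b) := by
  have := HS_add s (1 - w - b) w h.b2 (LamA_HSw h)
  have e : 1 - w - b + w = 1 - b := by ring
  rwa [e] at this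

theorem LamA_HSs {s : ℝ} {w b : ℂ} (h : Dm s w b) : HS s (w + b) :=
  HS_add s w b (LamA_HSw h) h.b1

theorem LamA_HSs' {s : ℝ} {w b : ℂ} (h : Dm s w b) : HS s (1 - (w + b)) := by
  have := h.b2
  have e : 1 - w - b = 1 - (w + b) := by ring
  rwa [e] at this

theorem LamA_exp_w {s : ℝ} {w b : ℂ} (h : Dm s w b) : exp (hh w) = 2 * sin (Real.pi * w) :=
  hhx_exp s h.hs w (LamA_HSw h) (LamA_HSw' h) (LamA_imw h)

theorem LamA_exp_b {s : ℝ} {w b : ℂ} (h : Dm s w b) : exp (hh b) = 2 * sin (Real.pi * b) :=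
  hhx_exp s h.hs b h.b1 (LamA_HSb' h) h.b3

theorem LamA_exp_s {s : ℝ} {w b : ℂ} (h : Dm s w b) :
    exp (hh (w + b)) = 2 * sin (Real.pi * (w + b)) :=
  hhx_exp s h.hs (w + b) (LamA_HSs h) (LamA_HSs' h) h.b4

theorem LamA_der_w {s : ℝ} {w b : ℂ} (h : Dm s w b) :
    HasDerivAt hh (Real.pi * Complex.cot (Real.pi * w)) w :=
  hhx_deriv s h.hs w (LamA_HSw h) (LamA_HSw' h) (LamA_imw h)

theorem LamA_der_b {s : ℝ} {w b : ℂ} (h : Dm s w b) :
    HasDerivAt hh (Real.pi * Complex.cot (Real.pi * b)) b :=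
  hhx_deriv s h.hs b h.b1 (LamA_HSb' h) h.b3

theorem LamA_der_s {s : ℝ} {w b : ℂ} (h : Dm s w b) :
    HasDerivAt hh (Real.pi * Complex.cot (Real.pi * (w + b))) (w + b) :=
  hhx_deriv s h.hs (w + b) (LamA_HSs h) (LamA_HSs' h) h.b4

theorem LamA_der_sw {s : ℝ} {w b : ℂ} (h : Dm s w b) :
    HasDerivAt (fun w => hh (w + b)) (Real.pi * Complex.cot (Real.pi * (w + b))) w :=
  HasDerivAt.comp_add_const w b (LamA_der_s h)

theorem LamA_der_sb {s : ℝ} {w b : ℂ} (h : Dm s w b) :
    HasDerivAt (fun b => hh (w + b)) (Real.pi * Complex.cot (Real.pi * (w + b))) b :=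
  HasDerivAt.comp_const_add w b (LamA_der_s h)

/-! ### The two relations -/

theorem LamA_trig (a b : ℂ) :
    sin (a + b) * exp (b * I) - sin b * exp ((a + b) * I) = sin a := by
  have e1 : exp ((a + b) * I) = exp (a * I) * exp (b * I) := by
    rw [← Complex.exp_add]; ring_nf
  rw [e1, Complex.sin_add, Complex.exp_mul_I a, Complex.exp_mul_I b]
  have h := Complex.sin_sq_add_cos_sq b
  linear_combination sin a * h - (sin a * sin b * sin b) * Complex.I_sq

theorem LamA_alg (A B S E F : ℂ) (hA : 2 * A ≠ 0) (h : S * E - B * F = A) :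
    2 * S / (2 * A) * E + -(2 * B / (2 * A) * F) = 1 := by
  have e : 2 * S / (2 * A) * E + -(2 * B / (2 * A) * F) = 2 * (S * E - B * F) / (2 * A) := by ring
  rw [e, h, div_self hA]

theorem LamA_rel1 {s : ℝ} {w b : ℂ} (h : Dm s w b) :
    exp (hh (w + b) - hh w + Real.pi * I * b) +
      exp (-(-(hh b - hh w) - Real.pi * I * (w + b) + Real.pi * I)) = 1 := by
  have hw := LamA_exp_w h
  have hb := LamA_exp_b h
  have hs := LamA_exp_s h
  have hw0 : (2 * sin (Real.pi * w) : ℂ) ≠ 0 := by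
    rw [← hw]; exact Complex.exp_ne_zero _
  have e1 : exp (hh (w + b) - hh w + Real.pi * I * b) =
      2 * sin (Real.pi * (w + b)) / (2 * sin (Real.pi * w)) * exp ((Real.pi * b) * I) := by
    rw [Complex.exp_add, Complex.exp_sub, hs, hw]
    congr 2
    ring
  have e2 : exp (-(-(hh b - hh w) - Real.pi * I * (w + b) + Real.pi * I)) =
      -(2 * sin (Real.pi * b) / (2 * sin (Real.pi * w)) *
        exp ((Real.pi * w + Real.pi * b) * I)) := by
    have : -(-(hh b - hh w) - Real.pi * I * (w + b) + Real.pi * I) =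
        (hh b - hh w) + (Real.pi * w + Real.pi * b) * I - Real.pi * I := by ring
    rw [this, Complex.exp_sub, Complex.exp_add, Complex.exp_sub, hb, hw, Complex.exp_pi_mul_I]
    ring
  rw [e1, e2]
  have ht := LamA_trig (Real.pi * w) (Real.pi * b)
  have e3 : (Real.pi : ℂ) * (w + b) = Real.pi * w + Real.pi * b := by ring
  rw [e3]
  exact LamA_alg _ _ _ _ _ hw0 ht

theorem LamA_rel2 {s : ℝ} {w b : ℂ} (h : Dm s w b) :
    exp (hh (w + b) - hh b + Real.pi * I * w) +
      exp (-(hh b - hh w - Real.pi * I * (w + b) + Real.pi * I)) = 1 := by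
  have hw := LamA_exp_w h
  have hb := LamA_exp_b h
  have hs := LamA_exp_s h
  have hb0 : (2 * sin (Real.pi * b) : ℂ) ≠ 0 := by
    rw [← hb]; exact Complex.exp_ne_zero _
  have e1 : exp (hh (w + b) - hh b + Real.pi * I * w) =
      2 * sin (Real.pi * (w + b)) / (2 * sin (Real.pi * b)) * exp ((Real.pi * w) * I) := by
    rw [Complex.exp_add, Complex.exp_sub, hs, hb]
    congr 2
    ring
  have e2 : exp (-(hh b - hh w - Real.pi * I * (w + b) + Real.pi * I)) =
      -(2 * sin (Real.pi * w) / (2 * sin (Real.pi * b)) *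
        exp ((Real.pi * b + Real.pi * w) * I)) := by
    have : -(hh b - hh w - Real.pi * I * (w + b) + Real.pi * I) =
        (hh w - hh b) + (Real.pi * b + Real.pi * w) * I - Real.pi * I := by ring
    rw [this, Complex.exp_sub, Complex.exp_add, Complex.exp_sub, hb, hw, Complex.exp_pi_mul_I]
    ring
  rw [e1, e2]
  have ht := LamA_trig (Real.pi * b) (Real.pi * w)
  have e3 : (Real.pi : ℂ) * (w + b) = Real.pi * b + Real.pi * w := by ring
  rw [e3]
  exact LamA_alg _ _ _ _ _ hb0 ht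

/-! ### Bounds of the imaginary parts -/

theorem LamA_HS_re {s : ℝ} (hs : s = 1 ∨ s = -1) {b : ℂ} (h : HS s b) (hb : |b.im| < 3 / 10) :
    -(1 / 10) < b.re := by
  unfold HS at h
  rw [abs_lt] at hb
  rcases hs with rfl | rfl <;> linarith [hb.1, hb.2]

theorem LamA_reb {s : ℝ} {w b : ℂ} (h : Dm s w b) : |b.re| ≤ 11 / 10 := by
  have h1 := LamA_HS_re h.hs h.b1 h.b3
  have h2 := LamA_HS_re h.hs (LamA_HSb' h) (by
    have e : (1 - b).im = -b.im := by simp
    rw [e, abs_neg]
    exact h.b3)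
  have e : (1 - b).re = 1 - b.re := by simp
  rw [e] at h2
  rw [abs_le]
  constructor <;> linarith

theorem LamA_im_pi (b : ℂ) : ((Real.pi : ℂ) * I * b).im = Real.pi * b.re := by
  simp

theorem LamA_bd1 {s : ℝ} {w b : ℂ} (h : Dm s w b) :
    |(hh (w + b) - hh w + Real.pi * I * b).im| < 2 * Real.pi := by
  have hp := Real.pi_pos
  have h1 := hhx_im s h.hs (w + b) (LamA_HSs h) (LamA_HSs' h) h.b4
  have h2 := hhw_im w h.w1 h.w2
  have h3 := LamA_reb h
  rw [Complex.add_im, Complex.sub_im, LamA_im_pi]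
  rw [abs_le] at h1 h2 h3
  have h4 : Real.pi * b.re ≤ Real.pi * (11 / 10) := mul_le_mul_of_nonneg_left h3.2 hp.le
  have h5 : Real.pi * (-(11 / 10)) ≤ Real.pi * b.re := mul_le_mul_of_nonneg_left h3.1 hp.le
  rw [abs_lt]
  constructor <;> linarith [h1.1, h1.2, h2.1, h2.2]

theorem LamA_bd2 {s : ℝ} {w b : ℂ} (h : Dm s w b) :
    |(hh (w + b) - hh b + Real.pi * I * w).im| < 2 * Real.pi := by
  have hp := Real.pi_pos
  have h1 := hhx_im s h.hs (w + b) (LamA_HSs h) (LamA_HSs' h) h.b4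
  have h2 := hhx_im s h.hs b h.b1 (LamA_HSb' h) h.b3
  have h3 := LamA_rew h
  have h3' := h.w2
  rw [Complex.add_im, Complex.sub_im, LamA_im_pi]
  rw [abs_le] at h1 h2
  have h4 : Real.pi * w.re ≤ Real.pi * (1 / 2) := mul_le_mul_of_nonneg_left h3'.le hp.le
  have h5 : 0 ≤ Real.pi * w.re := mul_nonneg hp.le h3.le
  rw [abs_lt]
  constructor <;> linarith [h1.1, h1.2, h2.1, h2.2]

/-! ### Openness of the domain -/

theorem LamA_nhds_w {s : ℝ} {w b : ℂ} (h : Dm s w b) : ∀ᶠ w' in 𝓝 w, Dm s w' b := by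
  have c1 : Continuous fun w' : ℂ => w'.re / 2 - |w'.im| := by fun_prop
  have c2 : Continuous fun w' : ℂ => 1 / 2 - w'.re := by fun_prop
  have c3 : Continuous fun w' : ℂ => (1 - w' - b).re - s / 3 * (1 - w' - b).im := by fun_prop
  have c4 : Continuous fun w' : ℂ => 3 / 10 - |(w' + b).im| := by fun_prop
  have e1 := c1.continuousAt.eventually (lt_mem_nhds (by have := h.w1; linarith :
    (0 : ℝ) < w.re / 2 - |w.im|))
  have e2 := c2.continuousAt.eventually (lt_mem_nhds (by have := h.w2; linarith :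
    (0 : ℝ) < 1 / 2 - w.re))
  have e3 := c3.continuousAt.eventually (lt_mem_nhds (show
    (0 : ℝ) < (1 - w - b).re - s / 3 * (1 - w - b).im from h.b2))
  have e4 := c4.continuousAt.eventually (lt_mem_nhds (by have := h.b4; linarith :
    (0 : ℝ) < 3 / 10 - |(w + b).im|))
  filter_upwards [e1, e2, e3, e4] with x h1 h2 h3 h4
  exact ⟨h.hs, by linarith, by linarith, h.b1, h3, h.b3, by linarith⟩

theorem LamA_nhds_b {s : ℝ} {w b : ℂ} (h : Dm s w b) : ∀ᶠ b' in 𝓝 b, Dm s w b' := by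
  have c1 : Continuous fun b' : ℂ => b'.re - s / 3 * b'.im := by fun_prop
  have c2 : Continuous fun b' : ℂ => 3 / 10 - |b'.im| := by fun_prop
  have c3 : Continuous fun b' : ℂ => (1 - w - b').re - s / 3 * (1 - w - b').im := by fun_prop
  have c4 : Continuous fun b' : ℂ => 3 / 10 - |(w + b').im| := by fun_prop
  have e1 := c1.continuousAt.eventually (lt_mem_nhds (show
    (0 : ℝ) < b.re - s / 3 * b.im from h.b1))
  have e2 := c2.continuousAt.eventually (lt_mem_nhds (by have := h.b3; linarith :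
    (0 : ℝ) < 3 / 10 - |b.im|))
  have e3 := c3.continuousAt.eventually (lt_mem_nhds (show
    (0 : ℝ) < (1 - w - b).re - s / 3 * (1 - w - b).im from h.b2))
  have e4 := c4.continuousAt.eventually (lt_mem_nhds (by have := h.b4; linarith :
    (0 : ℝ) < 3 / 10 - |(w + b).im|))
  filter_upwards [e1, e2, e3, e4] with x h1 h2 h3 h4
  exact ⟨h.hs, h.w1, h.w2, h1, h3, by linarith, by linarith⟩

/-! ### The derivatives -/

theorem Lam_w (s : ℝ) (w b : ℂ) (h : Dm s w b) : HasDerivAt (fun w => Lam w b)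
    ((hh (w + b) - hh b) * (Real.pi * Complex.cot (Real.pi * w)) +
      (hh b - hh w) * (Real.pi * Complex.cot (Real.pi * (w + b))) +
      (Real.pi : ℂ) ^ 2 * b) w := by
  have dw := LamA_der_w h
  have ds := LamA_der_sw h
  set c := (Real.pi : ℂ) * Complex.cot (Real.pi * w) with hc
  set c1 := (Real.pi : ℂ) * Complex.cot (Real.pi * (w + b)) with hc1
  have did : HasDerivAt (fun w : ℂ => w) 1 w := hasDerivAt_id w
  have df : HasDerivAt (fun w => hh (w + b) - hh w + Real.pi * I * b) (c1 - c) w :=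
    (ds.sub dw).add_const _
  have dg : HasDerivAt (fun w => -(hh b - hh w) - Real.pi * I * (w + b) + Real.pi * I)
      (c - Real.pi * I) w := by
    have := (((dw.const_sub (hh b)).neg).sub
      ((did.add_const b).const_mul ((Real.pi : ℂ) * I))).add_const ((Real.pi : ℂ) * I)
    refine this.congr_deriv ?_
    ring
  have df2 : HasDerivAt (fun w => hh (w + b) - hh b + Real.pi * I * w) (c1 + Real.pi * I) w := by
    have := (ds.sub_const (hh b)).add (did.const_mul ((Real.pi : ℂ) * I))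
    refine this.congr_deriv ?_
    ring
  have dg2 : HasDerivAt (fun w => hh b - hh w - Real.pi * I * (w + b) + Real.pi * I)
      (-c - Real.pi * I) w := by
    have := ((dw.const_sub (hh b)).sub
      ((did.add_const b).const_mul ((Real.pi : ℂ) * I))).add_const ((Real.pi : ℂ) * I)
    refine this.congr_deriv ?_
    ring
  have hn := LamA_nhds_w h
  have r1 := RG_hasDerivAt _ _ _ _ w df dg (hn.mono fun w' h' => LamA_rel1 h') (LamA_bd1 h)
  have r2 := RG_hasDerivAt _ _ _ _ w df2 dg2 (hn.mono fun w' h' => LamA_rel2 h') (LamA_bd2 h)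
  have r3 : HasDerivAt (fun w : ℂ => (Real.pi : ℂ) ^ 2 / 2 * (w - b)) ((Real.pi : ℂ) ^ 2 / 2) w := by
    have := (did.sub_const b).const_mul ((Real.pi : ℂ) ^ 2 / 2)
    refine this.congr_deriv ?_
    ring
  have r4 : HasDerivAt (fun w : ℂ => (Real.pi : ℂ) * I / 2 * (hh b - hh w))
      (-((Real.pi : ℂ) * I / 2 * c)) w := by
    have := (dw.const_sub (hh b)).const_mul ((Real.pi : ℂ) * I / 2)
    refine this.congr_deriv ?_
    ring
  have r := ((((r1.neg).add r2).add r3).add r4).add_const ((Real.pi : ℂ) ^ 2 / 6)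
  refine r.congr_deriv ?_
  linear_combination ((Real.pi : ℂ) ^ 2 / 2 - (Real.pi : ℂ) ^ 2 * b) * Complex.I_sq

theorem Lam_b (s : ℝ) (w b : ℂ) (h : Dm s w b) : HasDerivAt (fun b => Lam w b)
    ((hh b - hh w) * (Real.pi * Complex.cot (Real.pi * (w + b))) +
      (hh w - hh (w + b)) * (Real.pi * Complex.cot (Real.pi * b)) -
      (Real.pi : ℂ) ^ 2 * w) b := by
  have dw := LamA_der_b h
  have ds := LamA_der_sb h
  set c := (Real.pi : ℂ) * Complex.cot (Real.pi * b) with hc
  set c1 := (Real.pi : ℂ) * Complex.cot (Real.pi * (w + b)) with hc1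
  have did : HasDerivAt (fun b : ℂ => b) 1 b := hasDerivAt_id b
  have df : HasDerivAt (fun b => hh (w + b) - hh w + Real.pi * I * b) (c1 + Real.pi * I) b := by
    have := (ds.sub_const (hh w)).add (did.const_mul ((Real.pi : ℂ) * I))
    refine this.congr_deriv ?_
    ring
  have dg : HasDerivAt (fun b => -(hh b - hh w) - Real.pi * I * (w + b) + Real.pi * I)
      (-c - Real.pi * I) b := by
    have := (((dw.sub_const (hh w)).neg).sub
      ((did.const_add w).const_mul ((Real.pi : ℂ) * I))).add_const ((Real.pi : ℂ) * I)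
    refine this.congr_deriv ?_
    ring
  have df2 : HasDerivAt (fun b => hh (w + b) - hh b + Real.pi * I * w) (c1 - c) b :=
    (ds.sub dw).add_const _
  have dg2 : HasDerivAt (fun b => hh b - hh w - Real.pi * I * (w + b) + Real.pi * I)
      (c - Real.pi * I) b := by
    have := ((dw.sub_const (hh w)).sub
      ((did.const_add w).const_mul ((Real.pi : ℂ) * I))).add_const ((Real.pi : ℂ) * I)
    refine this.congr_deriv ?_
    ring
  have hn := LamA_nhds_b h
  have r1 := RG_hasDerivAt _ _ _ _ b df dg (hn.mono fun w' h' => LamA_rel1 h') (LamA_bd1 h)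
  have r2 := RG_hasDerivAt _ _ _ _ b df2 dg2 (hn.mono fun w' h' => LamA_rel2 h') (LamA_bd2 h)
  have r3 : HasDerivAt (fun b : ℂ => (Real.pi : ℂ) ^ 2 / 2 * (w - b))
      (-((Real.pi : ℂ) ^ 2 / 2)) b := by
    have := (did.const_sub w).const_mul ((Real.pi : ℂ) ^ 2 / 2)
    refine this.congr_deriv ?_
    ring
  have r4 : HasDerivAt (fun b : ℂ => (Real.pi : ℂ) * I / 2 * (hh b - hh w))
      ((Real.pi : ℂ) * I / 2 * c) b :=
    (dw.sub_const (hh w)).const_mul ((Real.pi : ℂ) * I / 2)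
  have r := ((((r1.neg).add r2).add r3).add r4).add_const ((Real.pi : ℂ) ^ 2 / 6)
  refine r.congr_deriv ?_
  linear_combination ((Real.pi : ℂ) ^ 2 * w - (Real.pi : ℂ) ^ 2 / 2) * Complex.I_sq

theorem Lam_diag (w : ℂ) : Lam w w = (Real.pi : ℂ) ^ 2 / 6 := by
  unfold Lam
  ring

end Pool.Agent.H63.GV
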