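import Pool.Agent.H63.GV.HX

/-! # The location of the angles of a fan -/

namespace Pool.Agent.H63.GV

open Pool.Agent.H63.VC Pool.Agent.H63.VC3 Pool.Agent.H63.VC4 Pool.Agent.H63.VC5 Complex Filter
  Topology
open scoped BigOperators

theorem loc_sgr (r : ℤ) : sgr r = 1 ∨ sgr r = -1 := by
  rw [sgr]
  split_ifs
  · exact Or.inl rfl
  · exact Or.inr rfl

theorem loc_bL (R : ℕ) (r : ℕ → ℤ) (y v : ℕ → ℂ) (hc : CritJ R r y v) (i : ℕ) (hi : 1 ≤ i)
    (hi' : i ≤ R) : HS (sgr (r i)) (bL y v i) := hc.hL i hi' hi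

theorem loc_bR (R : ℕ) (r : ℕ → ℤ) (y v : ℕ → ℂ) (hc : CritJ R r y v) (i : ℕ)
    (hi' : i < R) : HS (sgr (r i)) (bR R y v i) := hc.hR' i hi'

theorem Loc_smul {s : ℝ} {b : ℂ} (h : HS s b) {k : ℕ} (hk : 1 ≤ k) : HS s (k * b) := by
  rw [HS] at h ⊢
  have hk' : (0 : ℝ) < k := by exact_mod_cast hk
  have e1 : ((k : ℂ) * b).re = k * b.re := by
    rw [← Complex.ofReal_natCast, Complex.re_ofReal_mul]
  have e2 : ((k : ℂ) * b).im = k * b.im := by
    rw [← Complex.ofReal_natCast, Complex.im_ofReal_mul]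
  rw [e1, e2]
  have : (k : ℝ) * b.re - s / 3 * (k * b.im) = k * (b.re - s / 3 * b.im) := by ring
  rw [this]
  positivity

theorem Loc_left (R : ℕ) (r : ℕ → ℤ) (y v : ℕ → ℂ) (hc : CritJ R r y v) (i k : ℕ) (hi : i ≤ R)
    (h0 : i = 0 → 1 ≤ k) : HS (sgr (r i)) (k * wI r v i + bL y v i) := by
  have hw : HS (sgr (r i)) (wI r v i) := HS_w _ (loc_sgr _) _ (hc.wim i hi)
  by_cases hi0 : i = 0
  · have : bL y v i = 0 := by rw [bL, if_pos hi0]
    rw [this, add_zero]
    exact Loc_smul hw (h0 hi0)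
  · have hb := loc_bL R r y v hc i (by omega) hi
    by_cases hk : k = 0
    · rw [hk, Nat.cast_zero, zero_mul, zero_add]
      exact hb
    · exact HS_add _ _ _ (Loc_smul hw (by omega)) hb

theorem Loc_right (R : ℕ) (r : ℕ → ℤ) (y v : ℕ → ℂ) (hc : CritJ R r y v) (i k : ℕ) (hi : i ≤ R)
    (h0 : i = R → 1 ≤ k) : HS (sgr (r i)) (k * wI r v i + bR R y v i) := by
  have hw : HS (sgr (r i)) (wI r v i) := HS_w _ (loc_sgr _) _ (hc.wim i hi)
  by_cases hi0 : i = R
  · have : bR R y v i = 0 := by rw [bR, if_pos hi0]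
    rw [this, add_zero]
    exact Loc_smul hw (h0 hi0)
  · have hb := loc_bR R r y v hc i (by omega)
    by_cases hk : k = 0
    · rw [hk, Nat.cast_zero, zero_mul, zero_add]
      exact hb
    · exact HS_add _ _ _ (Loc_smul hw (by omega)) hb

theorem Loc_eq (R : ℕ) (r : ℕ → ℤ) (y v : ℕ → ℂ) (hc : CritJ R r y v) (i k : ℕ) (hi : i ≤ R)
    (hk : k ≤ 2 * (r i).natAbs) :
    1 - (k * wI r v i + bL y v i) =
      ((2 * (r i).natAbs - k : ℕ) : ℂ) * wI r v i + bR R y v i := by
  have h := hc.ev i hi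
  rw [Nat.cast_sub hk]
  push_cast
  linear_combination (-1) * h

theorem loc_k (R : ℕ) (r : ℕ → ℤ) (y v : ℕ → ℂ) (hc : CritJ R r y v) (i k : ℕ) (hi : i ≤ R)
    (hk : k ≤ 2 * (r i).natAbs) (h0 : i = 0 → 1 ≤ k) (h1 : i = R → k + 1 ≤ 2 * (r i).natAbs) :
    HS (sgr (r i)) (k * wI r v i + bL y v i) ∧ HS (sgr (r i)) (1 - (k * wI r v i + bL y v i)) ∧
      |(k * wI r v i + bL y v i).im| < 3 / 10 := by
  refine ⟨Loc_left R r y v hc i k hi h0, ?_, hc.kim i hi k hk⟩
  rw [Loc_eq R r y v hc i k hi hk]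
  exact Loc_right R r y v hc i _ hi (fun h => by have := h1 h; omega)

/-- The domain of `Lam` along the fan. -/
theorem loc_Dm (R : ℕ) (r : ℕ → ℤ) (y v : ℕ → ℂ) (hc : CritJ R r y v) (i k : ℕ) (hi : i ≤ R)
    (hk : k + 1 ≤ 2 * (r i).natAbs) (h0 : i = 0 → 1 ≤ k)
    (h1 : i = R → k + 2 ≤ 2 * (r i).natAbs) :
    Dm (sgr (r i)) (wI r v i) (k * wI r v i + bL y v i) := by
  have hk0 := loc_k R r y v hc i k hi (by omega) h0 (fun h => by have := h1 h; omega)
  have hk1 := loc_k R r y v hc i (k + 1) hi hk (fun _ => by omega)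
    (fun h => by have := h1 h; omega)
  have e : ((k + 1 : ℕ) : ℂ) * wI r v i + bL y v i =
      wI r v i + (k * wI r v i + bL y v i) := by
    push_cast
    ring
  rw [e] at hk1
  exact {
    hs := loc_sgr _
    w1 := hc.wim i hi
    w2 := hc.wre i hi
    b1 := hk0.1
    b2 := by
      rw [sub_sub]
      exact hk1.2.1
    b3 := hk0.2.2
    b4 := hk1.2.2 }

/-- The domain of `Lam` at the right slot. -/
theorem loc_DmR (R : ℕ) (r : ℕ → ℤ) (y v : ℕ → ℂ) (hc : CritJ R r y v) (i : ℕ) (hi : i < R) :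
    Dm (sgr (r i)) (wI r v i) (bR R y v i) := by
  have hb := loc_bR R r y v hc i hi
  have hr := hc.hr i hi.le
  have hp : 2 ≤ (r i).natAbs := by
    rw [Int.abs_eq_natAbs] at hr
    omega
  have h := hc.ev i hi.le
  exact {
    hs := loc_sgr _
    w1 := hc.wim i hi.le
    w2 := hc.wre i hi.le
    b1 := hb
    b2 := by
      have e : 1 - wI r v i - bR R y v i =
          ((2 * (r i).natAbs - 1 : ℕ) : ℂ) * wI r v i + bL y v i := by
        rw [Nat.cast_sub (by omega)]
        push_cast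
        linear_combination (-1) * h
      rw [e]
      exact Loc_left R r y v hc i _ hi.le (fun _ => by omega)
    b3 := by
      have h2 := hc.kim i hi.le (2 * (r i).natAbs) le_rfl
      have e : bR R y v i = 1 - (((2 * (r i).natAbs : ℕ) : ℂ) * wI r v i + bL y v i) := by
        push_cast
        linear_combination h
      rw [e, Complex.sub_im, Complex.one_im, zero_sub, abs_neg]
      exact h2
    b4 := by
      have h2 := hc.kim i hi.le (2 * (r i).natAbs - 1) (by omega)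
      have e : wI r v i + bR R y v i =
          1 - (((2 * (r i).natAbs - 1 : ℕ) : ℂ) * wI r v i + bL y v i) := by
        rw [Nat.cast_sub (by omega)]
        push_cast
        linear_combination h
      rw [e, Complex.sub_im, Complex.one_im, zero_sub, abs_neg]
      exact h2 }

end Pool.Agent.H63.GV
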