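import Pool.Agent.H63.VC5.RogGG
import Pool.Agent.H63.GV.LamB
import Pool.Agent.H63.GV.Loc

/-! # The terms of a fan -/

namespace Pool.Agent.H63.GV

open Pool.Agent.H63.VC Pool.Agent.H63.VC3 Pool.Agent.H63.VC4 Pool.Agent.H63.VC5 Complex Filter
  Topology
open scoped BigOperators

theorem Layer_sin (s : ℝ) (w b : ℂ) (h : Dm s w b) (h' : Dm s w (w + b)) :
    exp (-(2 * hh (w + b) - hh b - hh (2 * w + b))) = 1 - exp (2 * (hh w - hh (w + b))) := by
  have hw1 : HS s w := HS_w s h.hs w h.w1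
  have hw2 : HS s (1 - w) := by
    have := HS_add s _ _ h.b2 h.b1
    rwa [sub_add_cancel] at this
  have hw3 : |w.im| < 3 / 10 := by
    have e1 := h.w1
    have e2 := h.w2
    linarith
  have e1 : exp (hh w) = 2 * sin (Real.pi * w) := hhx_exp s h.hs w hw1 hw2 hw3
  have e2 : exp (hh b) = 2 * sin (Real.pi * b) := by
    refine hhx_exp s h.hs b h.b1 ?_ h.b3
    have := HS_add s _ _ h.b2 hw1
    have e : 1 - w - b + w = 1 - b := by ring
    rwa [e] at this
  have e3 : exp (hh (w + b)) = 2 * sin (Real.pi * (w + b)) := by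
    refine hhx_exp s h.hs (w + b) h'.b1 ?_ h.b4
    have := h.b2
    have e : 1 - w - b = 1 - (w + b) := by ring
    rwa [e] at this
  have e4 : exp (hh (2 * w + b)) = 2 * sin (Real.pi * (2 * w + b)) := by
    have t1 := HS_add s _ _ hw1 h'.b1
    have t2 := h'.b2
    have t3 := h'.b4
    have e : w + (w + b) = 2 * w + b := by ring
    have e' : 1 - w - (w + b) = 1 - (2 * w + b) := by ring
    rw [e] at t1 t3
    rw [e'] at t2
    exact hhx_exp s h.hs (2 * w + b) t1 t2 t3
  have hA : exp (hh (w + b)) ≠ 0 := exp_ne_zero _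
  have l1 : exp (-(2 * hh (w + b) - hh b - hh (2 * w + b))) =
      exp (hh b) * exp (hh (2 * w + b)) / exp (hh (w + b)) ^ 2 := by
    rw [eq_div_iff (pow_ne_zero 2 hA), ← exp_nat_mul, ← exp_add, ← exp_add]
    congr 1
    push_cast
    ring
  have l2 : exp (2 * (hh w - hh (w + b))) = exp (hh w) ^ 2 / exp (hh (w + b)) ^ 2 := by
    rw [eq_div_iff (pow_ne_zero 2 hA), ← exp_nat_mul, ← exp_nat_mul, ← exp_add]
    congr 1
    push_cast
    ring
  have key : exp (hh b) * exp (hh (2 * w + b)) = exp (hh (w + b)) ^ 2 - exp (hh w) ^ 2 := by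
    rw [e1, e2, e3, e4]
    have f1 : (Real.pi : ℂ) * b = Real.pi * (w + b) - Real.pi * w := by ring
    have f2 : (Real.pi : ℂ) * (2 * w + b) = Real.pi * (w + b) + Real.pi * w := by ring
    rw [f1, f2, Complex.sin_sub, Complex.sin_add]
    have g1 := Complex.sin_sq_add_cos_sq (Real.pi * (w + b))
    have g2 := Complex.sin_sq_add_cos_sq (Real.pi * w)
    linear_combination (-4 * sin (Real.pi * w) ^ 2) * g1 + (4 * sin (Real.pi * (w + b)) ^ 2) * g2
  rw [l1, l2, key, sub_div, div_self (pow_ne_zero 2 hA)]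

theorem Layer_im (s : ℝ) (w b : ℂ) (h : Dm s w b) (h' : Dm s w (w + b)) :
    |(2 * (hh w - hh (w + b))).im| < 2 * Real.pi := by
  have e1 := hhw_im w h.w1 h.w2
  have e2 : |(hh (w + b)).im| ≤ 69 / 100 * Real.pi := by
    refine hhx_im s h.hs (w + b) h'.b1 ?_ h.b4
    have := h.b2
    have e : 1 - w - b = 1 - (w + b) := by ring
    rwa [e] at this
  have e3 : (2 * (hh w - hh (w + b))).im = 2 * ((hh w).im - (hh (w + b)).im) := by
    simp [Complex.mul_im]
  have hpi := Real.pi_pos
  rw [e3, abs_mul, abs_of_pos (show (0 : ℝ) < 2 by norm_num)]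
  have := abs_sub (hh w).im (hh (w + b)).im
  nlinarith

theorem layer_fan (R : ℕ) (r : ℕ → ℤ) (y v : ℕ → ℂ) (hc : CritJ R r y v) (i k : ℕ)
    (hi : i ≤ R) (hk : k ∈ fan R r i) (P Q : ℤ)
    (hP : Complex.log (zI r y v i k) + P * (Real.pi * I) =
      2 * lgL r (LP y v) (lam r y v) i k - 2 * lgR r (LP y v) (lam r y v) i k)
    (hQ : -Complex.log (1 - zI r y v i k) + Q * (Real.pi * I) =
      2 * lgR r (LP y v) (lam r y v) i k - lam r y v i (k - 1) - lgN r (lam r y v) i k) :
    Cg (2 * rogers (zI r y v i k) P Q)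
      (sgr (r i) * (2 * (Lam (wI r v i) (((k - 1 : ℕ) : ℂ) * wI r v i + bL y v i) -
        Lam (wI r v i) (k * wI r v i + bL y v i)) - (Real.pi : ℂ) ^ 2 / 3) +
      Real.pi * I * (if Even k then 2 * hh (wI r v i) - hkI r y v i (k - 1) - hkI r y v i (k + 1)
        else 2 * hkI r y v i k - 2 * hh (wI r v i))) := by
  -- bounds on `k`
  have hk' := Finset.mem_Icc.1 hk
  have hk1 : 1 ≤ k := by
    have := hk'.1
    split_ifs at this <;> omega
  have hk0 : i = 0 → 2 ≤ k := by
    intro h
    have := hk'.1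
    rwa [if_pos h] at this
  have hp := hc.hr i hi
  have hp' : 2 ≤ (r i).natAbs := by
    rw [Int.abs_eq_natAbs] at hp
    exact_mod_cast hp
  have hk2 : k + 1 ≤ 2 * (r i).natAbs := by
    have := hk'.2
    split_ifs at this <;> omega
  have hk3 : i = R → k + 2 ≤ 2 * (r i).natAbs := by
    intro h
    have := hk'.2
    rw [if_pos h] at this
    omega
  have hlay : k ∈ lay R r i := by
    rw [lay, Finset.mem_Icc]
    refine ⟨hk'.1, ?_⟩
    have := hk'.2
    split_ifs at this ⊢ <;> omega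
  have hpos := hc.pos i hi k hlay
  -- the domains
  have hD1 := loc_Dm R r y v hc i (k - 1) hi (by omega) (fun h => by have := hk0 h; omega)
    (fun h => by have := hk3 h; omega)
  have hD2 := loc_Dm R r y v hc i k hi hk2 (fun h => by have := hk0 h; omega) hk3
  have hcast : ((k - 1 : ℕ) : ℂ) = (k : ℂ) - 1 := by
    rw [Nat.cast_sub hk1, Nat.cast_one]
  set w := wI r v i with hw
  set β := bL y v i with hβ
  set b : ℂ := ((k - 1 : ℕ) : ℂ) * w + β with hb
  have hb1 : (k : ℂ) * w + β = w + b := by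
    rw [hb, hcast]
    ring
  have hb2 : ((k + 1 : ℕ) : ℂ) * w + β = 2 * w + b := by
    rw [hb, hcast]
    push_cast
    ring
  have hh0 : hkI r y v i (k - 1) = hh b := rfl
  have hh1 : hkI r y v i k = hh (w + b) := by
    rw [hkI, ← hw, ← hβ, hb1]
  have hh2 : hkI r y v i (k + 1) = hh (2 * w + b) := by
    rw [hkI, ← hw, ← hβ, hb2]
  rw [hb1] at hD2 ⊢
  rw [hh0, hh1, hh2]
  set W0 : ℂ := 2 * (hh w - hh (w + b)) with hW0
  set W1 : ℂ := 2 * hh (w + b) - hh b - hh (2 * w + b) with hW1
  have hexp : exp (-W1) = 1 - exp W0 := Layer_sin _ w b hD1 hD2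
  have him : |W0.im| < 2 * Real.pi := Layer_im _ w b hD1 hD2
  have hR : GG W0 + W0 * W1 / 2 = Lam w b - Lam w (w + b) := by
    rw [← Lam_step _ w b hD1 hD2, Rr, hW0, hW1]
    ring
  have hlgN : lgN r (lam r y v) i k = lam r y v i (k + 1) := by
    rw [lgN, if_neg (by omega)]
  rw [hlgN] at hQ
  have lam0 : lam r y v i (k - 1) = LP y v i + hh b - hh w +
      if Even k then 0 else sgr (r i) * (Real.pi * I) / 2 := by
    rw [lam, hh0, ← hw]
    congr 1
    have : Even (k - 1) ↔ ¬ Even k := by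
      obtain ⟨m, rfl⟩ : ∃ m, k = m + 1 := ⟨k - 1, by omega⟩
      rw [Nat.add_sub_cancel, Nat.even_add_one, not_not]
    by_cases he : Even k
    · rw [if_neg (by rw [this]; exact not_not.2 he), if_pos he]
    · rw [if_pos (this.2 he), if_neg he]
  have lam1 : lam r y v i k = LP y v i + hh (w + b) - hh w +
      if Even k then sgr (r i) * (Real.pi * I) / 2 else 0 := by
    rw [lam, hh1, ← hw]
  have lam2 : lam r y v i (k + 1) = LP y v i + hh (2 * w + b) - hh w +
      if Even k then 0 else sgr (r i) * (Real.pi * I) / 2 := by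
    rw [lam, hh2, ← hw]
    congr 1
    by_cases he : Even k
    · rw [if_neg (by rw [Nat.even_add_one]; exact not_not.2 he), if_pos he]
    · rw [if_pos (by rw [Nat.even_add_one]; exact he), if_neg he]
  by_cases hneg : r i < 0
  · have hs : sgr (r i) = 1 := by rw [sgr, if_pos hneg]
    have hz : zI r y v i k = exp W0 := by
      rw [zI, if_pos hneg, hh1, ← hw, hW0]
    rw [lgL, lgR, if_pos hneg, if_pos hneg] at hP
    rw [lgR, if_pos hneg] at hQ
    rw [lam1, hs] at hP
    rw [lam0, lam1, lam2, hs] at hQ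
    rw [hz] at hP hQ hpos ⊢
    rw [hs]
    by_cases he : Even k
    · rw [if_pos he] at hP hQ ⊢
      rw [if_pos he] at hQ
      have key := rogers_GG (exp W0) W0 W1 hpos.ne' rfl hexp him P Q (-1) 1
        (by rw [hP, hW0]; push_cast; ring) (by rw [hQ, hW1]; push_cast; ring)
      rw [hR] at key
      refine key.trans (Cg.of_eq ?_)
      rw [hW0, hW1]
      push_cast
      ring
    · rw [if_neg he] at hP hQ ⊢
      rw [if_neg he] at hQ
      have key := rogers_GG (exp W0) W0 W1 hpos.ne' rfl hexp him P Q 0 (-1)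
        (by rw [hP, hW0]; push_cast; ring) (by rw [hQ, hW1]; push_cast; ring)
      rw [hR] at key
      refine key.trans (Cg.of_eq ?_)
      rw [hW0]
      push_cast
      ring
  · have hs : sgr (r i) = -1 := by rw [sgr, if_neg hneg]
    have hz : zI r y v i k = (exp W0)⁻¹ := by
      rw [zI, if_neg hneg, hh1, ← hw, ← hW0, exp_neg]
    rw [lgL, lgR, if_neg hneg, if_neg hneg] at hP
    rw [lgR, if_neg hneg] at hQ
    rw [lam1, hs] at hP
    rw [lam0, lam2, hs] at hQ
    rw [hz] at hP hQ hpos ⊢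
    rw [hs]
    have hu : (exp W0).im ≠ 0 := by
      intro h0
      rw [Complex.inv_im, h0] at hpos
      simp at hpos
    by_cases he : Even k
    · rw [if_pos he] at hP hQ ⊢
      have key := rogers_inv_GG (exp W0) W0 W1 hu rfl hexp him P Q 1 (-1)
        (by rw [hP, hW0]; push_cast; ring) (by rw [hQ, hW0, hW1]; push_cast; ring)
      rw [hR] at key
      refine key.trans (Cg.of_eq ?_)
      rw [hW0, hW1]
      push_cast
      ring
    · rw [if_neg he] at hP hQ ⊢
      have key := rogers_inv_GG (exp W0) W0 W1 hu rfl hexp him P Q 0 1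
        (by rw [hP, hW0]; push_cast; ring) (by rw [hQ, hW0, hW1]; push_cast; ring)
      rw [hR] at key
      refine key.trans (Cg.of_eq ?_)
      rw [hW0]
      push_cast
      ring

end Pool.Agent.H63.GV
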