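import Pool.Agent.H63.GO.GGeo
import Pool.Agent.H63.GV.HX

/-! # The shapes have positive imaginary parts -/

namespace Pool.Agent.H63.GV

open Pool.Agent.H63.VC Pool.Agent.H63.VC3 Pool.Agent.H63.VC4 Pool.Agent.H63.VC5 Pool.Agent.H63.GO
  Complex Filter Topology
open scoped BigOperators

/-! ### Symmetries of the critical point -/

private theorem PosG_swap (r1 r2 : ℤ) (y v w : ℂ) (hc : CritG r1 r2 y v w) :
    CritG r2 r1 y w v :=
  ⟨hc.h2, hc.h1, by linear_combination hc.ey, hc.ew, hc.ev, hc.y1, hc.y2, hc.yi, hc.w1, hc.v1,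
    hc.w2, hc.v2, hc.w3, hc.v3, hc.w4, hc.v4, hc.w5, hc.v5, hc.w6, hc.v6, hc.w7, hc.v7, hc.w8,
    hc.v8⟩

private theorem PosG_hh (z : ℂ) (h0 : 0 < z.re) (h1 : z.re < 1) :
    hh ((starRingEnd ℂ) z) = (starRingEnd ℂ) (hh z) := by
  have hpi := Real.pi_pos
  have e : 2 * sin (Real.pi * (starRingEnd ℂ) z) = (starRingEnd ℂ) (2 * sin (Real.pi * z)) := by
    rw [map_mul, ← Complex.sin_conj, map_mul, Complex.conj_ofReal, map_ofNat]
  unfold hh
  rw [e]
  refine Complex.log_conj _ ?_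
  intro h
  have h2 : 0 < (2 * sin (Real.pi * z)).re := by
    rw [HHx_re2]
    have h3 : 0 < Real.sin (Real.pi * z.re) := by
      apply Real.sin_pos_of_pos_of_lt_pi
      · positivity
      · nlinarith
    have := Real.cosh_pos (Real.pi * z.im)
    positivity
  rw [Complex.arg_eq_pi_iff] at h
  linarith [h.1]

private theorem PosG_cos (v : ℂ) : cos (Real.pi * -(starRingEnd ℂ) v) =
    (starRingEnd ℂ) (cos (Real.pi * v)) := by
  rw [mul_neg, Complex.cos_neg, ← Complex.cos_conj, map_mul, Complex.conj_ofReal]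

private theorem PosG_conj (r1 r2 : ℤ) (y v w : ℂ) (hc : CritG r1 r2 y v w) :
    CritG (-r1) (-r2) ((starRingEnd ℂ) y) (-(starRingEnd ℂ) v) (-(starRingEnd ℂ) w) := by
  have hy1 := hc.y1
  have hy2 := hc.y2
  have av := abs_le.1 (show |v.re| ≤ y.re - 1 / 100 by linarith [hc.v3])
  have aw := abs_le.1 (show |w.re| ≤ y.re - 1 / 100 by linarith [hc.w3])
  have k0 : hh ((starRingEnd ℂ) y + 1 / 2) = (starRingEnd ℂ) (hh (y + 1 / 2)) := by
    rw [← PosG_hh]
    · rw [map_add, map_div₀, map_one, map_ofNat]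
    · simp; linarith
    · simp; linarith
  have kv1 : hh ((starRingEnd ℂ) y - -(starRingEnd ℂ) v) = (starRingEnd ℂ) (hh (y + v)) := by
    rw [← PosG_hh]
    · simp
    · simp; linarith
    · simp; linarith
  have kv2 : hh ((starRingEnd ℂ) y + -(starRingEnd ℂ) v) = (starRingEnd ℂ) (hh (y - v)) := by
    rw [← PosG_hh]
    · simp [sub_eq_add_neg]
    · simp; linarith
    · simp; linarith
  have kw1 : hh ((starRingEnd ℂ) y - -(starRingEnd ℂ) w) = (starRingEnd ℂ) (hh (y + w)) := by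
    rw [← PosG_hh]
    · simp
    · simp; linarith
    · simp; linarith
  have kw2 : hh ((starRingEnd ℂ) y + -(starRingEnd ℂ) w) = (starRingEnd ℂ) (hh (y - w)) := by
    rw [← PosG_hh]
    · simp [sub_eq_add_neg]
    · simp; linarith
    · simp; linarith
  have cv := PosG_cos v
  have cw := PosG_cos w
  have e8 : ∀ z : ℂ, (4 * (starRingEnd ℂ) z ^ 2 - 1 : ℂ) = (starRingEnd ℂ) (4 * z ^ 2 - 1) := by
    intro z
    rw [map_sub, map_mul, map_pow, map_ofNat, map_one]
  refine ⟨by rw [abs_neg]; exact hc.h1, by rw [abs_neg]; exact hc.h2, ?_, ?_, ?_, ?_, ?_, ?_, ?_, ?_,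
    ?_, ?_, ?_, ?_, ?_, ?_, ?_, ?_, ?_, ?_, ?_, ?_, ?_, ?_⟩
  · rw [k0, kv1, kv2, kw1, kw2]
    have h := congrArg (starRingEnd ℂ) hc.ey
    simp only [map_add, map_mul, map_ofNat] at h
    linear_combination h
  · rw [kv1, kv2]
    have h := congrArg (starRingEnd ℂ) hc.ev
    simp only [map_add, map_sub, map_mul, map_ofNat, map_one, map_zero, Complex.conj_ofReal,
      Complex.conj_I, map_intCast] at h
    push_cast
    linear_combination -h
  · rw [kw1, kw2]
    have h := congrArg (starRingEnd ℂ) hc.ew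
    simp only [map_add, map_sub, map_mul, map_ofNat, map_one, map_zero, Complex.conj_ofReal,
      Complex.conj_I, map_intCast] at h
    push_cast
    linear_combination -h
  · simpa using hc.y1
  · simpa using hc.y2
  · simpa using hc.yi
  · have h := hc.v1
    simpa using h
  · have h := hc.w1
    simpa using h
  · have h := hc.v2
    simpa using h
  · have h := hc.w2
    simpa using h
  · have h := hc.v3
    simpa using h
  · have h := hc.w3
    simpa using h
  · have h := hc.v4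
    simpa using h
  · have h := hc.w4
    simpa using h
  · have h := hc.v5
    simpa using h
  · have h := hc.w5
    simpa using h
  · rw [cv, Complex.conj_re, Complex.conj_im, abs_neg]
    exact hc.v6
  · rw [cw, Complex.conj_re, Complex.conj_im, abs_neg]
    exact hc.w6
  · intro h
    rw [abs_neg] at h
    have h' := congrArg (starRingEnd ℂ) (hc.v7 h)
    rw [cv, cw, e8, ← map_pow, h']
    simp only [map_add, map_mul, map_one, Complex.conj_I, map_intCast]
    push_cast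
    ring
  · intro h
    rw [abs_neg] at h
    have h' := congrArg (starRingEnd ℂ) (hc.w7 h)
    rw [cv, cw, e8, ← map_pow, h']
    simp only [map_add, map_mul, map_one, Complex.conj_I, map_intCast]
    push_cast
    ring
  · rw [cv, e8, Complex.conj_re]
    exact hc.v8
  · rw [cw, e8, Complex.conj_re]
    exact hc.w8

/-! ### The fan of the first block -/

private theorem PosG_fanP (r1 r2 : ℤ) (y v w : ℂ) (hc : CritG r1 r2 y v w) (hr : 0 < r1) (k : ℕ)
    (hk : 2 ≤ k) (hk2 : k ≤ if r1 * r2 < 0 then 2 * r1.natAbs else 2 * r1.natAbs - 1) :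
    0 < ((Xs (2 * cos (Real.pi * (starRingEnd ℂ) v)) k ^ 2)⁻¹).im := by
  obtain ⟨p, rfl⟩ : ∃ p : ℕ, r1 = p := ⟨r1.toNat, by omega⟩
  have hp : 2 ≤ p := by
    have := hc.h1
    rw [Int.abs_natCast] at this
    exact_mod_cast this
  rw [Int.natAbs_natCast] at hk2
  have hv2 : |v.re| < 2 / (4 * p - 1) := by
    have := hc.v2
    rwa [Geo_abs] at this
  have hv1 := GGeo_re_pos p v hp hc.v1
  rcases le_or_gt 0 r2 with h2 | h2
  · obtain ⟨q, rfl⟩ : ∃ q : ℕ, r2 = q := ⟨r2.toNat, by omega⟩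
    have hn : ¬ ((p : ℤ) * (q : ℤ) < 0) := not_lt.2 (mul_nonneg hr.le h2)
    rw [if_neg hn] at hk2
    exact Geo_pos p (2 * p - 1) v hp (by omega) (by omega) hv1 hv2 hc.v4
      (gtop_same p q y v w hc).1 k hk hk2
  · obtain ⟨q, rfl⟩ : ∃ q : ℕ, r2 = -(q : ℤ) := ⟨(-r2).toNat, by omega⟩
    have hn : (p : ℤ) * -(q : ℤ) < 0 := mul_neg_of_pos_of_neg hr h2
    rw [if_pos hn] at hk2
    exact Geo_pos p (2 * p) v hp (by omega) le_rfl hv1 hv2 hc.v4
      (gtop_opp p q y v w hc).1 k hk hk2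

private theorem PosG_fanN (r1 r2 : ℤ) (y v w : ℂ) (hc : CritG r1 r2 y v w) (hr : r1 < 0) (k : ℕ)
    (hk : 2 ≤ k) (hk2 : k ≤ if r1 * r2 < 0 then 2 * r1.natAbs else 2 * r1.natAbs - 1) :
    0 < ((Xs (2 * cos (Real.pi * v)) k ^ 2)⁻¹).im := by
  have h := PosG_fanP (-r1) (-r2) _ _ _ (PosG_conj r1 r2 y v w hc) (by omega) k hk (by
    rw [neg_mul_neg, Int.natAbs_neg]
    exact hk2)
  rwa [map_neg, Complex.conj_conj, mul_neg, Complex.cos_neg] at h

/-! ### The shapes -/

private theorem PosG_exp (z : ℂ) (h : sin (Real.pi * z) ≠ 0) :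
    exp (hh z) = 2 * sin (Real.pi * z) :=
  Complex.exp_log (mul_ne_zero two_ne_zero h)

private theorem PosG_exp2 (a b : ℂ) (ha : sin (Real.pi * a) ≠ 0) (hb : sin (Real.pi * b) ≠ 0) :
    exp (2 * (hh a - hh b)) = sin (Real.pi * a) ^ 2 / sin (Real.pi * b) ^ 2 := by
  have e : (2 * (hh a - hh b) : ℂ) = hh a + hh a - (hh b + hh b) := by ring
  rw [e, Complex.exp_sub, Complex.exp_add, Complex.exp_add, PosG_exp a ha, PosG_exp b hb]
  rw [div_eq_div_iff (mul_ne_zero (mul_ne_zero two_ne_zero hb) (mul_ne_zero two_ne_zero hb))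
    (pow_ne_zero 2 hb)]
  ring

/-- The quotient of the sines in terms of `Xs`. -/
private theorem PosG_shape (v a b : ℂ) (m : ℕ) (hs : sin (Real.pi * v) ≠ 0)
    (hm : sin (m * (Real.pi * v)) ≠ 0) (ha : sin (Real.pi * a) ^ 2 = sin (Real.pi * v) ^ 2)
    (hb : sin (Real.pi * b) ^ 2 = sin (m * (Real.pi * v)) ^ 2) :
    exp (2 * (hh a - hh b)) = (Xs (2 * cos (Real.pi * v)) m ^ 2)⁻¹ := by
  have na : sin (Real.pi * a) ≠ 0 := by
    intro h
    rw [h] at ha
    exact pow_ne_zero 2 hs (by rw [← ha]; ring)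
  have nb : sin (Real.pi * b) ≠ 0 := by
    intro h
    rw [h] at hb
    exact pow_ne_zero 2 hm (by rw [← hb]; ring)
  rw [PosG_exp2 a b na nb, ha, hb]
  have h := Xs_sin v m
  have hX : Xs (2 * cos (Real.pi * v)) m ≠ 0 := by
    intro h0
    rw [h0, zero_mul] at h
    exact hm h.symm
  rw [← h]
  field_simp

private theorem PosG_conj_inv (v : ℂ) (m : ℕ) :
    ((Xs (2 * cos (Real.pi * (starRingEnd ℂ) v)) m ^ 2)⁻¹) =
      (starRingEnd ℂ) ((Xs (2 * cos (Real.pi * v)) m ^ 2)⁻¹) := by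
  rw [Geo_Xs_cos_conj, ← map_pow, ← map_inv₀]

private theorem PosG_inv_im (S : ℂ) (h : 0 < ((starRingEnd ℂ) S).im) : 0 < (S⁻¹).im := by
  rw [Complex.conj_im] at h
  rw [Complex.inv_im]
  refine div_pos h (Complex.normSq_pos.2 ?_)
  rintro rfl
  simp at h

/-- One shape. -/
private theorem PosG_one (r1 r2 : ℤ) (y v w : ℂ) (hc : CritG r1 r2 y v w) (a b : ℂ) (m : ℕ)
    (hm : 2 ≤ m) (hm2 : m ≤ if r1 * r2 < 0 then 2 * r1.natAbs else 2 * r1.natAbs - 1)
    (ha : sin (Real.pi * a) ^ 2 = sin (Real.pi * v) ^ 2)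
    (hb : sin (Real.pi * b) ^ 2 = sin (m * (Real.pi * v)) ^ 2) :
    0 < (if r1 < 0 then exp (2 * (hh a - hh b)) else exp (-(2 * (hh a - hh b)))).im := by
  obtain ⟨-, -, -, n4, -⟩ := gne _ _ y v w hc
  have hr := hc.h1
  have hs : sin (Real.pi * v) ≠ 0 := by
    have := n4 1 le_rfl (by push_cast; linarith)
    simpa using this
  have hm3 : (m : ℤ) ≤ 2 * |r1| := by
    rw [Int.abs_eq_natAbs]
    split_ifs at hm2 <;> omega
  have hsm := n4 m (by omega) hm3
  have hS := PosG_shape v a b m hs hsm ha hb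
  rcases lt_or_ge r1 0 with h | h
  · rw [if_pos h, hS]
    exact PosG_fanN r1 r2 y v w hc h m hm hm2
  · rw [if_neg (not_lt.2 h), Complex.exp_neg, hS]
    have hr0 : 0 < r1 := by
      rw [abs_of_nonneg h] at hr
      linarith
    have h1 := PosG_fanP r1 r2 y v w hc hr0 m hm hm2
    rw [PosG_conj_inv] at h1
    exact PosG_inv_im _ h1

private theorem PosG_sgr (r : ℤ) : (sgr r : ℂ) = 1 ∨ (sgr r : ℂ) = -1 := by
  unfold sgr
  split_ifs
  · left; simp
  · right; simp

private theorem PosG_sin_sgr (r : ℤ) (z : ℂ) :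
    sin ((sgr r : ℂ) * z) ^ 2 = sin z ^ 2 := by
  rcases PosG_sgr r with h | h
  · rw [h, one_mul]
  · rw [h, neg_one_mul, Complex.sin_neg, neg_sq]

private theorem PosG_sgr_mul (r : ℤ) : (r : ℂ) = -((sgr r : ℂ) * (r.natAbs : ℂ)) := by
  have hz : (r.natAbs : ℂ) = ((|r| : ℤ) : ℂ) := Nat.cast_natAbs _
  rw [hz]
  unfold sgr
  split_ifs with h
  · rw [abs_of_neg h]; push_cast; ring
  · rw [abs_of_nonneg (not_lt.1 h)]; push_cast; ring

theorem pos_of (r1 r2 : ℤ) (y v w : ℂ) (hc : CritG r1 r2 y v w) : ∀ i ≤ 1,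
    ∀ k ∈ lay 1 (sq r1 r2) i, 0 < (zI (sq r1 r2) (fun _ => y) (sq v w) i k).im := by
  intro i hi k hk
  have hpi : (Real.pi : ℂ) ≠ 0 := by exact_mod_cast Real.pi_ne_zero
  unfold lay at hk
  rw [Finset.mem_Icc] at hk
  obtain ⟨hk1, hk2⟩ := hk
  have r0 : sq r1 r2 0 = r1 := rfl
  have r1' : sq r1 r2 1 = r2 := rfl
  have v0 : sq v w 0 = v := rfl
  have v1 : sq v w 1 = w := rfl
  obtain rfl | rfl : i = 0 ∨ i = 1 := by omega
  · rw [if_pos rfl] at hk1
    rw [if_neg (by omega), r0, show 0 + 1 = 1 from rfl, r1'] at hk2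
    have h := PosG_one r1 r2 y v w hc ((sgr r1 : ℂ) * v) (k * ((sgr r1 : ℂ) * v) + 0) k hk1 hk2
      (by
        rw [show (Real.pi : ℂ) * ((sgr r1 : ℂ) * v) = (sgr r1 : ℂ) * (Real.pi * v) by ring]
        exact PosG_sin_sgr r1 _)
      (by
        rw [show (Real.pi : ℂ) * (k * ((sgr r1 : ℂ) * v) + 0) =
          (sgr r1 : ℂ) * (k * (Real.pi * v)) by ring]
        exact PosG_sin_sgr r1 _)
    unfold zI hkI wI bL
    rw [r0, v0, if_pos rfl]
    exact h
  · rw [if_neg (by omega)] at hk1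
    rw [if_pos rfl, r1'] at hk2
    have hb : bL (fun _ => y) (sq v w) 1 = 2 * r2 * w + 1 := by
      unfold bL
      rw [if_neg (by omega), v1]
      simp only [bet]
      have h := hc.ew
      rw [div_eq_iff (mul_ne_zero two_ne_zero hpi)]
      linear_combination I * h - (2 * Real.pi * (2 * r2 * w + 1)) * Complex.I_sq
    have hN : (((2 * r2.natAbs - k : ℕ) : ℂ)) = 2 * (r2.natAbs : ℂ) - k := by
      rw [Nat.cast_sub (by omega)]
      push_cast
      ring
    have h := PosG_one r2 r1 y w v (PosG_swap r1 r2 y v w hc) ((sgr r2 : ℂ) * w)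
      (k * ((sgr r2 : ℂ) * w) + (2 * r2 * w + 1)) (2 * r2.natAbs - k) (by omega)
      (by split_ifs <;> omega)
      (by
        rw [show (Real.pi : ℂ) * ((sgr r2 : ℂ) * w) = (sgr r2 : ℂ) * (Real.pi * w) by ring]
        exact PosG_sin_sgr r2 _)
      (by
        have hr : (r2 : ℂ) = -((sgr r2 : ℂ) * (r2.natAbs : ℂ)) := by
          rw [← PosG_sgr_mul]
        rw [hN, show (Real.pi : ℂ) * (k * ((sgr r2 : ℂ) * w) + (2 * r2 * w + 1)) =
          Real.pi - (sgr r2 : ℂ) * ((2 * (r2.natAbs : ℂ) - k) * (Real.pi * w)) by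
            rw [hr]; ring, Complex.sin_pi_sub]
        exact PosG_sin_sgr r2 _)
    unfold zI hkI wI
    rw [r1', v1, hb]
    exact h

end Pool.Agent.H63.GV
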