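import Pool.Agent.H63.GO.KDefs
import Pool.Agent.H63.GV.PosG

/-! # The critical point of a two-bridge knot of genus one -/

namespace Pool.Agent.H63.GV

open Pool.Agent.H63.VC Pool.Agent.H63.VC3 Pool.Agent.H63.VC4 Pool.Agent.H63.VC5 Pool.Agent.H63.GO
  Complex Filter Topology
open scoped BigOperators

private theorem LocG_sgr (r : ℤ) (hr : 2 ≤ |r|) : ∃ σ : ℝ, (σ = 1 ∨ σ = -1) ∧ sgr r = -σ ∧ (r : ℝ) = σ * |(r : ℝ)| ∧
    (r.sign : ℝ) = σ := by
  rcases lt_or_ge r 0 with h | h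
  · refine ⟨-1, Or.inr rfl, ?_, ?_, ?_⟩
    · unfold sgr
      rw [if_pos h, neg_neg]
    · have h1 : (r : ℝ) < 0 := by exact_mod_cast h
      rw [abs_of_neg h1]
      ring
    · rw [Int.sign_eq_neg_one_of_neg h]
      norm_num
  · have h0 : 0 < r := by
      rcases h.lt_or_eq with h1 | h1
      · exact h1
      · rw [← h1] at hr
        norm_num at hr
    refine ⟨1, Or.inl rfl, ?_, ?_, ?_⟩
    · unfold sgr
      rw [if_neg (not_lt.mpr h)]
    · have h1 : (0 : ℝ) < r := by exact_mod_cast h0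
      rw [abs_of_pos h1]
      ring
    · rw [Int.sign_eq_one_of_pos h0]
      norm_num

private theorem LocG_re (s : ℝ) (v : ℂ) : ((s : ℂ) * v).re = s * v.re := by
  rw [Complex.re_ofReal_mul]

private theorem LocG_im (s : ℝ) (v : ℂ) : ((s : ℂ) * v).im = s * v.im := by
  rw [Complex.im_ofReal_mul]

private theorem LocG_b (r : ℤ) (v : ℂ) : (1 + 2 * (r : ℂ) * v).re = 1 + 2 * r * v.re ∧
    (1 + 2 * (r : ℂ) * v).im = 2 * r * v.im := by
  have h : (1 + 2 * (r : ℂ) * v) = ((1 : ℝ) : ℂ) + ((2 * r : ℝ) : ℂ) * v := by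
    push_cast
    ring
  rw [h, Complex.add_re, Complex.add_im, Complex.re_ofReal_mul, Complex.im_ofReal_mul, Complex.ofReal_re, Complex.ofReal_im]
  exact ⟨rfl, by ring⟩

private theorem LocG_norm {x y c : ℝ} (z : ℂ) (hz : ‖z‖ ≤ c) (hx : z.re = x) (hy : z.im = y) : x ^ 2 + y ^ 2 ≤ c ^ 2 := by
  have h1 : ‖z‖ ^ 2 = x ^ 2 + y ^ 2 := by
    rw [← Complex.normSq_eq_norm_sq, Complex.normSq_apply, hx, hy]
    ring
  rw [← h1]
  exact pow_le_pow_left₀ (norm_nonneg z) hz 2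

/-- Location of the angles of a block. -/
theorem locG_w (r : ℤ) (hr : 2 ≤ |r|) (v k : ℂ) (hb : Blk r v k) :
    0 < (sgr r * v).re ∧ |(sgr r * v).im| < (sgr r * v).re / 2 ∧ (sgr r * v).re < 1 / 2 ∧
    HS (sgr r) (1 + 2 * r * v) ∧ 2 * |(r : ℝ)| * |v.im| < 3 / 10 := by
  obtain ⟨σ, hσ, hs, hrσ, hsig⟩ := LocG_sgr r hr
  obtain ⟨hbr, hbi⟩ := LocG_b r v
  have hσ2 : σ ^ 2 = 1 := by rcases hσ with h | h <;> rw [h] <;> norm_num
  have habs : ∀ x : ℝ, |(-σ) * x| = |x| := by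
    intro x
    rcases hσ with h | h <;> rw [h]
    · rw [neg_one_mul, abs_neg]
    · rw [neg_neg, one_mul]
  unfold HS
  rw [LocG_re, LocG_im, hbr, hbi, hs, habs]
  rcases lt_or_ge |r| 3 with h3 | h3
  · have h2 : |r| = 2 := by omega
    have hρ : |(r : ℝ)| = 2 := by
      rw [← Int.cast_abs, h2]
      norm_num
    rw [hρ] at hrσ ⊢
    have h4 := hb.loc2 h2
    have hz : v + (r / 2 : ℂ) * (2335 / 10000) - 547 / 10000 * I =
        v + ((σ * (2335 / 10000) : ℝ) : ℂ) - ((547 / 10000 : ℝ) : ℂ) * I := by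
      have h5 : (r : ℂ) = ((σ * 2 : ℝ) : ℂ) := by
        rw [← hrσ]
        push_cast
        rfl
      rw [h5]
      push_cast
      ring
    have hn := LocG_norm (x := v.re + σ * (2335 / 10000)) (y := v.im - 547 / 10000) _ h4 (by
      rw [hz]
      simp) (by
      rw [hz]
      simp)
    obtain ⟨X, hX⟩ : ∃ X : ℝ, X = v.re + σ * (2335 / 10000) := ⟨_, rfl⟩
    obtain ⟨Y, hY⟩ : ∃ Y : ℝ, Y = v.im - 547 / 10000 := ⟨_, rfl⟩
    rw [← hX, ← hY] at hn
    have hv : v.re = X - σ * (2335 / 10000) := by linarith only [hX]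
    have hw : v.im = Y + 547 / 10000 := by linarith only [hY]
    have hX1 : |X| ≤ 15 / 1000 := abs_le_of_sq_le_sq (by linarith only [sq_nonneg Y, hn]) (by norm_num)
    have hY1 : |Y| ≤ 15 / 1000 := abs_le_of_sq_le_sq (by linarith only [sq_nonneg X, hn]) (by norm_num)
    have hXY : |σ * X + Y / 3| ≤ 16 / 1000 := by
      refine abs_le_of_sq_le_sq ?_ (by norm_num)
      have h5 : (σ * X + Y / 3) ^ 2 + (σ * X / 3 - Y) ^ 2 = 10 / 9 * (σ ^ 2 * X ^ 2 + Y ^ 2) := by ring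
      rw [hσ2] at h5
      linarith only [sq_nonneg (σ * X / 3 - Y), h5, hn]
    obtain ⟨hX2, hX3⟩ := abs_le.mp hX1
    obtain ⟨hY2, hY3⟩ := abs_le.mp hY1
    obtain ⟨hXY2, hXY3⟩ := abs_le.mp hXY
    have him : |v.im| ≤ 697 / 10000 := by
      rw [abs_le]
      constructor <;> linarith
    have hre : -σ * v.re = 2335 / 10000 - σ * X := by
      rw [hv]
      linear_combination (2335 / 10000) * hσ2
    have hσX : |σ * X| ≤ 15 / 1000 := by
      rcases hσ with h | h <;> rw [h]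
      · rwa [one_mul]
      · rwa [neg_one_mul, abs_neg]
    obtain ⟨hσX2, hσX3⟩ := abs_le.mp hσX
    refine ⟨by linarith only [hre, hXY3, hY2], by linarith only [hre, him, hXY3, hY2], by linarith only [hre,
                                                                                            hXY2,
                                                                                            hY3], ?_, by linarith only [him]⟩
    have h6 : 1 + 2 * (r : ℝ) * v.re - -σ / 3 * (2 * (r : ℝ) * v.im) =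
        1 - 4 * (2335 / 10000) + 4 / 3 * (547 / 10000) + 4 * (σ * X + Y / 3) := by
      rw [hrσ, hv, hw]
      linear_combination (-4 * (2335 / 10000) + 4 / 3 * (Y + 547 / 10000)) * hσ2
    rw [h6]
    linarith only [hXY2]
  · obtain ⟨ρ, hρ⟩ : ∃ ρ : ℝ, ρ = |(r : ℝ)| := ⟨_, rfl⟩
    have hρ3 : 3 ≤ ρ := by
      rw [hρ, ← Int.cast_abs]
      exact_mod_cast h3
    rw [← hρ] at hrσ ⊢
    have hρ0 : ρ ≠ 0 := by linarith only [hρ3]
    have h4 := hb.loc3 h3
    obtain ⟨t, ht⟩ : ∃ t : ℝ, t = 1 / ρ := ⟨_, rfl⟩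
    have ht0 : 0 < t := by
      rw [ht]
      positivity
    have ht3 : t ≤ 1 / 3 := by
      rw [ht]
      exact one_div_le_one_div_of_le (by norm_num) hρ3
    have hρt : ρ * t = 1 := by
      rw [ht]
      field_simp
    have hr2 : (r : ℝ) ^ 2 = ρ ^ 2 := by
      rw [hρ, sq_abs]
    have hr0 : (r : ℝ) ≠ 0 := by
      intro h5
      rw [h5] at hρ
      rw [abs_zero] at hρ
      exact hρ0 hρ
    have hinv : 1 / (2 * (r : ℝ)) = σ * t / 2 := by
      rw [div_eq_iff (by simpa using hr0), hrσ]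
      linear_combination (-1 : ℝ) * hσ2 * (ρ * t) - hρt
    have hinv2 : 1 / (r : ℝ) ^ 2 = t ^ 2 := by
      rw [hr2, ht]
      field_simp
    have hz : v + 1 / (2 * r) - ((r.sign : ℂ) * (25 / 1000) + 21 / 100 * I) / r ^ 2 =
        v + ((σ * t / 2 : ℝ) : ℂ) - (((σ * (25 / 1000) * t ^ 2 : ℝ) : ℂ) + ((21 / 100 * t ^ 2 : ℝ) : ℂ) * I) := by
      rw [← hinv, ← hinv2, ← hsig]
      push_cast
      ring
    have hc : 75 / 1000 / (r : ℝ) ^ 2 = 75 / 1000 * t ^ 2 := by
      rw [← hinv2]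
      ring
    rw [hc] at h4
    have hn := LocG_norm (x := v.re + σ * t / 2 - σ * (25 / 1000) * t ^ 2) (y := v.im - 21 / 100 * t ^ 2) _ h4 (by
      rw [hz]
      simp only [Complex.sub_re, Complex.add_re, Complex.ofReal_re, Complex.re_ofReal_mul, Complex.I_re]
      ring) (by
      rw [hz]
      simp only [Complex.sub_im, Complex.add_im, Complex.ofReal_im, Complex.im_ofReal_mul, Complex.I_im]
      ring)
    obtain ⟨X, hX⟩ : ∃ X : ℝ, X = v.re + σ * t / 2 - σ * (25 / 1000) * t ^ 2 := ⟨_, rfl⟩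
    obtain ⟨Y, hY⟩ : ∃ Y : ℝ, Y = v.im - 21 / 100 * t ^ 2 := ⟨_, rfl⟩
    rw [← hX, ← hY] at hn
    have hv : v.re = X - σ * t / 2 + σ * (25 / 1000) * t ^ 2 := by linarith only [hX]
    have hw : v.im = Y + 21 / 100 * t ^ 2 := by linarith only [hY]
    have ht2 : 0 < t ^ 2 := by positivity
    have hX1 : |X| ≤ 75 / 1000 * t ^ 2 := abs_le_of_sq_le_sq (by linarith only [sq_nonneg Y, hn]) (by positivity)
    have hY1 : |Y| ≤ 75 / 1000 * t ^ 2 := abs_le_of_sq_le_sq (by linarith only [sq_nonneg X, hn]) (by positivity)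
    have hXY : |σ * X + Y / 3| ≤ 8 / 100 * t ^ 2 := by
      refine abs_le_of_sq_le_sq ?_ (by positivity)
      have h5 : (σ * X + Y / 3) ^ 2 + (σ * X / 3 - Y) ^ 2 = 10 / 9 * (σ ^ 2 * X ^ 2 + Y ^ 2) := by ring
      rw [hσ2] at h5
      linarith only [sq_nonneg (t ^ 2), sq_nonneg (σ * X / 3 - Y), h5, hn]
    obtain ⟨hX2, hX3⟩ := abs_le.mp hX1
    obtain ⟨hY2, hY3⟩ := abs_le.mp hY1
    obtain ⟨hXY2, hXY3⟩ := abs_le.mp hXY
    have htt : t ^ 2 ≤ t / 3 := by (refine le_of_not_gt fun hng => ?_; linarith only [mul_pos (sub_pos.2 hng) (sub_pos.2 ht0),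
                                     mul_nonneg (sq_nonneg (t)) (sub_nonneg.2 ht3)])
    have him : |v.im| ≤ 285 / 1000 * t ^ 2 := by
      rw [abs_le]
      constructor <;> linarith
    have hre : -σ * v.re = t / 2 - 25 / 1000 * t ^ 2 - σ * X := by
      rw [hv]
      linear_combination (t / 2 - 25 / 1000 * t ^ 2) * hσ2
    have hσX : |σ * X| ≤ 75 / 1000 * t ^ 2 := by
      rcases hσ with h | h <;> rw [h]
      · rwa [one_mul]
      · rwa [neg_one_mul, abs_neg]
    obtain ⟨hσX2, hσX3⟩ := abs_le.mp hσX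
    refine ⟨by linarith only [hre, htt, hXY3, hY2, ht2], by linarith only [hre, him, htt, hXY3, hY2,
                                                              ht2], by linarith only [hre, htt,
                                                                         hXY2, hY3, ht2, ht3], ?_, ?_⟩
    · have h6 : 1 + 2 * (r : ℝ) * v.re - -σ / 3 * (2 * (r : ℝ) * v.im) =
          2 * ρ * (95 / 1000 * t ^ 2 + (σ * X + Y / 3)) := by
        rw [hrσ, hv, hw]
        linear_combination (-ρ * t + 50 / 1000 * ρ * t ^ 2 + 2 / 3 * ρ * (Y + 21 / 100 * t ^ 2)) * hσ2 - hρt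
      rw [h6]
      have h7 : 0 < 95 / 1000 * t ^ 2 + (σ * X + Y / 3) := by linarith only [hXY2, ht2]
      positivity
    · have h6 : 2 * ρ * |v.im| ≤ 2 * ρ * (285 / 1000 * t ^ 2) := by gcongr
      have h7 : 2 * ρ * (285 / 1000 * t ^ 2) = 570 / 1000 * t := by
        linear_combination (570 / 1000 * t) * hρt
      rw [h7] at h6
      linarith only [h6, htt, ht2, ht3]

private theorem LocG_bet {r : ℤ} {y v : ℂ} (h : 2 * Real.pi * I * (2 * r * v + 1) + hh (y - v) - hh (y + v) = 0) :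
    bet v (some y) / (2 * Real.pi) = 1 + 2 * r * v := by
  unfold bet
  rw [div_eq_iff (by simp)]
  linear_combination I * h - (2 * Real.pi * (2 * r * v + 1)) * I_sq

private theorem LocG_sl {r : ℤ} {y v : ℂ} (hr : 2 ≤ |r|) (y1 : 24 / 100 ≤ y.re) (y2 : y.re ≤ 34 / 100) (yi : |y.im| ≤ 35 / 1000)
    (v2 : |v.re| < 2 / (4 * |(r : ℝ)| - 1)) (v3 : |v.re| + 1 / 100 ≤ y.re) (v4 : 0 < v.im) (v5 : v.im ≤ 7 / 100) : Sl v y := by
  have hρ : 2 ≤ |(r : ℝ)| := by
    rw [← Int.cast_abs]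
    exact_mod_cast hr
  refine ⟨?_, ?_, y1, y2, yi, v3⟩
  · refine v2.trans_le ?_
    rw [div_le_div_iff₀ (by linarith only [hρ, v5, v4]) (by norm_num)]
    linarith only [hρ]
  · rw [abs_of_pos v4]
    exact v5

private theorem LocG_natAbs (r : ℤ) (hr : 2 ≤ |r|) : ((r.natAbs : ℕ) : ℂ) * (sgr r : ℂ) = -(r : ℂ) := by
  obtain ⟨σ, hσ, hs, hrσ, -⟩ := LocG_sgr r hr
  have hσ2 : σ ^ 2 = 1 := by rcases hσ with h | h <;> rw [h] <;> norm_num
  have h1 : ((r.natAbs : ℕ) : ℝ) = |(r : ℝ)| := by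
    rw [Nat.cast_natAbs, Int.cast_abs]
  have h2 : ((r.natAbs : ℕ) : ℝ) * sgr r = -(r : ℝ) := by
    rw [h1, hs]
    linear_combination hrσ
  exact_mod_cast congrArg (fun x : ℝ => (x : ℂ)) h2

private theorem LocG_kim {r : ℤ} {v : ℂ} (hr : 2 ≤ |r|) (h : 2 * |(r : ℝ)| * |v.im| < 3 / 10) {k : ℕ} (hk : k ≤ 2 * r.natAbs) :
    |((k : ℂ) * (sgr r * v)).im| < 3 / 10 ∧ |((k : ℂ) * (sgr r * v) + (1 + 2 * r * v)).im| < 3 / 10 := by
  have hN : ((r.natAbs : ℕ) : ℝ) = |(r : ℝ)| := by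
    rw [Nat.cast_natAbs, Int.cast_abs]
  have hkr : (k : ℝ) ≤ 2 * |(r : ℝ)| := by
    rw [← hN]
    exact_mod_cast hk
  have hk0 : (0 : ℝ) ≤ k := k.cast_nonneg
  obtain ⟨σ, hσ, hs, hrσ, -⟩ := LocG_sgr r hr
  have hσa : |(-σ)| = 1 := by rcases hσ with h | h <;> rw [h] <;> norm_num
  have e1 : ((k : ℂ) * (sgr r * v)).im = (k : ℝ) * (sgr r * v.im) := by
    have h5 : (k : ℂ) * (sgr r * v) = (((k : ℝ) : ℝ) : ℂ) * ((sgr r : ℂ) * v) := by push_cast; ring
    rw [h5, Complex.im_ofReal_mul, Complex.im_ofReal_mul]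
  constructor
  · rw [e1, hs, abs_mul, abs_mul, hσa, one_mul, abs_of_nonneg hk0]
    have h6 : (k : ℝ) * |v.im| ≤ 2 * |(r : ℝ)| * |v.im| := by gcongr
    linarith only [h6, h]
  · rw [Complex.add_im, (LocG_b r v).2, e1, hs]
    have h7 : (k : ℝ) * (-σ * v.im) + 2 * r * v.im = -σ * (k - 2 * |(r : ℝ)|) * v.im := by
      linear_combination (2 * v.im) * hrσ
    rw [h7, abs_mul, abs_mul, hσa, one_mul, abs_of_nonpos (by linarith only [hkr])]
    have h6 : -((k : ℝ) - 2 * |(r : ℝ)|) * |v.im| ≤ 2 * |(r : ℝ)| * |v.im| := by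
      have : -((k : ℝ) - 2 * |(r : ℝ)|) ≤ 2 * |(r : ℝ)| := by linarith only []
      gcongr
    linarith only [h6, h]

theorem critJ_of (r1 r2 : ℤ) (y v w : ℂ) (hc : CritG r1 r2 y v w)
    (hv : Blk r1 v (cos (Real.pi * w))) (hw : Blk r2 w (cos (Real.pi * v))) :
    CritJ 1 (sq r1 r2) (fun _ => y) (sq v w) := by
  obtain ⟨a1, a2, a3, a4, a5⟩ := locG_w r1 hc.h1 v _ hv
  obtain ⟨b1, b2, b3, b4, b5⟩ := locG_w r2 hc.h2 w _ hw
  have hbv := LocG_bet hc.ev
  have hbw := LocG_bet hc.ew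
  have i01 : ∀ i : ℕ, i ≤ 1 → i = 0 ∨ i = 1 := fun i hi => by omega
  have s0 : ∀ {α : Type} (a b : α), sq a b 0 = a := fun a b => if_pos rfl
  have s1 : ∀ {α : Type} (a b : α), sq a b 1 = b := fun a b => if_neg one_ne_zero
  have w0 : wI (sq r1 r2) (sq v w) 0 = sgr r1 * v := by
    unfold wI
    rw [s0, s0]
  have w1 : wI (sq r1 r2) (sq v w) 1 = sgr r2 * w := by
    unfold wI
    rw [s1, s1]
  have l0 : bL (fun _ => y) (sq v w) 0 = 0 := if_pos rfl
  have l1 : bL (fun _ => y) (sq v w) 1 = 1 + 2 * r2 * w := by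
    unfold bL
    rw [if_neg one_ne_zero, s1]
    exact hbw
  have q0 : bR 1 (fun _ => y) (sq v w) 0 = 1 + 2 * r1 * v := by
    unfold bR
    rw [if_neg zero_ne_one, s0]
    exact hbv
  have q1 : bR 1 (fun _ => y) (sq v w) 1 = 0 := if_pos rfl
  refine ⟨le_refl 1, ?_, ?_, ?_, ?_, ?_, ?_, ?_, ?_, ?_, ?_, pos_of r1 r2 y v w hc⟩
  · intro i hi
    rcases i01 i hi with rfl | rfl
    · rw [s0]
      exact hc.h1
    · rw [s1]
      exact hc.h2
  · intro j hj
    have : j = 0 := by omega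
    subst this
    rw [s0]
    exact LocG_sl hc.h1 hc.y1 hc.y2 hc.yi hc.v2 hc.v3 hc.v4 hc.v5
  · intro j hj
    have : j = 0 := by omega
    subst this
    rw [zero_add, s1]
    exact LocG_sl hc.h2 hc.y1 hc.y2 hc.yi hc.w2 hc.w3 hc.w4 hc.w5
  · intro i hi
    rcases i01 i hi with rfl | rfl
    · rw [w0]
      exact a2
    · rw [w1]
      exact b2
  · intro i hi
    rcases i01 i hi with rfl | rfl
    · rw [w0]
      exact a3
    · rw [w1]
      exact b3
  · intro i hi hi1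
    have : i = 1 := by omega
    subst this
    rw [s1, l1]
    exact b4
  · intro i hi
    have : i = 0 := by omega
    subst this
    rw [s0, q0]
    exact a4
  · intro i hi k hk
    rcases i01 i hi with rfl | rfl
    · rw [s0] at hk
      rw [w0, l0, add_zero]
      exact (LocG_kim hc.h1 a5 hk).1
    · rw [s1] at hk
      rw [w1, l1]
      exact (LocG_kim hc.h2 b5 hk).2
  · intro j hj
    have : j = 0 := by omega
    subst this
    rw [zero_add, s0, s1]
    unfold mm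
    linear_combination (1 / 2 : ℂ) * hc.ey
  · intro i hi
    rcases i01 i hi with rfl | rfl
    · rw [w0, l0, q0, s0]
      linear_combination (2 * v) * LocG_natAbs r1 hc.h1
    · rw [w1, l1, q1, s1]
      linear_combination (2 * w) * LocG_natAbs r2 hc.h2

theorem VI_sq (r1 r2 : ℤ) (y v w : ℂ) :
    VI 1 (sq r1 r2) (fun _ => y) (sq v w) = Vf r1 r2 y v w := by
  have s0 : ∀ {α : Type} (a b : α), sq a b 0 = a := fun a b => if_pos rfl
  have s1 : ∀ {α : Type} (a b : α), sq a b 1 = b := fun a b => if_neg one_ne_zero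
  unfold VI Vf
  rw [Finset.sum_range_one, Finset.sum_range_succ, Finset.sum_range_one]
  simp only [zero_add, s0, s1]
  ring

end Pool.Agent.H63.GV
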