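import Pool.Agent.H63.VC4.ChainSum
import Pool.Agent.H63.VC4.Checks
import Pool.Agent.H63.VC4.RSB

/-! # The invariants of the mirror images -/

namespace Pool.Agent.H63.GV

open Pool.Agent.H63.VC Pool.Agent.H63.VC3 Pool.Agent.H63.VC4 Complex Filter Topology
open scoped BigOperators

private theorem Mir_NN_neg (r : ℤ) (hr : r ≠ 0) (n M k : ℕ) :
    NN (-r) n M k = -(starRingEnd ℂ) (NN r n M k) := by
  unfold NN
  rcases lt_or_gt_of_ne hr with h | h
  · rw [if_pos (by omega), if_neg (by omega)]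
    simp
  · rw [if_neg (by omega), if_pos h]
    simp

theorem JN_neg (r1 r2 : ℤ) (h1 : r1 ≠ 0) (h2 : r2 ≠ 0) (n g M : ℕ) :
    JN (-r1) (-r2) n g M = (starRingEnd ℂ) (JN r1 r2 n g M) := by
  unfold JN
  rw [map_sum]
  refine Finset.sum_congr rfl fun k _ => ?_
  rw [Mir_NN_neg r1 h1, Mir_NN_neg r2 h2, map_mul, map_mul, Complex.conj_ofReal]
  ring

private theorem Mir_Th0 (n M : ℕ) : (starRingEnd ℂ) (Th0 n M) = -Th0 n M := by
  unfold Th0
  simp

private theorem Mir_RG (r : ℤ) (hr : r ≠ 0) (n M k : ℕ) :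
    RG (-r) n M k 0 = (starRingEnd ℂ) (RG r n M k 0) := by
  have hc : c1 n M ≠ 0 := by
    intro h
    have := norm_c1 n M
    rw [h, norm_zero] at this
    exact zero_ne_one this
  have e : ∀ s : ℤ, RG s n M k 0 = Th0 n M * NN s n M k / S M k := by
    intro s
    unfold RG
    rw [Nat.mul_zero, Nat.add_zero, Nat.sub_zero, div_self hc, one_zpow, mul_one]
  rw [e, e, Mir_NN_neg r hr, map_div₀, map_mul, Mir_Th0, Complex.conj_ofReal]
  ring

private theorem Mir_RSo (r : ℤ) (hr : r ≠ 0) (n M t : ℕ) (ht : t + n ≤ M + 1) :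
    RSo (-r) n M none (some t) = (starRingEnd ℂ) (RSo r n M none (some t)) ∧
    RSo (-r) n M (some t) none = (starRingEnd ℂ) (RSo r n M (some t) none) := by
  have e : ∀ s : ℤ, RSo s n M none (some t) = RG s n M t 0 := by
    intro s
    unfold RSo RS
    simp only [Option.getD_none, Option.getD_some]
    rw [if_pos (by omega), min_eq_right (by omega), max_eq_left (by omega), Nat.sub_self]
  have e' : ∀ s : ℤ, RSo s n M (some t) none = RG s n M t 0 := by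
    intro s
    rw [RSo_symm]
    exact e s
  rw [e, e, e', e']
  exact ⟨Mir_RG r hr n M t, Mir_RG r hr n M t⟩

private theorem Mir_Cc (n g M k : ℕ) (hg : 1 ≤ g) (hgn : g ≤ n - 1) (hk : k + n ≤ M + 1)
    (hn : 2 ≤ n) (hM : n ≤ M) :
    (starRingEnd ℂ) (Cc n g M (yk n M k)) = Cc n g M (yk n M k) := by
  have h := T_Cc n g M k hg hgn hk hn
  have h1 : S M (g - 1) ≠ 0 := (S_pos (by omega)).ne'
  have h2 : S M (n - g - 1) ≠ 0 := (S_pos (by omega)).ne'
  have h3 : S M (n - 2) ≠ 0 := (S_pos (by omega)).ne'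
  have h4 : ((S M (g - 1) : ℂ) * S M (n - g - 1) * S M (n - 2)) ≠ 0 := by
    refine mul_ne_zero (mul_ne_zero ?_ ?_) ?_ <;> exact_mod_cast (by assumption)
  rw [eq_div_iff h4] at h
  rw [← h]
  simp

private theorem Mir_JC (r : ℕ → ℤ) (h0 : r 0 ≠ 0) (h1 : r 1 ≠ 0) (n g M : ℕ) (hn : 2 ≤ n)
    (hg : 1 ≤ g) (hgn : g ≤ n - 1) (hM : n ≤ M) :
    JC (m := 1) (fun i => -r i) n g M = (starRingEnd ℂ) (JC (m := 1) (fun i => r i) n g M) := by
  unfold JC
  rw [map_sum]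
  refine Finset.sum_congr rfl fun t ht => ?_
  rw [Fintype.mem_piFinset] at ht
  have ht0 := Finset.mem_range.1 (ht 0)
  rw [map_mul, map_prod, map_prod, Fin.prod_univ_two, Fin.prod_univ_two, Fin.prod_univ_one,
    Fin.prod_univ_one, Mir_Cc n g M (t 0) hg hgn (by omega) hn hM]
  have a1 : ext t (0 : Fin 2).castSucc = none := rfl
  have a2 : ext t (0 : Fin 2).succ = some (t 0) := ext_mid t 0
  have a3 : ext t (1 : Fin 2).castSucc = some (t 0) := ext_mid' t 0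
  have a4 : ext t (1 : Fin 2).succ = none := ext_last_succ t
  rw [a1, a2, a3, a4]
  have b0 := (Mir_RSo (r 0) h0 n M (t 0) (by omega)).1
  have b1 := (Mir_RSo (r 1) h1 n M (t 0) (by omega)).2
  show Cc n g M (yk n M (t 0)) * (RSo (-r 0) n M none (some (t 0)) *
      RSo (-r 1) n M (some (t 0)) none) =
    Cc n g M (yk n M (t 0)) * ((starRingEnd ℂ) (RSo (r 0) n M none (some (t 0))) *
      (starRingEnd ℂ) (RSo (r 1) n M (some (t 0)) none))
  rw [b0, b1]

theorem suChain_neg (r1 r2 : ℤ) (h1 : r1 ≠ 0) (h2 : r2 ≠ 0) (n g N : ℕ) (hn : 2 ≤ n)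
    (hg : 1 ≤ g) (hgn : g ≤ n - 1) (hN : n ≤ N) :
    suChain [-r1, -r2] n N (exp (Real.pi * I / ((N + g : ℕ) : ℂ))) =
      (starRingEnd ℂ) (suChain [r1, r2] n N (exp (Real.pi * I / ((N + g : ℕ) : ℂ)))) := by
  obtain ⟨r, hr⟩ : ∃ r : ℕ → ℤ, r = fun i => if i = 0 then r1 else r2 := ⟨_, rfl⟩
  have e1 : [-r1, -r2] = (List.range (2 * 0 + 2)).map (fun i => -r i) := by
    rw [hr]; rfl
  have e2 : [r1, r2] = (List.range (2 * 0 + 2)).map r := by
    rw [hr]; rfl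
  have g0 : r 0 ≠ 0 := by rw [hr]; simpa using h1
  have g1 : r 1 ≠ 0 := by rw [hr]; simpa using h2
  rw [e1, e2, chain_eq 0 (fun i => -r i) n g N hn hg hgn hN, chain_eq 0 r n g N hn hg hgn hN]
  have hJ := Mir_JC r g0 g1 n g (N + g) hn hg hgn (by omega)
  rw [map_div₀]
  have hd : (starRingEnd ℂ) (((N + g : ℕ) : ℂ) ^ (4 * 0) * Dg n g (N + g)) =
      ((N + g : ℕ) : ℂ) ^ (4 * 0) * Dg n g (N + g) := by
    rw [map_mul, map_pow, map_natCast, Complex.conj_ofReal]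
  rw [hd]
  congr 1

private theorem Mir_pos (p : ℕ) (r : ℤ) (hp : 1 ≤ p) (hr : r ≠ 0) (n g N : ℕ) (hn : 2 ≤ n)
    (hg : 1 ≤ g) (hgn : g ≤ n - 1) :
    suChain [(p : ℤ), r] n N (exp (Real.pi * I / ((N + g : ℕ) : ℂ))) =
      -JN p r n g (N + g) := by
  rw [suChain_two p r n N _ (exp_ne_zero _)]
  unfold suK
  rcases le_or_gt 0 r with h | h
  · obtain ⟨q, rfl⟩ := Int.eq_ofNat_of_zero_le h
    rw [homflyK_same]
    exact same_eq p q n g N hp (by omega) hn hg hgn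
  · obtain ⟨q, hq⟩ := Int.eq_ofNat_of_zero_le (by omega : 0 ≤ -r)
    obtain rfl : r = -(q : ℤ) := by omega
    rw [homflyK_opp p q N (by omega)]
    exact opp_eq p q n g N hp (by omega) hn hg hgn

theorem suChain_JN (r1 r2 : ℤ) (h1 : r1 ≠ 0) (h2 : r2 ≠ 0) (n g N : ℕ) (hn : 2 ≤ n)
    (hg : 1 ≤ g) (hgn : g ≤ n - 1) (hN : n ≤ N) :
    suChain [r1, r2] n N (exp (Real.pi * I / (N + g))) = -JN r1 r2 n g (N + g) := by
  have ec : ((N : ℂ) + g) = ((N + g : ℕ) : ℂ) := by push_cast; rfl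
  rw [ec]
  rcases lt_or_gt_of_ne h1 with h | h
  · obtain ⟨p, hp⟩ := Int.eq_ofNat_of_zero_le (by omega : 0 ≤ -r1)
    have hs := suChain_neg (-r1) (-r2) (by omega) (by omega) n g N hn hg hgn hN
    have hj := JN_neg (-r1) (-r2) (by omega) (by omega) n g (N + g)
    rw [neg_neg, neg_neg] at hs hj
    rw [hs, hj, hp, Mir_pos p (-r2) (by omega) (by omega) n g N hn hg hgn, map_neg]
  · obtain ⟨p, hp⟩ := Int.eq_ofNat_of_zero_le h.le
    rw [hp]
    exact Mir_pos p r2 (by omega) h2 n g N hn hg hgn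

end Pool.Agent.H63.GV
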