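import Pool.Agent.H63.GO.Tra2
import Pool.Agent.H63.VC5.CVDefs

/-! # The potential of a block with two full twists -/

namespace Pool.Agent.H63.GV

open Pool.Agent.H63.VC Pool.Agent.H63.VC3 Pool.Agent.H63.VC5 Pool.Agent.H63.GO Complex Filter
  Topology

/-- The path of `v`. -/
noncomputable def TCV_v (s : ℤ) (d t : ℂ) : ℂ := -(s : ℂ) / 4 + t * d

/-- `2 cos (2 π v)` along the path. -/
noncomputable def TCV_D (s : ℤ) (d t : ℂ) : ℂ := 2 * cos (2 * Real.pi * TCV_v s d t)

/-- `-exp (2 π i s y)` as a function of `D`. -/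
noncomputable def TCV_Q (D : ℂ) : ℂ := (1 - D - D ^ 2) / (1 + D)

/-- The path of `y`. -/
noncomputable def TCV_y (s : ℤ) (d t : ℂ) : ℂ :=
  1 / 2 + s * log (TCV_Q (TCV_D s d t)) / (2 * Real.pi * I)

/-- The path of `z`. -/
noncomputable def TCV_z (s : ℤ) (d t : ℂ) : ℂ :=
  1 / 2 + s * log (1 + TCV_D s d t) / (2 * Real.pi * I)

/-- The difference of the potentials. -/
noncomputable def TCV_F (s : ℤ) (y z v : ℂ) : ℂ :=
  -ff z - ff (y + 1 / 2 - z) + Real.pi * I * s * (((y + 1 / 2) ^ 2 - 3 * (y + 1 / 2)) / 2 +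
    z ^ 2 + z * (y + 1 / 2) - 2 * z) + ff (y - v) + ff (y + v) - 2 * Real.pi * I * (2 * s * v ^ 2 + v)

private theorem TCV_Dval (s : ℤ) (hs : s = 1 ∨ s = -1) (d t : ℂ) :
    TCV_D s d t = 2 * sin (2 * Real.pi * (t * (s * d))) := by
  unfold TCV_D TCV_v
  congr 1
  rcases hs with rfl | rfl
  · have : 2 * Real.pi * (-((1 : ℤ) : ℂ) / 4 + t * d) = 2 * Real.pi * (t * (((1 : ℤ) : ℂ) * d)) -
        Real.pi / 2 := by push_cast; ring
    rw [this, Complex.cos_sub_pi_div_two]
  · have : 2 * Real.pi * (-((-1 : ℤ) : ℂ) / 4 + t * d) =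
        Real.pi / 2 - 2 * Real.pi * (t * (((-1 : ℤ) : ℂ) * d)) := by push_cast; ring
    rw [this, Complex.cos_pi_div_two_sub]

private theorem TCV_cosh (x : ℝ) (hx : |x| ≤ 438 / 1000) : Real.cosh x ≤ 1107 / 1000 := by
  have h1 := Real.cosh_le_exp_half_sq x
  have h2 : x ^ 2 / 2 ≤ 96 / 1000 := by
    have := sq_le_sq' (neg_le_of_abs_le hx) (le_of_abs_le hx)
    linarith only [this]
  have h3 : Real.exp (x ^ 2 / 2) ≤ Real.exp (96 / 1000) := Real.exp_le_exp.2 h2
  have h4 : Real.exp (96 / 1000) ≤ 1107 / 1000 := by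
    have h5 := Real.add_one_le_exp (-(96 / 1000) : ℝ)
    rw [Real.exp_neg] at h5
    have h6 := Real.exp_pos (96 / 1000)
    rw [le_inv_comm₀ (by norm_num) h6] at h5
    refine h5.trans ?_
    norm_num
  linarith only [h4, h3, h1]

/-- The region of `D`. -/
private theorem TCV_region (s : ℤ) (hs : s = 1 ∨ s = -1) (d : ℂ)
    (d1 : 0 ≤ s * d.re) (d2 : s * d.re ≤ 315 / 10000) (d3 : 0 < d.im) (d4 : d.im ≤ 697 / 10000)
    (u : ℝ) (u0 : 0 ≤ u) (u1 : u ≤ 1) :
    0 ≤ (TCV_D s d u).re ∧ (TCV_D s d u).re ≤ 44 / 100 ∧ (TCV_D s d u).im ^ 2 ≤ 91 / 100 ∧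
      (0 < u → 0 < s * (TCV_D s d u).im) := by
  have hp := Real.pi_pos
  have hp2 := Real.pi_lt_d4
  set α : ℝ := 2 * Real.pi * (u * (s * d.re)) with hα
  set β : ℝ := 2 * Real.pi * (u * (s * d.im)) with hβ
  have hw : (2 * Real.pi * ((u : ℂ) * (s * d)) : ℂ) = (α : ℂ) + (β : ℂ) * I := by
    apply Complex.ext
    · simp [hα, hβ]
    · simp [hα, hβ]
  have hD : TCV_D s d u = ((2 * (Real.sin α * Real.cosh β) : ℝ) : ℂ) +
      ((2 * (Real.cos α * Real.sinh β) : ℝ) : ℂ) * I := by
    rw [TCV_Dval s hs, hw, Complex.sin_add_mul_I]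
    push_cast
    ring
  have hre : (TCV_D s d u).re = 2 * (Real.sin α * Real.cosh β) := by
    rw [hD, Complex.add_re, Complex.ofReal_re, Complex.re_ofReal_mul, Complex.I_re]; ring
  have him : (TCV_D s d u).im = 2 * (Real.cos α * Real.sinh β) := by
    rw [hD, Complex.add_im, Complex.ofReal_im, Complex.im_ofReal_mul, Complex.I_im]; ring
  have hus : u * (s * d.re) ≤ 315 / 10000 := by (refine le_of_not_gt fun hng => ?_; linarith only [d2,
                                                  mul_nonneg (sub_nonneg.2 d1) (sub_nonneg.2 u1),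
                                                  mul_nonneg (sub_nonneg.2 hng.le) (sub_nonneg.2 d4),
                                                  mul_pos (sub_pos.2 hng) (sub_pos.2 d3)])
  have hus0 : 0 ≤ u * (s * d.re) := mul_nonneg u0 d1
  have hα0 : 0 ≤ α := by rw [hα]; positivity
  have hα1 : α ≤ 198 / 1000 := by rw [hα]; (refine le_of_not_gt fun hng => ?_; linarith only [hp2,
                                             d4, mul_nonneg (sub_nonneg.2 hp.le) (sub_nonneg.2 hus),
                                             mul_nonneg (sub_nonneg.2 d3.le) (sub_nonneg.2 d4),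
                                             mul_pos (sub_pos.2 d3) (sub_pos.2 d3),
                                             mul_nonneg (sub_nonneg.2 hng.le) (sub_nonneg.2 d4),
                                             mul_pos (sub_pos.2 hng) (sub_pos.2 d3)])
  have hss : |(s : ℝ)| = 1 := by
    rcases hs with rfl | rfl <;> norm_num
  have hβ1 : |β| ≤ 438 / 1000 := by
    have h1 : |β| = 2 * Real.pi * (u * d.im) := by
      rw [hβ, abs_mul, abs_mul, abs_mul, abs_mul, hss, abs_of_pos hp, abs_of_nonneg u0,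
        abs_of_pos d3, one_mul, abs_two]
    rw [h1]
    have h2 : u * d.im ≤ 697 / 10000 := by (refine le_of_not_gt fun hng => ?_; linarith only [d4,
                                             mul_nonneg (sub_nonneg.2 d3.le) (sub_nonneg.2 u1),
                                             mul_nonneg (sub_nonneg.2 hng.le) (sub_nonneg.2 d4),
                                             mul_pos (sub_pos.2 hng) (sub_pos.2 d3)])
    have h3 : 0 ≤ u * d.im := mul_nonneg u0 d3.le
    (refine le_of_not_gt fun hng => ?_; linarith only [hp2, d4,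
      mul_nonneg (sub_nonneg.2 hp.le) (sub_nonneg.2 h2),
      mul_nonneg (sub_nonneg.2 d3.le) (sub_nonneg.2 d4), mul_pos (sub_pos.2 d3) (sub_pos.2 d3),
      mul_nonneg (sub_nonneg.2 hng.le) (sub_nonneg.2 d4), mul_pos (sub_pos.2 hng) (sub_pos.2 d3)])
  have hch := TCV_cosh β hβ1
  have hch1 := Real.one_le_cosh β
  have hs0 : 0 ≤ Real.sin α := Real.sin_nonneg_of_nonneg_of_le_pi hα0 (by linarith only [Real.pi_gt_three,
                                                                            hα1, d4, d3])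
  have hs1 : Real.sin α ≤ α := Real.sin_le hα0
  have hc0 : 0 < Real.cos α := Real.cos_pos_of_mem_Ioo ⟨by linarith only [hα0, hp], by linarith only [Real.pi_gt_three,
                                                                                         hα1, d4,
                                                                                         d3]⟩
  have hc1 : Real.cos α ≤ 1 := Real.cos_le_one α
  refine ⟨?_, ?_, ?_, ?_⟩
  · rw [hre]; positivity
  · rw [hre]
    have : Real.sin α * Real.cosh β ≤ 198 / 1000 * (1107 / 1000) :=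
      mul_le_mul (hs1.trans hα1) hch (by linarith only [hch1, d4, d3]) (by norm_num)
    linarith only [this, d4, d3]
  · rw [him]
    have h1 := Real.cosh_sq β
    have h2 : Real.cosh β ^ 2 ≤ (1107 / 1000) ^ 2 := by
      apply pow_le_pow_left₀ (by linarith only [hch1, d4, d3]) hch
    have h3 : Real.sinh β ^ 2 ≤ 226 / 1000 := by linarith only [h2, h1, d4, d3]
    have h4 : Real.cos α ^ 2 ≤ 1 := by (refine le_of_not_gt fun hng => ?_; linarith only [hc1,
                                         mul_nonneg (sub_nonneg.2 hc0.le) (sub_nonneg.2 hc1),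
                                         mul_nonneg (sub_nonneg.2 hng.le) (sub_nonneg.2 d4),
                                         mul_pos (sub_pos.2 hng) (sub_pos.2 d3)])
    have h5 : Real.cos α ^ 2 * Real.sinh β ^ 2 ≤ 1 * (226 / 1000) :=
      mul_le_mul h4 h3 (sq_nonneg _) (by norm_num)
    linarith only [h5, d4, d3]
  · intro hu
    rw [him]
    have h1 : 0 < s * Real.sinh β := by
      have h2 : s * Real.sinh β = Real.sinh (2 * Real.pi * (u * d.im)) := by
        rw [hβ]
        rcases hs with rfl | rfl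
        · simp
        · have : 2 * Real.pi * (u * (((-1 : ℤ) : ℝ) * d.im)) = -(2 * Real.pi * (u * d.im)) := by
            push_cast; ring
          rw [this, Real.sinh_neg]; push_cast; ring
      rw [h2]
      exact Real.sinh_pos_iff.2 (by positivity)
    have : (s : ℝ) * (2 * (Real.cos α * Real.sinh β)) = 2 * Real.cos α * (s * Real.sinh β) := by ring
    rw [this]
    positivity

/-- The signs of the numbers of the path. -/
private theorem TCV_signs (s : ℤ) (D : ℂ) (a0 : 0 ≤ D.re) (a1 : D.re ≤ 44 / 100)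
    (b1 : D.im ^ 2 ≤ 91 / 100) :
    0 < (1 + D).re ∧ 0 < (TCV_Q D).re ∧ (0 < s * D.im → s * (TCV_Q D).im < 0) := by
  have h1 : 0 < (1 + D).re := by rw [Complex.add_re, Complex.one_re]; linarith only [a0]
  have hn : 0 < Complex.normSq (1 + D) := by
    rw [Complex.normSq_pos]
    intro h
    rw [h] at h1
    simp at h1
  have hN : Complex.normSq (1 + D) = (1 + D.re) ^ 2 + D.im ^ 2 := by
    rw [Complex.normSq_apply]; simp; ring
  have e1 : (1 - D - D ^ 2).re = 1 - D.re - (D.re ^ 2 - D.im ^ 2) := by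
    rw [pow_two]; simp; ring
  have e2 : (1 - D - D ^ 2).im = -D.im - 2 * D.re * D.im := by
    rw [pow_two]; simp; ring
  have hr : (TCV_Q D).re = (1 + D.re - D.re * ((1 + D.re) ^ 2 + D.im ^ 2)) /
      Complex.normSq (1 + D) := by
    unfold TCV_Q
    rw [Complex.div_re, e1, e2, ← add_div]
    congr 1
    simp
    ring
  have hi : (TCV_Q D).im = -(D.im * (1 + ((1 + D.re) ^ 2 + D.im ^ 2))) / Complex.normSq (1 + D) := by
    unfold TCV_Q
    rw [Complex.div_im, e1, e2, ← sub_div]
    congr 1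
    simp
    ring
  refine ⟨h1, ?_, ?_⟩
  · rw [hr]
    apply div_pos _ hn
    have : D.re * ((1 + D.re) ^ 2 + D.im ^ 2) ≤ 44 / 100 * ((1 + 44 / 100) ^ 2 + 91 / 100) := by
      apply mul_le_mul a1 _ (by positivity) (by norm_num)
      linarith only [b1, a1, mul_nonneg (sub_nonneg.2 a0) (sub_nonneg.2 a1)]
    (refine lt_of_not_ge fun hng => ?_; linarith only [hng, sq_nonneg (D.im),
      mul_nonneg (sq_nonneg (D.im)) (sub_nonneg.2 a1),
      mul_nonneg (sq_nonneg (1 * 1 + 1 * D.re)) (sub_nonneg.2 this),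
      mul_nonneg (sq_nonneg (1 * 1 + 1 * D.re)) (sub_nonneg.2 b1),
      mul_nonneg (sq_nonneg (1 * 1 + 1 * D.re)) (sub_nonneg.2 hng),
      mul_nonneg (sq_nonneg (D.re)) (sub_nonneg.2 a0),
      mul_nonneg (sq_nonneg (D.re)) (sq_nonneg (D.im))])
  · intro h
    rw [hi]
    have : (s : ℝ) * (-(D.im * (1 + ((1 + D.re) ^ 2 + D.im ^ 2))) / Complex.normSq (1 + D)) =
        -((s * D.im) * (1 + ((1 + D.re) ^ 2 + D.im ^ 2)) / Complex.normSq (1 + D)) := by ring
    rw [this]
    have : 0 < (s * D.im) * (1 + ((1 + D.re) ^ 2 + D.im ^ 2)) / Complex.normSq (1 + D) := by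
      positivity
    linarith only [this]

private theorem TCV_re (s : ℤ) (L : ℂ) :
    (1 / 2 + s * L / (2 * Real.pi * I)).re = 1 / 2 + s * L.im / (2 * Real.pi) := by
  have hp := Real.pi_pos
  have : (1 / 2 + s * L / (2 * Real.pi * I) : ℂ) = ((1 / 2 : ℝ) : ℂ) + ((s / (2 * Real.pi) : ℝ) : ℂ) *
      (L * -I) := by
    have hI : (I : ℂ)⁻¹ = -I := Complex.inv_I
    push_cast
    rw [← hI]
    field_simp
  rw [this, Complex.add_re, Complex.ofReal_re, Complex.re_ofReal_mul]
  simp
  ring

private theorem TCV_arg (w : ℂ) (h : 0 < w.re) : |(log w).im| ≤ |w.im| / w.re := by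
  rw [Complex.log_im]
  have h1 : |arg w| < Real.pi / 2 := Complex.abs_arg_lt_pi_div_two_iff.2 (Or.inl h)
  have h2 := Real.le_tan (abs_nonneg (arg w)) h1
  have h3 : Real.tan |arg w| = |w.im| / w.re := by
    have h4 : Real.tan |arg w| = |Real.tan (arg w)| := by
      rcases abs_cases (arg w) with ⟨e, he⟩ | ⟨e, he⟩
      · rw [e, abs_of_nonneg]
        rw [e] at h1
        exact Real.tan_nonneg_of_nonneg_of_le_pi_div_two he h1.le
      · rw [e, Real.tan_neg, abs_of_nonpos]
        rw [e] at h1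
        exact Real.tan_nonpos_of_nonpos_of_neg_pi_div_two_le he.le (by linarith only [h1])
    rw [h4, Complex.tan_arg, abs_div, abs_of_pos h]
  rw [h3] at h2
  exact h2

/-- The real parts along the path. -/
private theorem TCV_reals (s : ℤ) (hs : s = 1 ∨ s = -1) (d : ℂ)
    (d1 : 0 ≤ s * d.re) (d2 : s * d.re ≤ 315 / 10000) (d3 : 0 < d.im) (d4 : d.im ≤ 697 / 10000)
    (u : ℝ) (u0 : 0 ≤ u) (u1 : u ≤ 1) :
    1 / 4 < (TCV_y s d u).re ∧ (TCV_y s d u).re ≤ 1 / 2 ∧ (0 < u → (TCV_y s d u).re < 1 / 2) ∧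
      4 / 10 ≤ (TCV_z s d u).re ∧ (TCV_z s d u).re ≤ 7 / 10 ∧
      |(TCV_v s d u).re| ≤ 1 / 4 := by
  have hp := Real.pi_pos
  have hp3 := Real.pi_gt_three
  obtain ⟨a0, a1, b1, b2⟩ := TCV_region s hs d d1 d2 d3 d4 u u0 u1
  obtain ⟨q1, q2, q3⟩ := TCV_signs s _ a0 a1 b1
  have hss : |(s : ℝ)| = 1 := by
    rcases hs with rfl | rfl <;> norm_num
  have hy : (TCV_y s d u).re = 1 / 2 + s * (log (TCV_Q (TCV_D s d u))).im / (2 * Real.pi) :=
    TCV_re s _
  have hz : (TCV_z s d u).re = 1 / 2 + s * (log (1 + TCV_D s d u)).im / (2 * Real.pi) :=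
    TCV_re s _
  have hL : |s * (log (TCV_Q (TCV_D s d u))).im| < Real.pi / 2 := by
    rw [abs_mul, hss, one_mul, Complex.log_im]
    exact Complex.abs_arg_lt_pi_div_two_iff.2 (Or.inl q2)
  have hLs : 0 < u → s * (log (TCV_Q (TCV_D s d u))).im < 0 := by
    intro hu
    have h := q3 (b2 hu)
    rw [Complex.log_im]
    rcases hs with rfl | rfl
    · have h' : (TCV_Q (TCV_D 1 d u)).im < 0 := by simpa using h
      have := Complex.arg_neg_iff.2 h'
      simpa using this
    · have h' : 0 < (TCV_Q (TCV_D (-1) d u)).im := by simpa using h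
      have h1 : 0 < arg (TCV_Q (TCV_D (-1) d u)) := by
        have h2 := Complex.arg_nonneg_iff.2 h'.le
        rcases h2.lt_or_eq with h3 | h3
        · exact h3
        · exfalso
          have := Complex.arg_eq_zero_iff.1 h3.symm
          linarith only [this.2, h']
      simpa using h1
  have hy0 : s * (log (TCV_Q (TCV_D s d u))).im ≤ 0 := by
    rcases u0.lt_or_eq with h | h
    · exact (hLs h).le
    · have : TCV_D s d u = 0 := by
        rw [TCV_Dval s hs, ← h]; simp
      rw [this]
      simp [TCV_Q]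
  have hZ : |s * (log (1 + TCV_D s d u)).im| ≤ 96 / 100 := by
    rw [abs_mul, hss, one_mul]
    refine (TCV_arg _ q1).trans ?_
    rw [div_le_iff₀ q1]
    have e1 : (1 + TCV_D s d u).im = (TCV_D s d u).im := by simp
    have e2 : (1 + TCV_D s d u).re = 1 + (TCV_D s d u).re := by simp
    rw [e1, e2]
    have : |(TCV_D s d u).im| ≤ 96 / 100 := by
      apply abs_le_of_sq_le_sq _ (by norm_num)
      linarith only [b1, d4, d3]
    linarith only [this, a0]
  have hZs : 0 ≤ s * (log (1 + TCV_D s d u)).im := by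
    rcases u0.lt_or_eq with h | h
    · have hb := b2 h
      rw [Complex.log_im]
      rcases hs with rfl | rfl
      · have h' : 0 ≤ (1 + TCV_D 1 d u).im := by
          rw [Complex.add_im, Complex.one_im, zero_add]
          simpa using hb.le
        simpa using Complex.arg_nonneg_iff.2 h'
      · have h' : (1 + TCV_D (-1) d u).im < 0 := by
          rw [Complex.add_im, Complex.one_im, zero_add]
          simpa using hb
        have := (Complex.arg_neg_iff.2 h').le
        simpa using this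
    · have : TCV_D s d u = 0 := by
        rw [TCV_Dval s hs, ← h]; simp
      rw [this]
      simp
  obtain ⟨l1, l2⟩ := abs_lt.1 hL
  obtain ⟨z1, z2⟩ := abs_le.1 hZ
  refine ⟨?_, ?_, ?_, ?_, ?_, ?_⟩
  · rw [hy]
    have : -(1 / 4) < s * (log (TCV_Q (TCV_D s d u))).im / (2 * Real.pi) := by
      rw [lt_div_iff₀ (by positivity)]; linarith only [l1]
    linarith only [this]
  · rw [hy]
    have : s * (log (TCV_Q (TCV_D s d u))).im / (2 * Real.pi) ≤ 0 := by
      rw [div_le_iff₀ (by positivity)]; linarith only [hy0]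
    linarith only [this]
  · intro hu
    rw [hy]
    have : s * (log (TCV_Q (TCV_D s d u))).im / (2 * Real.pi) < 0 := by
      rw [div_lt_iff₀ (by positivity)]; linarith only [hLs hu]
    linarith only [this]
  · rw [hz]
    have : 0 ≤ s * (log (1 + TCV_D s d u)).im / (2 * Real.pi) := by positivity
    linarith only [this, d4, d3]
  · rw [hz]
    have : s * (log (1 + TCV_D s d u)).im / (2 * Real.pi) ≤ 1 / 6 := by
      rw [div_le_iff₀ (by positivity)]; linarith only [z2, hp3, d4, d3]
    linarith only [this, d4, d3]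
  · have : (TCV_v s d u).re = -(s : ℝ) / 4 + u * d.re := by
      unfold TCV_v
      simp
    rw [this]
    have h1 : |-(s : ℝ) / 4 + u * d.re| = |-(1 / 4) + u * (s * d.re)| := by
      rcases hs with rfl | rfl
      · push_cast; congr 1; ring
      · rw [← abs_neg]; push_cast; congr 1; ring
    rw [h1, abs_le]
    have h2 : 0 ≤ u * (s * d.re) := mul_nonneg u0 d1
    have h3 : u * (s * d.re) ≤ 315 / 10000 := by (refine le_of_not_gt fun hng => ?_; linarith only [d2,
                                                   mul_nonneg (sub_nonneg.2 d1) (sub_nonneg.2 u1),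
                                                   mul_nonneg (sub_nonneg.2 hng.le) (sub_nonneg.2 d4),
                                                   mul_pos (sub_pos.2 hng) (sub_pos.2 d3)])
    constructor <;> linarith

/-- The relation for `exp (2 π i s y)` along the path. -/
private theorem TCV_rel (s : ℤ) (hs : s = 1 ∨ s = -1) (D : ℂ) (h1 : 1 + D ≠ 0) (h2 : TCV_Q D ≠ 0) :
    (D + 1) * exp (2 * Real.pi * I * s * (1 / 2 + s * log (TCV_Q D) / (2 * Real.pi * I))) =
      D ^ 2 + D - 1 := by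
  have hss : (s : ℂ) * s = 1 := by
    rcases hs with rfl | rfl <;> norm_num
  have hpi : (Real.pi : ℂ) ≠ 0 := by simp [Real.pi_ne_zero]
  have : 2 * Real.pi * I * s * (1 / 2 + s * log (TCV_Q D) / (2 * Real.pi * I)) =
      Real.pi * I * s + log (TCV_Q D) := by
    have hI : (I : ℂ) ≠ 0 := I_ne_zero
    field_simp
    linear_combination (log (TCV_Q D)) * hss
  rw [this, Complex.exp_add, Complex.exp_log h2]
  have : exp (Real.pi * I * s) = -1 := by
    rcases hs with rfl | rfl
    · rw [Int.cast_one, mul_one, Complex.exp_pi_mul_I]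
    · rw [Int.cast_neg, Int.cast_one, mul_neg, mul_one, Complex.exp_neg, Complex.exp_pi_mul_I]
      norm_num
  rw [this]
  unfold TCV_Q
  have h3 : (D + 1) ≠ 0 := by rwa [add_comm]
  field_simp
  ring

/-- The exponential form of the equation for `v`. -/
private theorem TCV_eqn (s : ℤ) (hs : s = 1 ∨ s = -1) (y v : ℂ)
    (h1 : 0 < (y - v).re) (h2 : (y - v).re < 1) (h3 : 0 < (y + v).re) (h4 : (y + v).re < 1)
    (hK : (2 * cos (2 * Real.pi * v) + 1) * exp (2 * Real.pi * I * s * y) =
      (2 * cos (2 * Real.pi * v)) ^ 2 + 2 * cos (2 * Real.pi * v) - 1) :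
    exp (2 * Real.pi * I * (2 * (2 * s : ℤ) * v + 1) + hh (y - v) - hh (y + v)) = 1 := by
  have hss : (s : ℂ) * s = 1 := by
    rcases hs with rfl | rfl <;> norm_num
  rw [Complex.exp_sub, Complex.exp_add, hh_exp _ h1 h2, hh_exp _ h3 h4]
  have hC := Tra2_two_cos s hs v
  have s1 := Tra2_sin s hs (y - v)
  have s2 := Tra2_sin s hs (y + v)
  have q : exp (2 * Real.pi * I * (2 * (2 * s : ℤ) * v + 1)) = exp (2 * Real.pi * I * s * v) ^ 4 := by
    have : 2 * Real.pi * I * (2 * (2 * s : ℤ) * v + 1) = (4 : ℕ) * (2 * Real.pi * I * s * v) +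
        2 * Real.pi * I := by push_cast; ring
    rw [this, Complex.exp_add, Complex.exp_nat_mul, Complex.exp_two_pi_mul_I, mul_one]
  have p1 : exp (2 * Real.pi * I * s * (y - v)) * exp (2 * Real.pi * I * s * v) =
      exp (2 * Real.pi * I * s * y) := by
    rw [← Complex.exp_add]; congr 1; ring
  have p2 : exp (2 * Real.pi * I * s * (y + v)) =
      exp (2 * Real.pi * I * s * y) * exp (2 * Real.pi * I * s * v) := by
    rw [← Complex.exp_add]; congr 1; ring
  have p3 : exp (Real.pi * I * s * (y - v)) * exp (2 * Real.pi * I * s * v) =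
      exp (Real.pi * I * s * (y + v)) := by
    rw [← Complex.exp_add]; congr 1; ring
  have hne : (2 * sin (Real.pi * (y + v)) : ℂ) ≠ 0 :=
    Complex.slitPlane_ne_zero (Clausen_slit _ h3 h4)
  have n1 : exp (Real.pi * I * s * (y + v)) ≠ 0 := Complex.exp_ne_zero _
  have n3 : (I * s : ℂ) ≠ 0 := by
    intro h
    have : (I * s : ℂ) * (I * s) = -1 := by
      linear_combination (s * s : ℂ) * I_sq - hss
    rw [h] at this
    norm_num at this
  rw [div_eq_one_iff_eq hne, q]
  set W := exp (2 * Real.pi * I * s * v) with hWdef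
  have hW0 : W ≠ 0 := Complex.exp_ne_zero _
  have k4 : W * (2 * cos (2 * Real.pi * v)) = W ^ 2 + 1 := by
    rw [hC]; field_simp
  rw [p2] at s2
  apply mul_right_cancel₀ (mul_ne_zero n3 n1)
  generalize 2 * cos (2 * Real.pi * v) = C at *
  generalize exp (2 * Real.pi * I * s * y) = Z at *
  generalize exp (2 * Real.pi * I * s * (y - v)) = u2 at *
  generalize exp (Real.pi * I * s * (y - v)) = u1 at *
  generalize exp (Real.pi * I * s * (y + v)) = u3 at *
  generalize 2 * sin (Real.pi * (y - v)) = S1 at *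
  generalize 2 * sin (Real.pi * (y + v)) = S2 at *
  generalize (I * s : ℂ) = J at *
  -- `W ^ 4 (Z - W) = Z W - 1`
  have key : W ^ 4 * (Z - W) = Z * W - 1 := by
    linear_combination (W ^ 2 * (W - 1)) * hK + (-(W - 1) * (W * Z - (W * C + W ^ 2 + 1) - W)) * k4
  have e1 : W ^ 4 * S1 * (J * u3) = W ^ 4 * (Z - W) := by
    rw [← p3]
    linear_combination (W ^ 5) * s1 + (W ^ 4) * p1
  rw [e1, key]
  linear_combination -s2

private theorem TCV_diff (s : ℤ) (hs : s = 1 ∨ s = -1) (d : ℂ)
    (d1 : 0 ≤ s * d.re) (d2 : s * d.re ≤ 315 / 10000) (d3 : 0 < d.im) (d4 : d.im ≤ 697 / 10000)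
    (u : ℝ) (u0 : 0 ≤ u) (u1 : u ≤ 1) :
    DifferentiableAt ℂ (TCV_y s d) u ∧ DifferentiableAt ℂ (TCV_z s d) u ∧
      DifferentiableAt ℂ (TCV_v s d) u := by
  obtain ⟨a0, a1, b1, b2⟩ := TCV_region s hs d d1 d2 d3 d4 u u0 u1
  obtain ⟨q1, q2, q3⟩ := TCV_signs s _ a0 a1 b1
  have hv : DifferentiableAt ℂ (TCV_v s d) u := by
    unfold TCV_v
    fun_prop
  have hD : DifferentiableAt ℂ (TCV_D s d) u := by
    unfold TCV_D
    fun_prop
  have hne : 1 + TCV_D s d u ≠ 0 := by
    intro h
    rw [h] at q1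
    simp at q1
  have hQ : DifferentiableAt ℂ (fun t => TCV_Q (TCV_D s d t)) u := by
    unfold TCV_Q
    exact ((hD.const_sub 1).sub (hD.pow 2)).div (hD.const_add 1) hne
  refine ⟨?_, ?_, hv⟩
  · unfold TCV_y
    have hl : DifferentiableAt ℂ (fun t => log (TCV_Q (TCV_D s d t))) u := hQ.clog (Or.inl q2)
    exact ((hl.const_mul (s : ℂ)).div_const _).const_add _
  · unfold TCV_z
    have hl : DifferentiableAt ℂ (fun t => log (1 + TCV_D s d t)) u :=
      (hD.const_add 1).clog (Or.inl q1)
    exact ((hl.const_mul (s : ℂ)).div_const _).const_add _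

/-- The derivative of the difference of the potentials. -/
private theorem TCV_deriv (s : ℤ) (y z v : ℂ → ℂ) (y' z' v' t : ℂ)
    (hy : HasDerivAt y y' t) (hz : HasDerivAt z z' t) (hv : HasDerivAt v v' t)
    (z0 : 0 < (z t).re ∧ (z t).re < 1) (x0 : 0 < (y t + 1 / 2 - z t).re ∧ (y t + 1 / 2 - z t).re < 1)
    (m0 : 0 < (y t - v t).re ∧ (y t - v t).re < 1) (p0 : 0 < (y t + v t).re ∧ (y t + v t).re < 1) :
    HasDerivAt (fun t => TCV_F s (y t) (z t) (v t))
      ((hh (y t + 1 / 2 - z t) - hh (z t) + Real.pi * I * s * (2 * z t + (y t + 1 / 2) - 2)) * z' -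
        (hh (y t + 1 / 2 - z t) - Real.pi * I * s * (y t + 1 / 2 - 3 / 2 + z t) -
          (hh (y t - v t) + hh (y t + v t))) * y' -
        (2 * Real.pi * I * (4 * s * v t + 1) + hh (y t - v t) - hh (y t + v t)) * v') t := by
  unfold TCV_F
  have f1 : HasDerivAt (fun t => ff (z t)) (hh (z t) * z') t :=
    (ff_hasDerivAt (z t) z0.1 z0.2).comp t hz
  have f2 : HasDerivAt (fun t => ff (y t + 1 / 2 - z t)) (hh (y t + 1 / 2 - z t) * (y' - z')) t :=
    HasDerivAt.comp t (h₂ := ff) (h := fun t => y t + 1 / 2 - z t)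
      (ff_hasDerivAt (y t + 1 / 2 - z t) x0.1 x0.2) ((hy.add_const (1 / 2 : ℂ)).sub hz)
  have f3 : HasDerivAt (fun t => ff (y t - v t)) (hh (y t - v t) * (y' - v')) t :=
    HasDerivAt.comp t (h₂ := ff) (h := fun t => y t - v t)
      (ff_hasDerivAt (y t - v t) m0.1 m0.2) (hy.sub hv)
  have f4 : HasDerivAt (fun t => ff (y t + v t)) (hh (y t + v t) * (y' + v')) t :=
    HasDerivAt.comp t (h₂ := ff) (h := fun t => y t + v t)
      (ff_hasDerivAt (y t + v t) p0.1 p0.2) (hy.add hv)
  have g1 : HasDerivAt (fun t => ((y t + 1 / 2) ^ 2 - 3 * (y t + 1 / 2)) / 2 + z t ^ 2 +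
      z t * (y t + 1 / 2) - 2 * z t)
      ((2 * (y t + 1 / 2) * y' - 3 * y') / 2 + 2 * z t * z' + (z' * (y t + 1 / 2) + z t * y') -
        2 * z') t := by
    have k1 := hy.add_const (1 / 2 : ℂ)
    have k2 := ((((k1.pow 2).sub (k1.const_mul 3)).div_const 2).add (hz.pow 2)).add (hz.mul k1)
    have k3 := k2.sub (hz.const_mul 2)
    refine k3.congr_deriv ?_
    simp
  have g2 : HasDerivAt (fun t => 2 * s * v t ^ 2 + v t) (2 * s * (2 * v t * v') + v') t := by
    have k := ((hv.pow 2).const_mul (2 * s : ℂ)).add hv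
    refine k.congr_deriv ?_
    simp
  have k := (((((f1.neg).sub f2).add (g1.const_mul (Real.pi * I * s : ℂ))).add f3).add f4).sub
    (g2.const_mul (2 * Real.pi * I : ℂ))
  refine k.congr_deriv ?_
  ring

private theorem TCV_half : ff (1 / 2) = 0 := by
  have := ff_reflect (1 / 2)
  have e : (1 - 1 / 2 : ℂ) = 1 / 2 := by norm_num
  rw [e] at this
  have h2 : 2 * ff (1 / 2) = 0 := by linear_combination this
  simpa using h2

/-- The value at the start of the path. -/
private theorem TCV_start (s : ℤ) (hs : s = 1 ∨ s = -1) (d : ℂ) :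
    TCV_F s (TCV_y s d 0) (TCV_z s d 0) (TCV_v s d 0) = -(Real.pi * I * s) := by
  have hD : TCV_D s d 0 = 0 := by
    rw [TCV_Dval s hs]; simp
  have hy : TCV_y s d 0 = 1 / 2 := by
    unfold TCV_y
    rw [hD]; simp [TCV_Q]
  have hz : TCV_z s d 0 = 1 / 2 := by
    unfold TCV_z
    rw [hD]; simp
  have hv : TCV_v s d 0 = -(s : ℂ) / 4 := by
    unfold TCV_v; simp
  rw [hy, hz, hv]
  unfold TCV_F
  have e1 : (1 / 2 + 1 / 2 - 1 / 2 : ℂ) = 1 / 2 := by norm_num
  rw [e1, TCV_half]
  have e2 : (s : ℂ) ^ 2 = 1 := by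
    rcases hs with rfl | rfl <;> norm_num
  have e3 : ff (1 / 2 - -(s : ℂ) / 4) + ff (1 / 2 + -(s : ℂ) / 4) = 0 := by
    have := ff_reflect (1 / 2 + -(s : ℂ) / 4)
    have e : (1 - (1 / 2 + -(s : ℂ) / 4) : ℂ) = 1 / 2 - -(s : ℂ) / 4 := by ring
    rw [e] at this
    rw [this]; ring
  linear_combination e3 - (2 * Real.pi * I * (2 * s) / 16) * e2

/-- The two potentials of a block with `|r| = 2` agree at the critical point up to a constant. -/
theorem tcv2 (r : ℤ) (hr : |r| = 2) (y v : ℂ)
    (h1 : 0 < (y - v).re ∧ (y - v).re < 1) (h3 : 0 < (y + v).re ∧ (y + v).re < 1)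
    (h5 : 24 / 100 ≤ y.re) (h6 : y.re ≤ 34 / 100)
    (hv : 0 < (4 * cos (Real.pi * v) ^ 2 - 1).re)
    (hl : 55 / 100 ≤ (zB r v).re ∧ (zB r v).re ≤ 60 / 100)
    (loc : ‖v + (r / 2 : ℂ) * (2335 / 10000) - 547 / 10000 * I‖ ≤ 15 / 1000)
    (e : 2 * Real.pi * I * (2 * r * v + 1) + hh (y - v) - hh (y + v) = 0) :
    BB r (y + 1 / 2) (zB r v) = ff (y + 1 / 2) - ff (y - v) - ff (y + v) +
      2 * Real.pi * I * (r * v ^ 2 + v) - Real.pi * I * r / 2 := by
  have hp := Real.pi_pos
  obtain ⟨s, hs, rfl⟩ : ∃ s : ℤ, (s = 1 ∨ s = -1) ∧ r = 2 * s := by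
    rcases (abs_eq (by norm_num : (0 : ℤ) ≤ 2)).1 hr with h | h
    · exact ⟨1, Or.inl rfl, h⟩
    · exact ⟨-1, Or.inr rfl, by omega⟩
  have hss : (s : ℂ) * s = 1 := by
    rcases hs with rfl | rfl <;> norm_num
  have hssR : (s : ℝ) * s = 1 := by
    rcases hs with rfl | rfl <;> norm_num
  have hsa : |(s : ℝ)| = 1 := by
    rcases hs with rfl | rfl <;> norm_num
  -- the direction of the path
  set d : ℂ := v + (s : ℂ) / 4 with hd
  have dre : (s : ℝ) * d.re = s * v.re + 1 / 4 := by
    have : d.re = v.re + (s : ℝ) / 4 := by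
      rw [hd, Complex.add_re]; simp
    rw [this]; linear_combination (1 / 4 : ℝ) * hssR
  have dim : d.im = v.im := by
    rw [hd, Complex.add_im]; simp
  have l1 := (Complex.abs_re_le_norm _).trans loc
  have l2 := (Complex.abs_im_le_norm _).trans loc
  have m1 : (v + (((2 * s : ℤ) : ℂ) / 2 : ℂ) * (2335 / 10000) - 547 / 10000 * I).re =
      v.re + s * (2335 / 10000) := by
    have : (v + (((2 * s : ℤ) : ℂ) / 2 : ℂ) * (2335 / 10000) - 547 / 10000 * I) =
        v + ((s * (2335 / 10000) : ℝ) : ℂ) - ((547 / 10000 : ℝ) : ℂ) * I := by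
      push_cast; ring
    rw [this]; simp
  have m2 : (v + (((2 * s : ℤ) : ℂ) / 2 : ℂ) * (2335 / 10000) - 547 / 10000 * I).im =
      v.im - 547 / 10000 := by
    have : (v + (((2 * s : ℤ) : ℂ) / 2 : ℂ) * (2335 / 10000) - 547 / 10000 * I) =
        v + ((s * (2335 / 10000) : ℝ) : ℂ) - ((547 / 10000 : ℝ) : ℂ) * I := by
      push_cast; ring
    rw [this]; simp
  rw [m1] at l1
  rw [m2] at l2
  have l3 : |(s : ℝ) * v.re + 2335 / 10000| ≤ 15 / 1000 := by
    have : (s : ℝ) * v.re + 2335 / 10000 = s * (v.re + s * (2335 / 10000)) := by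
      linear_combination (-(2335 / 10000) : ℝ) * hssR
    rw [this, abs_mul, hsa, one_mul]; exact l1
  obtain ⟨c1, c2⟩ := abs_le.1 l3
  obtain ⟨c3, c4⟩ := abs_le.1 l2
  have d1 : 0 ≤ (s : ℝ) * d.re := by rw [dre]; linarith only [c1, h1.2, h1.1]
  have d2 : (s : ℝ) * d.re ≤ 315 / 10000 := by rw [dre]; linarith only [c2]
  have d2' : (s : ℝ) * d.re ≤ 315 / 10000 := d2
  have d3 : 0 < d.im := by rw [dim]; linarith only [c3, h1.2, h1.1]
  have d4 : d.im ≤ 697 / 10000 := by rw [dim]; linarith only [c4]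
  -- the equation along the path
  have heq : ∀ u : ℝ, 0 < u → u ≤ 1 →
      2 * Real.pi * I * (2 * (2 * s : ℤ) * TCV_v s d u + 1) + hh (TCV_y s d u - TCV_v s d u) -
        hh (TCV_y s d u + TCV_v s d u) = 0 := by
    intro u u0 u1
    obtain ⟨a0, a1, b1, b2⟩ := TCV_region s hs d d1 d2 d3 d4 u u0.le u1
    obtain ⟨q1, q2, q3⟩ := TCV_signs s _ a0 a1 b1
    obtain ⟨r1, r2, r3, r4, r5, r6⟩ := TCV_reals s hs d d1 d2 d3 d4 u u0.le u1
    obtain ⟨r7, r8⟩ := abs_le.1 r6
    have w1 : 0 < (TCV_y s d u - TCV_v s d u).re := by rw [Complex.sub_re]; linarith only [r8, r1]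
    have w2 : (TCV_y s d u - TCV_v s d u).re < 1 := by rw [Complex.sub_re]; linarith only [r7, r2]
    have w3 : 0 < (TCV_y s d u + TCV_v s d u).re := by rw [Complex.add_re]; linarith only [r7, r1]
    have w4 : (TCV_y s d u + TCV_v s d u).re < 1 := by rw [Complex.add_re]; linarith only [r8, r2]
    apply Tra2_zero
    · apply TCV_eqn s hs _ _ w1 w2 w3 w4
      have hne : 1 + TCV_D s d u ≠ 0 := by
        intro h
        rw [h] at q1
        simp at q1
      have hq : TCV_Q (TCV_D s d u) ≠ 0 := by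
        intro h
        rw [h] at q2
        simp at q2
      exact TCV_rel s hs (TCV_D s d u) hne hq
    · have i1 := abs_lt.1 (Tra2_im _ w1 w2)
      have i2 := abs_lt.1 (Tra2_im _ w3 w4)
      have i3 : (2 * Real.pi * I * (2 * (2 * s : ℤ) * TCV_v s d u + 1)).im =
          2 * Real.pi * (4 * (u * (s * d.re))) := by
        have : 2 * Real.pi * I * (2 * (2 * s : ℤ) * TCV_v s d u + 1) =
            ((2 * Real.pi * (4 * u) : ℝ) : ℂ) * (I * (s * d)) := by
          unfold TCV_v
          push_cast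
          linear_combination (-2 * Real.pi * I) * hss
        rw [this, Complex.im_ofReal_mul, Complex.I_mul_im]
        simp
        ring
      rw [Complex.sub_im, Complex.add_im, i3]
      have i4 : 0 ≤ u * (s * d.re) := mul_nonneg u0.le d1
      have i5 : u * (s * d.re) ≤ 315 / 10000 := by linarith only [u1, c2,
                                                     mul_nonneg (sub_nonneg.2 c1) (sub_nonneg.2 u1),
                                                     mul_nonneg (sub_nonneg.2 dre.le) (sub_nonneg.2 u0.le),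
                                                     mul_nonneg (sub_nonneg.2 dre.ge) (sub_nonneg.2 u0.le)]
      have i6 : 2 * Real.pi * (4 * (u * (s * d.re))) ≤ 2 * Real.pi * (4 * (315 / 10000)) := by
        gcongr
      have i7 : 0 ≤ 2 * Real.pi * (4 * (u * (s * d.re))) := by positivity
      rw [abs_lt]
      constructor <;> linarith [i1.1, i1.2, i2.1, i2.2]
  -- the derivative
  have hder : ∀ u : ℝ, 0 < u → u ≤ 1 →
      HasDerivAt (fun t : ℂ => TCV_F s (TCV_y s d t) (TCV_z s d t) (TCV_v s d t)) 0 u := by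
    intro u u0 u1
    obtain ⟨a0, a1, b1, b2⟩ := TCV_region s hs d d1 d2 d3 d4 u u0.le u1
    obtain ⟨q1, q2, q3⟩ := TCV_signs s _ a0 a1 b1
    obtain ⟨r1, r2, r3, r4, r5, r6⟩ := TCV_reals s hs d d1 d2 d3 d4 u u0.le u1
    obtain ⟨r7, r8⟩ := abs_le.1 r6
    obtain ⟨k1, k2, k3⟩ := TCV_diff s hs d d1 d2 d3 d4 u u0.le u1
    have w1 : 0 < (TCV_y s d u - TCV_v s d u).re := by rw [Complex.sub_re]; linarith only [r8, r1]
    have w2 : (TCV_y s d u - TCV_v s d u).re < 1 := by rw [Complex.sub_re]; linarith only [r7, r2]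
    have w3 : 0 < (TCV_y s d u + TCV_v s d u).re := by rw [Complex.add_re]; linarith only [r7, r1]
    have w4 : (TCV_y s d u + TCV_v s d u).re < 1 := by rw [Complex.add_re]; linarith only [r8, r2]
    have w5 : (TCV_y s d u + 1 / 2 - TCV_z s d u).re = (TCV_y s d u).re + 1 / 2 -
        (TCV_z s d u).re := by simp
    have hz : zB (2 * s) (TCV_v s d u) = TCV_z s d u := by
      unfold zB
      rw [if_neg (by rw [hr]; norm_num)]
      unfold TCV_z TCV_D
      push_cast
      ring
    have hK : (4 * cos (Real.pi * TCV_v s d u) ^ 2 - 1 : ℂ) = 1 + TCV_D s d u := by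
      unfold TCV_D
      rw [mul_assoc 2 (Real.pi : ℂ) (TCV_v s d u), Complex.cos_two_mul]; ring
    have T := tra2g (2 * s) hr (TCV_y s d u) (TCV_v s d u) w1 w2 w3 w4 (by linarith only [r1]) (r3 u0)
      (by rw [hK]; exact q1) (by rw [hz]; exact r4) (by rw [hz]; exact r5) (heq u u0 u1)
    rw [hz] at T
    obtain ⟨T1, T2⟩ := T
    have key := TCV_deriv s (TCV_y s d) (TCV_z s d) (TCV_v s d) _ _ _ u k1.hasDerivAt
      k2.hasDerivAt k3.hasDerivAt ⟨by linarith only [r4], by linarith only [r5]⟩ ⟨by rw [w5]; linarith only [r5,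
                                                                                                r1], by rw [w5]; linarith only [r4,
                                                                                                                   r2]⟩
      ⟨w1, w2⟩ ⟨w3, w4⟩
    refine key.congr_deriv ?_
    have E := heq u u0 u1
    have E1 : hh (TCV_y s d u + 1 / 2 - TCV_z s d u) - hh (TCV_z s d u) +
        Real.pi * I * s * (2 * TCV_z s d u + (TCV_y s d u + 1 / 2) - 2) = 0 := by
      rw [← T1]; push_cast; ring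
    have E2 : hh (TCV_y s d u + 1 / 2 - TCV_z s d u) -
        Real.pi * I * s * (TCV_y s d u + 1 / 2 - 3 / 2 + TCV_z s d u) -
          (hh (TCV_y s d u - TCV_v s d u) + hh (TCV_y s d u + TCV_v s d u)) = 0 := by
      rw [← T2]; push_cast; ring
    have E3 : 2 * Real.pi * I * (4 * s * TCV_v s d u + 1) + hh (TCV_y s d u - TCV_v s d u) -
        hh (TCV_y s d u + TCV_v s d u) = 0 := by
      rw [← E]; push_cast; ring
    rw [E1, E2, E3]
    ring
  -- continuity at all points
  have hcont : ∀ u : ℝ, 0 ≤ u → u ≤ 1 →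
      ContinuousAt (fun t : ℂ => TCV_F s (TCV_y s d t) (TCV_z s d t) (TCV_v s d t)) u := by
    intro u u0 u1
    obtain ⟨r1, r2, r3, r4, r5, r6⟩ := TCV_reals s hs d d1 d2 d3 d4 u u0 u1
    obtain ⟨r7, r8⟩ := abs_le.1 r6
    obtain ⟨k1, k2, k3⟩ := TCV_diff s hs d d1 d2 d3 d4 u u0 u1
    have w1 : 0 < (TCV_y s d u - TCV_v s d u).re := by rw [Complex.sub_re]; linarith only [r8, r1]
    have w2 : (TCV_y s d u - TCV_v s d u).re < 1 := by rw [Complex.sub_re]; linarith only [r7, r2]
    have w3 : 0 < (TCV_y s d u + TCV_v s d u).re := by rw [Complex.add_re]; linarith only [r7, r1]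
    have w4 : (TCV_y s d u + TCV_v s d u).re < 1 := by rw [Complex.add_re]; linarith only [r8, r2]
    have w5 : (TCV_y s d u + 1 / 2 - TCV_z s d u).re = (TCV_y s d u).re + 1 / 2 -
        (TCV_z s d u).re := by simp
    exact (TCV_deriv s (TCV_y s d) (TCV_z s d) (TCV_v s d) _ _ _ u k1.hasDerivAt
      k2.hasDerivAt k3.hasDerivAt ⟨by linarith only [r4], by linarith only [r5]⟩ ⟨by rw [w5]; linarith only [r5,
                                                                                                r1], by rw [w5]; linarith only [r4,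
                                                                                                                   r2]⟩
      ⟨w1, w2⟩ ⟨w3, w4⟩).continuousAt
  -- the function is constant
  set G : ℝ → ℂ := fun τ => TCV_F s (TCV_y s d ((1 - τ : ℝ) : ℂ)) (TCV_z s d ((1 - τ : ℝ) : ℂ))
    (TCV_v s d ((1 - τ : ℝ) : ℂ)) with hG
  have hGc : ContinuousOn G (Set.Icc 0 1) := by
    intro τ hτ
    have h := hcont (1 - τ) (by linarith only [hτ.2]) (by linarith only [hτ.1])
    have h' : ContinuousAt (fun τ : ℝ => ((1 - τ : ℝ) : ℂ)) τ := by fun_prop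
    exact (ContinuousAt.comp (f := fun τ : ℝ => ((1 - τ : ℝ) : ℂ)) (x := τ) h h').continuousWithinAt
  have hGd : ∀ τ ∈ Set.Ico (0 : ℝ) 1, HasDerivWithinAt G 0 (Set.Ici τ) τ := by
    intro τ hτ
    have h := hder (1 - τ) (by linarith only [hτ.2]) (by linarith only [hτ.1])
    have h' : HasDerivAt (fun τ : ℝ => ((1 - τ : ℝ) : ℂ)) (-1) τ := by
      have := ((hasDerivAt_id τ).const_sub 1).ofReal_comp
      simpa using this
    have k := h.scomp τ h'
    have k' : HasDerivAt G 0 τ := k.congr_deriv (by simp)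
    exact k'.hasDerivWithinAt
  have hconst := constant_of_has_deriv_right_zero hGc hGd 1 ⟨zero_le_one, le_refl _⟩
  have hG1 : G 1 = -(Real.pi * I * s) := by
    rw [hG]
    simp only [sub_self, Complex.ofReal_zero]
    exact TCV_start s hs d
  have hG0 : G 0 = TCV_F s (TCV_y s d 1) (TCV_z s d 1) (TCV_v s d 1) := by
    rw [hG]
    simp only [sub_zero, Complex.ofReal_one]
  -- the end of the path
  have hv1 : TCV_v s d 1 = v := by
    unfold TCV_v
    rw [hd]; ring
  have hz1 : TCV_z s d 1 = zB (2 * s) v := by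
    unfold zB
    rw [if_neg (by rw [hr]; norm_num)]
    unfold TCV_z TCV_D
    rw [hv1]
    push_cast
    ring
  have hy1 : TCV_y s d 1 = y := by
    obtain ⟨a0, a1, b1, b2⟩ := TCV_region s hs d d1 d2 d3 d4 1 zero_le_one le_rfl
    obtain ⟨q1, q2, q3⟩ := TCV_signs s _ a0 a1 b1
    obtain ⟨r1, r2, -, -, -, -⟩ := TCV_reals s hs d d1 d2 d3 d4 1 zero_le_one le_rfl
    rw [Complex.ofReal_one] at a0 a1 b1 b2 q1 q2 q3 r1 r2
    have hne : 1 + TCV_D s d 1 ≠ 0 := by
      intro h
      rw [h] at q1
      simp at q1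
    have hq : TCV_Q (TCV_D s d 1) ≠ 0 := by
      intro h
      rw [h] at q2
      simp at q2
    have R1 := TCV_rel s hs (TCV_D s d 1) hne hq
    have R2 := Tra2_rel s hs y v h1.1 h1.2 h3.1 h3.2 h5 (by linarith only [h6, h1.2, h1.1]) e
    have R3 : (1 + TCV_D s d 1) * exp (2 * Real.pi * I * s * TCV_y s d 1) =
        (1 + TCV_D s d 1) * exp (2 * Real.pi * I * s * y) := by
      have hDv : TCV_D s d 1 = 2 * cos (2 * Real.pi * v) := by
        unfold TCV_D; rw [hv1]
      unfold TCV_y
      rw [hDv] at R1 ⊢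
      linear_combination R1 - R2
    have R4 := mul_left_cancel₀ hne R3
    rw [Complex.exp_eq_exp_iff_exists_int] at R4
    obtain ⟨n, hn⟩ := R4
    have hpi : (2 * Real.pi * I : ℂ) ≠ 0 := by
      simp [Real.pi_ne_zero]
    have R5 : (s : ℂ) * TCV_y s d 1 = s * y + n := by
      apply mul_left_cancel₀ hpi
      linear_combination hn
    have R6 : TCV_y s d 1 = y + ((s * n : ℤ) : ℂ) := by
      push_cast
      linear_combination (s : ℂ) * R5 - (TCV_y s d 1 - y) * hss
    have R7 : (TCV_y s d 1).re = y.re + ((s * n : ℤ) : ℝ) := by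
      rw [R6, Complex.add_re, Complex.intCast_re]
    have a1' : ((s * n : ℤ) : ℝ) < 1 := by linarith only [R7, r2, h5]
    have a2' : (-1 : ℝ) < ((s * n : ℤ) : ℝ) := by linarith only [R7, r1, h6]
    have a3 : s * n < 1 := by exact_mod_cast a1'
    have a4 : -1 < s * n := by exact_mod_cast a2'
    have a5 : s * n = 0 := by omega
    rw [R6, a5]; simp
  rw [hG1, hG0, hv1, hz1, hy1] at hconst
  unfold BB
  rw [if_neg (by rw [hr]; norm_num)]
  unfold TCV_F at hconst
  push_cast
  push_cast at hconst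
  linear_combination -hconst

end Pool.Agent.H63.GV
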