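import Pool.Agent.H63.GO.JLim
import Pool.Agent.H63.GV.Conj
import Pool.Agent.H63.GV.Fin
import Pool.Agent.H63.GV.Mir
import Pool.Agent.H63.GV.TCV
import Pool.Agent.H63.VC12.Fin12

/-! # The final theorem for the two-bridge knots of genus one, with the complex volume -/

namespace Pool.Agent.H63.GV

open Filter Topology Pool.Agent.H63.VC Pool.Agent.H63.VC3 Pool.Agent.H63.VC4 Pool.Agent.H63.VC5
  Pool.Agent.H63.VC7 Pool.Agent.H63.VC11 Pool.Agent.H63.GO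
open Complex (I exp)

/-- The value of a block. -/
theorem Main_blk (r : ℤ) (h2 : 2 ≤ |r|) (y v k : ℂ) (hb : Blk r v k)
    (h1 : 0 < (y - v).re ∧ (y - v).re < 1) (h3 : 0 < (y + v).re ∧ (y + v).re < 1)
    (h5 : 24 / 100 ≤ y.re) (h6 : y.re ≤ 34 / 100)
    (hl : |r| = 2 → 55 / 100 ≤ (zB r v).re ∧ (zB r v).re ≤ 60 / 100)
    (e : 2 * Real.pi * I * (2 * r * v + 1) + hh (y - v) - hh (y + v) = 0) :
    BB r (y + 1 / 2) (zB r v) + 2 * Real.pi * I * (if 3 ≤ |r| then zB r v else 0) + JLim_cB r =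
      ff (y + 1 / 2) - ff (y - v) - ff (y + v) + 2 * Real.pi * I * (r * v ^ 2 + v) +
        (Real.pi * I - Real.pi * I * r / 2) := by
  by_cases h : 3 ≤ |r|
  · have ez : zB r v = v := by rw [zB, if_pos h]
    rw [ez, BB, if_pos h, if_pos h, JLim_cB, if_pos h]
    have e1 : y + 1 / 2 - 1 / 2 - v = y - v := by ring
    have e2 : y + 1 / 2 - 1 / 2 + v = y + v := by ring
    rw [e1, e2]
    ring
  · have hr : |r| = 2 := by omega
    rw [if_neg h, JLim_cB, if_neg h, tcv2 r hr y v h1 h3 h5 h6 hb.pos (hl hr) (hb.loc2 hr) e]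
    ring

/-- The exponent is the critical value of the potential function. -/
theorem Main_c (r1 r2 : ℤ) (y v w : ℂ) (hc : CritG r1 r2 y v w)
    (hv : Blk r1 v (Complex.cos (Real.pi * w))) (hw : Blk r2 w (Complex.cos (Real.pi * v)))
    (hl1 : |r1| = 2 → 55 / 100 ≤ (zB r1 v).re ∧ (zB r1 v).re ≤ 60 / 100)
    (hl2 : |r2| = 2 → 55 / 100 ≤ (zB r2 w).re ∧ (zB r2 w).re ≤ 60 / 100) :
    Vm (Bs r1 r2) (VV r1 r2) (zC r1 r2 y v w) + JLim_cB r1 + JLim_cB r2 =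
      Vf r1 r2 y v w + (2 * Real.pi * I - Real.pi * I * (r1 + r2) / 2) := by
  obtain ⟨s0, s1, s2, s3, s4⟩ := gstrip r1 r2 y v w hc
  have hb1 := Main_blk r1 hc.h1 y v _ hv s1 s2 hc.y1 hc.y2 hl1 hc.ev
  have hb2 := Main_blk r2 hc.h2 y w _ hw s3 s4 hc.y1 hc.y2 hl2 hc.ew
  have z0 : zC r1 r2 y v w 0 = y + 1 / 2 := rfl
  have z1 : zC r1 r2 y v w 1 = zB r1 v := rfl
  have z2 : zC r1 r2 y v w 2 = zB r2 w := rfl
  rw [Vm, TVal_sum, VV, z0, z1, z2, Vf]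
  linear_combination hb1 + hb2

theorem gfinC (r1 r2 : ℤ) (h1 : 2 ≤ |r1|) (h2 : 2 ≤ |r2|) :
    ∃ V C : ℝ, IsGreatest (structureVolumes (conway [r1, r2])) V ∧
    (∃ Z : ℂ, IsComplexVolume (conway [r1, r2]) (decide (r1 < 0)) Z ∧
      ∃ k : ℤ, Z = I * (V + C * I) + k * (Real.pi : ℂ) ^ 2) ∧
    ∀ n a : ℕ, 2 ≤ n → 1 ≤ a → a ≤ n - 1 → ∃ J : ℕ → ℂ,
      (∀ N : ℕ, Tendsto (fun q => coloredSU
          (diagram (m := 1) Fin.castSucc ![r1, r2]) n N q)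
        (𝓝[≠] exp (Real.pi * I / (N + a))) (𝓝 (J N))) ∧
      (∃ L : ℕ → ℂ, (∀ᶠ N : ℕ in atTop, exp (L N) = J N) ∧
        Tendsto (fun N : ℕ => 2 * (Real.pi : ℂ) * L N / (N + 1)) atTop
          (𝓝 (V + C * I))) ∧
      Tendsto (fun N : ℕ => 2 * (Real.pi : ℂ) * Complex.log (J N) / (N + 1)) atTop (𝓝 (V : ℂ)) ∧
      ∃ κ : ℂ, κ ≠ 0 ∧ Tendsto (fun N : ℕ => J N /
        ((((N : ℝ) + a) ^ (2 * (n : ℝ) - 5 / 2) : ℝ) *
          exp ((N + a) * (V + C * I) / (2 * Real.pi)))) atTop (𝓝 κ) := by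
  obtain ⟨y, v, w, c, hbv, hbw, hl1, hl2, hcv, hc, hre, h⟩ := jlimB r1 r2 h1 h2
  have hgeo := geo_all r1 r2 y v w hc
  rw [← hre] at hgeo
  rw [Main_c r1 r2 y v w hc hbv hbw hl1 hl2] at hcv
  obtain ⟨Z, hZ, nZ, hnZ⟩ := cv_critG r1 r2 y v w hc hbv hbw
  refine ⟨2 * Real.pi * c.re, 2 * Real.pi * c.im, hgeo, ⟨Z, hZ, nZ + 4 - r1 - r2, ?_⟩,
    fun n a hn ha han => ?_⟩
  · have e0 : Vf r1 r2 y v w = c - (2 * Real.pi * I - Real.pi * I * (r1 + r2) / 2) := by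
      rw [hcv]; ring
    rw [hnZ, e0]
    conv_lhs => rw [← Complex.re_add_im c]
    push_cast
    linear_combination (-4 * (Real.pi : ℂ) ^ 2 + (Real.pi : ℂ) ^ 2 * (r1 + r2)) * Complex.I_sq
  obtain ⟨κ, hκ, hlim⟩ := h n a hn ha han
  have hπ : (Real.pi : ℂ) ≠ 0 := by exact_mod_cast Real.pi_ne_zero
  have hW : (((2 * Real.pi * c.re : ℝ) : ℂ) + ((2 * Real.pi * c.im : ℝ) : ℂ) * I) =
      2 * Real.pi * c := by
    conv_rhs => rw [← Complex.re_add_im c]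
    push_cast
    ring
  obtain ⟨J, hJd⟩ : ∃ J : ℕ → ℂ, ∀ N, J N = suChain [r1, r2] n N
      (exp (Real.pi * I / (N + a))) := ⟨_, fun _ => rfl⟩
  have h10 : r1 ≠ 0 := by
    intro h0; rw [h0] at h1; norm_num at h1
  have h20 : r2 ≠ 0 := by
    intro h0; rw [h0] at h2; norm_num at h2
  have hJ : ∀ N, n ≤ N → J N = -JN r1 r2 n a (N + a) := fun N hN => by
    rw [hJd]
    exact suChain_JN r1 r2 h10 h20 n a N hn ha han hN
  have hasy : Tendsto (fun N : ℕ => J N /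
        ((((N : ℝ) + a) ^ (2 * (n : ℝ) - 5 / 2) : ℝ) *
          exp ((N + a) * (((2 * Real.pi * c.re : ℝ) : ℂ) +
            ((2 * Real.pi * c.im : ℝ) : ℂ) * I) / (2 * Real.pi)))) atTop (𝓝 (-κ)) := by
    have h2 := (hlim.comp (tendsto_add_atTop_nat a)).neg
    refine h2.congr' ?_
    filter_upwards [eventually_ge_atTop n] with N hN
    simp only [Function.comp]
    have e : ((N : ℂ) + a) * (2 * Real.pi * c) / (2 * Real.pi) = ((N + a : ℕ) : ℂ) * c := by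
      push_cast
      field_simp
    rw [hJ N hN, hW, e, neg_div]
    congr 3
    push_cast
    rfl
  have hnorm : Tendsto (fun N : ℕ => ‖J N‖ /
        (((N + a : ℕ) : ℝ) ^ (2 * (n : ℝ) - 5 / 2) * Real.exp ((N + a : ℕ) * c.re)))
        atTop (𝓝 ‖(-κ)‖) := by
    refine (hasy.norm).congr fun N => ?_
    have e : ((N : ℂ) + a) * (2 * Real.pi * c) / (2 * Real.pi) = ((N + a : ℕ) : ℂ) * c := by
      push_cast
      field_simp
    rw [norm_div, norm_mul, Complex.norm_exp, Complex.norm_real, Real.norm_eq_abs,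
      abs_of_nonneg (by positivity), hW, e]
    congr 2
    · push_cast
      rfl
    · congr 1
      simp
  have hlog := final_log J a ha (2 * (n : ℝ) - 5 / 2) c.re ‖(-κ)‖
    (norm_pos_iff.2 (neg_ne_zero.2 hκ)) hnorm
  refine ⟨J, fun N => ?_, Pool.Agent.H63.VC6.log_lift J a ha _ _ (-κ) (neg_ne_zero.2 hκ) hasy,
    hlog, -κ, neg_ne_zero.2 hκ, hasy⟩
  have h1 := Pool.Agent.H63.VC12.Fin12_lim 1 ⟨1, rfl⟩ ![r1, r2] n N a hn ha
  have e : (List.finRange (1 + 1)).map ![r1, r2] = [r1, r2] := rfl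
  rw [e, ← hJd] at h1
  exact h1

end Pool.Agent.H63.GV
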