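import Pool.Agent.H63.VC5.FFdilog

/-! # Limits of the dilogarithm at 1 -/

namespace Pool.Agent.H63.GV

open Pool.Agent.H63.VC Pool.Agent.H63.VC3 Pool.Agent.H63.VC5 Complex Filter
  Topology

private theorem TLim_log_le (w : ℂ) : ‖Complex.log w‖ ≤ |Real.log ‖w‖| + Real.pi := by
  unfold Complex.log
  refine (norm_add_le _ _).trans ?_
  refine add_le_add ?_ ?_
  · rw [Complex.norm_real, Real.norm_eq_abs]
  · rw [norm_mul, Complex.norm_I, mul_one, Complex.norm_real, Real.norm_eq_abs]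
    exact Complex.abs_arg_le_pi w

private theorem TLim_prod : Tendsto (fun z : ℂ => Complex.log z * Complex.log (1 - z)) (𝓝 1)
    (𝓝 0) := by
  have h1 : Tendsto (fun z : ℂ => 3 / 2 * (|‖1 - z‖ * Real.log ‖1 - z‖| + ‖1 - z‖ * Real.pi))
      (𝓝 1) (𝓝 0) := by
    have h2 : Continuous fun z : ℂ =>
        3 / 2 * (|‖1 - z‖ * Real.log ‖1 - z‖| + ‖1 - z‖ * Real.pi) := by
      have hn : Continuous fun z : ℂ => ‖1 - z‖ := by fun_prop
      exact continuous_const.mul (((Real.continuous_mul_log.comp hn).abs).add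
        (hn.mul continuous_const))
    have h3 := h2.tendsto 1
    simpa using h3
  refine squeeze_zero_norm' ?_ h1
  have h4 : Metric.closedBall (1 : ℂ) (1 / 2) ∈ 𝓝 (1 : ℂ) :=
    Metric.closedBall_mem_nhds _ (by norm_num)
  filter_upwards [h4] with z hz
  have h5 : ‖z - 1‖ ≤ 1 / 2 := by simpa [dist_eq_norm] using hz
  have h6 : ‖Complex.log z‖ ≤ 3 / 2 * ‖1 - z‖ := by
    have h7 := Complex.norm_log_one_add_half_le_self h5
    rw [add_sub_cancel] at h7
    rwa [norm_sub_rev] at h7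
  have h8 := TLim_log_le (1 - z)
  rw [norm_mul]
  have h9 : 3 / 2 * (|‖1 - z‖ * Real.log ‖1 - z‖| + ‖1 - z‖ * Real.pi) =
      (3 / 2 * ‖1 - z‖) * (|Real.log ‖1 - z‖| + Real.pi) := by
    rw [abs_mul, abs_norm]
    ring
  rw [h9]
  exact mul_le_mul h6 h8 (norm_nonneg _) (by positivity)

/-- `dilog z → π² / 6` for `z → 1`, `z ∉ [1, ∞)`. -/
theorem dilog_lim_one : Tendsto dilog (𝓝[{z | 1 - z ∈ slitPlane}] 1) (𝓝 ((Real.pi : ℂ) ^ 2 / 6)) := by
  have h1 : Tendsto (fun z : ℂ => (Real.pi : ℂ) ^ 2 / 6 - Complex.log z * Complex.log (1 - z) -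
      dilog (1 - z)) (𝓝 1) (𝓝 ((Real.pi : ℂ) ^ 2 / 6 - 0 - 0)) := by
    refine (tendsto_const_nhds.sub TLim_prod).sub ?_
    have h2 := dilog_continuous_zero.tendsto
    rw [dilog_zero] at h2
    have h3 : Tendsto (fun z : ℂ => 1 - z) (𝓝 1) (𝓝 0) := by
      have h4 : Continuous fun z : ℂ => 1 - z := by fun_prop
      simpa using h4.tendsto 1
    exact h2.comp h3
  rw [sub_zero, sub_zero] at h1
  refine (h1.mono_left nhdsWithin_le_nhds).congr' ?_
  have h5 : slitPlane ∈ 𝓝[{z : ℂ | 1 - z ∈ slitPlane}] (1 : ℂ) :=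
    nhdsWithin_le_nhds (isOpen_slitPlane.mem_nhds one_mem_slitPlane)
  filter_upwards [h5, self_mem_nhdsWithin] with z hz hz1
  have h6 := dilog_compl z hz hz1
  linear_combination -h6

/-- `ff z → 0` for `z → 1` in the strip. -/
theorem ff_lim_one : Tendsto ff (𝓝[{z | 0 < z.re ∧ z.re < 1}] 1) (𝓝 0) := by
  have h1 : Tendsto (fun z : ℂ => exp (2 * Real.pi * I * z)) (𝓝[{z | 0 < z.re ∧ z.re < 1}] 1)
      (𝓝[{z | 1 - z ∈ slitPlane}] 1) := by
    refine tendsto_nhdsWithin_iff.2 ⟨?_, ?_⟩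
    · have h2 : Continuous fun z : ℂ => exp (2 * Real.pi * I * z) := by fun_prop
      have h3 := h2.tendsto 1
      simp only [mul_one, Complex.exp_two_pi_mul_I] at h3
      exact h3.mono_left nhdsWithin_le_nhds
    · filter_upwards [self_mem_nhdsWithin] with z hz
      exact FFdilog_slit z hz.1 hz.2
  have h4 := dilog_lim_one.comp h1
  have h5 : Tendsto (fun z : ℂ => (Real.pi : ℂ) ^ 2 * (z ^ 2 - z + 1 / 6))
      (𝓝[{z : ℂ | 0 < z.re ∧ z.re < 1}] 1) (𝓝 ((Real.pi : ℂ) ^ 2 / 6)) := by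
    have h2 : Continuous fun z : ℂ => (Real.pi : ℂ) ^ 2 * (z ^ 2 - z + 1 / 6) := by fun_prop
    have h3 := h2.tendsto 1
    have h6 : (Real.pi : ℂ) ^ 2 * (1 ^ 2 - 1 + 1 / 6) = (Real.pi : ℂ) ^ 2 / 6 := by ring
    rw [h6] at h3
    exact h3.mono_left nhdsWithin_le_nhds
  have h7 := (h4.neg.add h5).const_mul (2 * Real.pi * I : ℂ)⁻¹
  rw [neg_add_cancel, mul_zero] at h7
  refine h7.congr' ?_
  filter_upwards [self_mem_nhdsWithin] with z hz
  have h8 := ff_dilog z hz.1 hz.2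
  have h9 : (2 * Real.pi * I : ℂ) ≠ 0 := Complex.two_pi_I_ne_zero
  simp only [Function.comp]
  rw [← h8, inv_mul_cancel_left₀ h9]

end Pool.Agent.H63.GV
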